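import Pool.Agent.Lib.LP93.Cycle
import Pool.Agent.Lib.MP_db3ceb_pr.Main

/-! A long path is bounded by the longest cycles of disjoint cells. -/

open Set SimpleGraph MeasureTheory ProbabilityTheory

namespace Pool.Agent.Lib.LP93

open Pool.Agent.Lib.helper98 Pool.Agent.Lib.MP_db3ceb_pr

variable {ω : V → Prop} {u v : V} {R : Set V} {p : ℝ}

/-- lengths of open paths inside `R` -/
def pth (ω : V → Prop) (R : Set V) : Set ℕ :=
  {l | ∃ (u v : V) (w : (G ω).Walk u v), w.IsPath ∧ (∀ z ∈ w.support, z ∈ R) ∧ w.length = l}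

/-- length of the longest open path inside `R` -/
noncomputable def LP (ω : V → Prop) (R : Set V) : ℕ := sSup (pth ω R)

lemma card_support {w : (G ω).Walk u v} (hw : w.IsPath) :
    w.support.toFinset.card = w.length + 1 := by
  rw [List.toFinset_card_of_nodup hw.support_nodup, Walk.length_support]

lemma pth_bdd (hR : R.Finite) : BddAbove (pth ω R) :=
  ⟨hR.toFinset.card, fun _ ⟨_, _, w, h1, h2, h3⟩ => by
    have : w.support.toFinset ⊆ hR.toFinset := fun z hz => by simpa using h2 z (by simpa using hz)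
    have := Finset.card_le_card this
    rw [card_support h1] at this
    omega⟩

lemma le_LP (hR : R.Finite) {w : (G ω).Walk u v} (hw : w.IsPath) (h : ∀ z ∈ w.support, z ∈ R) :
    w.length ≤ LP ω R := le_csSup (pth_bdd hR) ⟨u, v, w, hw, h, rfl⟩

lemma LP_spec (hR : R.Finite) : LP ω R = 0 ∨ LP ω R ∈ pth ω R := by
  rcases (pth ω R).eq_empty_or_nonempty with h | h
  · left; simp [LP, h]
  · exact Or.inr (Nat.sSup_mem h (pth_bdd hR))

lemma LC_le_LP (hR : R.Finite) : LC ω R ≤ LP ω R + 1 := by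
  rcases LC_spec (ω := ω) hR with h0 | ⟨v, w, h1, h2, h3⟩
  · omega
  · have := h1.three_le_length
    obtain ⟨P, k1, k2, k3⟩ := long_arc_aux h1 (s := 0) (t := 1) one_pos (by omega)
    have := le_LP hR k1 fun z hz => h2 z (k2 z hz)
    omega

/-- Hoeffding's inequality for functions of disjoint sets of edges -/
lemma hoeff_aux {ι : Type} {E : ι → Set V} {X : ι → (V → Prop) → ℝ} (hE : ∀ i, (E i).Finite)
    (hX : ∀ i, Loc (E i) (X i)) (hb : ∀ i ω, X i ω ∈ Icc (0 : ℝ) 1) (s : Finset ι)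
    (hd : ∀ i ∈ s, ∀ j ∈ s, i ≠ j → Disjoint (E i) (E j)) :
    HasSubgaussianMGF (fun ω => ∑ i ∈ s, (X i ω - ∫ ω, X i ω ∂PP V p)) (s.card / 4) (PP V p) := by
  classical
  induction s using Finset.induction_on with
  | empty => simp
  | insert a s ha ih =>
    have h1 := hasSubgaussianMGF_of_mem_Icc (μ := PP V p) ((hX a).measurable (hE a)).aemeasurable
      (ae_of_all _ (hb a))
    have h2 := ih fun i hi j hj => hd i (Finset.mem_insert_of_mem hi) j (Finset.mem_insert_of_mem hj)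
    have l1 : Loc (E a) fun ω => X a ω - ∫ ω, X a ω ∂PP V p := fun ω ω' h => by
      simp only [hX a ω ω' h]
    have l2 : Loc (⋃ i ∈ s, E i) fun ω => ∑ i ∈ s, (X i ω - ∫ ω, X i ω ∂PP V p) :=
      fun ω ω' h => Finset.sum_congr rfl fun i hi => by
        rw [hX i ω ω' fun e he => h e (mem_biUnion (Finset.mem_coe.mpr hi) he)]
    have h3 := h1.add_of_indepFun h2 (l1.indep l2 (hE a) (s.finite_toSet.biUnion fun i _ => hE i)
      (disjoint_iUnion₂_right.mpr fun i hi => hd a (Finset.mem_insert_self _ _) i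
        (Finset.mem_insert_of_mem hi) fun h => ha (h ▸ hi)))
    simp only [Finset.sum_insert ha, Finset.card_insert_of_notMem ha]
    convert h3 using 1
    simp only [sub_zero, nnnorm_one]
    push_cast
    ring

lemma hoeff {ι : Type} {E : ι → Set V} {X : ι → (V → Prop) → ℝ} (hE : ∀ i, (E i).Finite)
    (hX : ∀ i, Loc (E i) (X i)) (hb : ∀ i ω, X i ω ∈ Icc (0 : ℝ) 1) {s : Finset ι}
    (hd : ∀ i ∈ s, ∀ j ∈ s, i ≠ j → Disjoint (E i) (E j)) {b δ : ℝ} (hδ : 0 ≤ δ)
    (hm : ∀ i ∈ s, ∫ ω, X i ω ∂PP V p ≤ b) :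
    pr p {ω | s.card * (b + δ) ≤ ∑ i ∈ s, X i ω} ≤ Real.exp (-2 * δ ^ 2 * s.card) := by
  have h := (hoeff_aux (p := p) hE hX hb s hd).measure_ge_le (ε := s.card * δ) (by positivity)
  refine (pr_mono fun ω hω => ?_).trans (h.trans (le_of_eq ?_))
  · have := Finset.sum_le_card_nsmul _ _ _ hm
    rw [nsmul_eq_mul] at this
    simp only [mem_ofPred_eq, Finset.sum_sub_distrib] at hω ⊢
    linarith
  · congr 1
    rcases s.card.eq_zero_or_pos with h0 | h0
    · simp [h0]
    · have : (0 : ℝ) < s.card := by exact_mod_cast h0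
      push_cast
      field_simp
      ring

/-- the normalised bound for one cell -/
noncomputable def X0 (N W : ℕ) (ω : V → Prop) : ℝ :=
  open Classical in
  if ω ∈ Small N W then LC ω (rect (-N) (N + 1) (-N) (N + 1)) / (2 * N + 2 : ℕ) ^ 2 else 1

lemma X0_eq (N : ℕ) (ω : V → Prop) : (LC ω (rect (-N) (N + 1) (-N) (N + 1)) : ℝ) /
    (2 * N + 2 : ℕ) ^ 2 = 1 - Df (2 * N + 2) (1 + (-N - 1)) (1 + (-N - 1)) ω := by
  rw [Df, show (1 : ℤ) + (-N - 1) + (2 * N + 2 : ℕ) - 1 = N + 1 by omega,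
    show (1 : ℤ) + (-N - 1) = -N by omega]
  ring

lemma X0_mem (N W : ℕ) (ω : V → Prop) : X0 N W ω ∈ Icc (0 : ℝ) 1 := by
  unfold X0
  split_ifs
  · have := Df_mem (2 * N + 2) (1 + (-N - 1)) (1 + (-N - 1)) ω
    rw [X0_eq]
    exact ⟨by linarith [this.2], by linarith [this.1]⟩
  · exact ⟨zero_le_one, le_rfl⟩

lemma dep_Small (N : ℤ) (W : ℕ) : Dep (Ed (rect (-N) (N + 1) (-N) (N + 1))) (Small N W) := by
  intro ω ω' h hω
  have : eta N ω' = eta N ω := by
    funext e
    refine propext (and_congr_left ?_)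
    rintro ⟨a, b, k, rfl, ha, hb⟩
    refine not_congr (h _ ?_).symm
    simp only [lv] at ha hb
    rcases k with ⟨k1, k2 | k2⟩ | ⟨k1, k2 | k2⟩
    · refine ⟨a, ?_, a + (1, 0), ?_, ?_, ?_⟩ <;> simp [rect, adj, Prod.ext_iff] <;> omega
    · refine ⟨b, ?_, b + (1, 0), ?_, ?_, ?_⟩ <;> simp [rect, adj, Prod.ext_iff] <;> omega
    · refine ⟨a, ?_, a + (0, 1), ?_, ?_, ?_⟩ <;> simp [rect, adj, Prod.ext_iff] <;> omega
    · refine ⟨b, ?_, b + (0, 1), ?_, ?_, ?_⟩ <;> simp [rect, adj, Prod.ext_iff] <;> omega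
  intro a b k
  exact hω a b (this ▸ k)

lemma X0_loc (N W : ℕ) : Loc (Ed (rect (-N) (N + 1) (-N) (N + 1))) (X0 N W) := fun ω ω' h => by
  unfold X0
  rw [LC_congr (rect_finite _ _ _ _) h, propext ((dep_Small N W).iff h)]

lemma pr_not_small (hp0 : 0 ≤ p) (hp1 : p ≤ 1) (N W : ℕ) :
    pr p (Small N W)ᶜ ≤ (2 * N + 1) ^ 2 * θ (1 - p) (W + 1 : ℕ) := by
  have h1 : pr p (Small N W)ᶜ ≤ ∑ a ∈ Finset.Icc (-N : ℤ) N ×ˢ Finset.Icc (-N : ℤ) N,
      pr p (dual ⁻¹' Arm a (W + 1 : ℕ)) := by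
    refine pr_le_sum _ _ fun ω hω => ?_
    simp only [Small, mem_compl_iff, mem_ofPred_eq, not_forall, not_le] at hω
    obtain ⟨a, b, k, hk⟩ := hω
    have h2 : a = b ∨ lv a ≤ N := by
      clear hk
      induction k with
      | refl => exact Or.inl rfl
      | tail _ k1 k2 _ ih => exact Or.inr (ih.elim (fun h => h ▸ ((eta_iff k1).mp k2).2.1) id)
    have h3 : lv a ≤ N := h2.resolve_left fun h => by subst h; omega
    refine ⟨a, ?_, ?_⟩
    · simp only [lv] at h3
      simp only [Finset.mem_product, Finset.mem_Icc]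
      omega
    · have := mem_arm (n := (W + 1 : ℕ)) (by omega) (k.mono' (ω' := dual ω) fun e he => he.1) (by
        rw [mem_box]; simp only [lv] at hk; omega)
      rwa [univ_inter] at this
  refine h1.trans ((Finset.sum_le_card_nsmul _ _ (θ (1 - p) (W + 1 : ℕ)) fun a _ => ?_).trans
    (le_of_eq ?_))
  · exact (pr_dual hp0 hp1 (measurableSet_Cr (box_finite _ _) _ _)).trans_le (pr_arm_le _ _)
  · rw [nsmul_eq_mul, Finset.card_product, Int.card_Icc,
      show ((N : ℤ) + 1 - -N).toNat = 2 * N + 1 by omega]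
    push_cast
    ring

lemma int_X0 (hp0 : 0 ≤ p) (hp1 : p ≤ 1) (N W : ℕ) : ∫ ω, X0 N W ω ∂PP V p ≤
    1 - bb p (2 * N + 2) + (2 * N + 1) ^ 2 * θ (1 - p) (W + 1 : ℕ) := by
  have hm := ((dep_Small N W).measurableSet (Ed_finite (rect_finite _ _ _ _))).compl
  have i1 : Integrable (fun ω => 1 - Df (2 * N + 2) (1 + (-N - 1)) (1 + (-N - 1)) ω) (PP V p) :=
    (integrable_const _).sub (Df_int _ _ _)
  have i2 : Integrable ((Small N W)ᶜ.indicator (1 : (V → Prop) → ℝ)) (PP V p) :=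
    (integrable_const 1).indicator hm
  have h := integral_mono_of_nonneg (μ := PP V p) (f := X0 N W) (ae_of_all _ fun ω => (X0_mem _ _ ω).1)
    (i1.add i2) (ae_of_all _ fun ω => by
      by_cases h : ω ∈ Small N W
      · rw [Pi.add_apply, indicator_of_notMem (not_not.mpr h), add_zero, X0, if_pos h, X0_eq]
      · rw [Pi.add_apply, indicator_of_mem h, X0, if_neg h, Pi.one_apply]
        linarith [(Df_mem (2 * N + 2) (1 + (-N - 1)) (1 + (-N - 1)) ω).2])
  simp only [Pi.add_apply] at h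
  rw [integral_add i1 i2, integral_sub (integrable_const _) (Df_int _ _ _), int_Df,
    integral_indicator_one hm, integral_const] at h
  simp only [probReal_univ, smul_eq_mul, one_mul] at h
  linarith [pr_not_small hp0 hp1 N W, show (PP V p).real (Small N W)ᶜ = pr p (Small N W)ᶜ from rfl]

/-- the configuration seen from `o` -/
def sh (o : V) (ω : V → Prop) : V → Prop := fun e => ω (e + (o + o))

lemma int_sh (N W : ℕ) (o : V) : ∫ ω, X0 N W (sh o ω) ∂PP V p = ∫ ω, X0 N W ω ∂PP V p := by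
  have h : (PP V p).map (sh o) = PP V p :=
    Measure.map_infinitePi_infinitePi_of_inj (add_left_injective _)
  conv_rhs => rw [← h]
  rw [integral_map (Measurable.aemeasurable (by unfold sh; fun_prop))
    ((X0_loc N W).measurable (Ed_finite (rect_finite _ _ _ _))).aestronglyMeasurable]

lemma sh_loc (N W : ℕ) (o : V) : Loc (Ed (rect (o.1 - N) (o.1 + N + 1) (o.2 - N) (o.2 + N + 1)))
    fun ω => X0 N W (sh o ω) := fun ω ω' h => X0_loc N W _ _ (by
  rintro _ ⟨a, ha, b, hb, k, rfl⟩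
  refine h _ ⟨a + o, ?_, b + o, ?_, ?_, by abel⟩
  · simp only [rect, mem_ofPred_eq, Prod.fst_add, Prod.snd_add] at *; omega
  · simp only [rect, mem_ofPred_eq, Prod.fst_add, Prod.snd_add] at *; omega
  · unfold adj at *; simp only [Prod.fst_add, Prod.snd_add]; omega)

/-- admissible parameters -/
def Par (N W r T : ℕ) : Prop :=
  4 * (2 * (r + 1) + 1) < T * T ∧ 4 * (2 * (r + 1 + T * (3 * W + 4) + 1) + 1) < 2 ^ (T + 1) ∧
    r + 2 * W + 3 + T * (4 * W + 5) < N

/-- the middle of the cell with centre `o` -/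
noncomputable def mid (o : V) (r : ℕ) : Finset V :=
  Finset.Ioo (o.1 - r) (o.1 + r) ×ˢ Finset.Ioo (o.2 - r) (o.2 + r)

lemma card_mid (o : V) (r : ℕ) : (mid o r).card = (2 * r - 1) ^ 2 := by
  rw [mid, Finset.card_product, Int.card_Ioo, Int.card_Ioo, sq]
  congr 1 <;> omega

lemma cell_le {N W r T : ℕ} (h : Par N W r T) {P : (G ω).Walk u v} (hP : P.IsPath) (o : V) :
    (((P.support.toFinset ∩ mid o r).card : ℕ) : ℝ) ≤ (2 * N + 2 : ℕ) ^ 2 * (X0 N W (sh o ω) +
      (if lv (u - o) ≤ N then 1 else 0) + if lv (v - o) ≤ N then 1 else 0) := by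
  have h0 : (((P.support.toFinset ∩ mid o r).card : ℕ) : ℝ) ≤ (2 * N + 2 : ℕ) ^ 2 := by
    have h1 := Finset.card_le_card (Finset.inter_subset_right (s₁ := P.support.toFinset)
      (s₂ := mid o r))
    rw [card_mid] at h1
    have h2 : (2 * r - 1) ^ 2 ≤ (2 * N + 2) ^ 2 :=
      Nat.pow_le_pow_left (by have := h.2.2; omega) _
    exact_mod_cast h1.trans h2
  have hX := (X0_mem N W (sh o ω)).1
  have hm : (0 : ℝ) < (2 * N + 2 : ℕ) ^ 2 := by positivity
  split_ifs with hu hv hv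
  · nlinarith
  · nlinarith
  · nlinarith
  rw [add_zero, add_zero, X0]
  split_ifs with hs
  · rw [mul_div_cancel₀ _ hm.ne']
    let φ : G ω →g G (sh o ω) := ⟨fun z => z - o, fun {a b} k => ⟨by
      have := k.1
      unfold adj at *; simp only [Prod.fst_sub, Prod.snd_sub]; omega, by
      rw [sh, show a - o + (b - o) + (o + o) = a + b by abel]; exact k.2⟩⟩
    have hi : Function.Injective fun z : V => z - o := sub_left_injective
    have := cell_bound hs (P := P.map φ) (Walk.IsPath.map hi hP) (not_le.mp hu)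
      (not_le.mp hv) h.1 h.2.1 (by exact_mod_cast h.2.2)
      ((P.support.toFinset ∩ mid o r).image fun z => z - o) fun x hx => by
        obtain ⟨z, hz, rfl⟩ := Finset.mem_image.mp hx
        rw [Finset.mem_inter, List.mem_toFinset] at hz
        refine ⟨by rw [Walk.support_map]; exact List.mem_map_of_mem hz.1, ?_⟩
        have := hz.2
        simp only [mid, Finset.mem_product, Finset.mem_Ioo] at this
        simp only [lv, Prod.fst_sub, Prod.snd_sub]
        omega
    rw [Finset.card_image_of_injective _ hi] at this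
    exact_mod_cast this
  · rwa [mul_one]

/-- the centre of a cell -/
def ctr (N : ℕ) (q : ℕ × ℕ) : V := (1 + q.1 * (2 * N + 2 : ℕ) + N, 1 + q.2 * (2 * N + 2 : ℕ) + N)

lemma ctr_sep {N : ℕ} {q q' : ℕ × ℕ} (h : q ≠ q') :
    (ctr N q).1 + (2 * N + 2) ≤ (ctr N q').1 ∨ (ctr N q').1 + (2 * N + 2) ≤ (ctr N q).1 ∨
      (ctr N q).2 + (2 * N + 2) ≤ (ctr N q').2 ∨ (ctr N q').2 + (2 * N + 2) ≤ (ctr N q).2 := by
  obtain ⟨i, j⟩ := q
  obtain ⟨k, l⟩ := q'
  simp only [ctr]
  rcases lt_trichotomy i k with c | rfl | c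
  · have := sep c (le_refl (2 * N + 2)); omega
  · rcases lt_trichotomy j l with c | rfl | c
    · have := sep c (le_refl (2 * N + 2)); omega
    · exact (h rfl).elim
    · have := sep c (le_refl (2 * N + 2)); omega
  · have := sep c (le_refl (2 * N + 2)); omega

lemma near_le (N : ℕ) (u : V) (s : Finset (ℕ × ℕ)) :
    ∑ q ∈ s, (if lv (u - ctr N q) ≤ N then (1 : ℝ) else 0) ≤ 1 := by
  rw [Finset.sum_boole]
  refine Nat.cast_le_one.mpr (Finset.card_le_one.mpr fun a ha b hb => ?_)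
  by_contra c
  have h1 := (Finset.mem_filter.mp ha).2
  have h2 := (Finset.mem_filter.mp hb).2
  have := ctr_sep (N := N) c
  simp only [lv, Prod.fst_sub, Prod.snd_sub] at h1 h2
  omega

theorem LP_le {N W r T n K : ℕ} (h : Par N W r T) (hK : K * (2 * N + 2) ≤ n) (ω : V → Prop) :
    (LP ω (rect 1 n 1 n) : ℝ) + K ^ 2 * (2 * r - 1 : ℕ) ^ 2 ≤ n ^ 2 + (2 * N + 2 : ℕ) ^ 2 *
      (∑ q ∈ Finset.range K ×ˢ Finset.range K, X0 N W (sh (ctr N q) ω) + 2) := by
  have key : ∀ {u v : V} (P : (G ω).Walk u v), P.IsPath → ∀ S ⊆ P.support.toFinset,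
      (∀ z ∈ S, z ∈ rect 1 n 1 n) → (S.card : ℝ) + K ^ 2 * (2 * r - 1 : ℕ) ^ 2 ≤
      n ^ 2 + (2 * N + 2 : ℕ) ^ 2 *
        (∑ q ∈ Finset.range K ×ˢ Finset.range K, X0 N W (sh (ctr N q) ω) + 2) := by
    intro u v P hP S hS hR
    have hr := h.2.2
    set Q := Finset.range K ×ˢ Finset.range K with hQ
    set U := Q.biUnion fun q => mid (ctr N q) r with hU
    have c1 : U.card = K ^ 2 * (2 * r - 1) ^ 2 := by
      rw [Finset.card_biUnion]
      · simp only [card_mid, Finset.sum_const, hQ, Finset.card_product, Finset.card_range,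
          smul_eq_mul, sq K]
      · intro q _ q' _ c
        have := ctr_sep (N := N) c
        refine Finset.disjoint_left.mpr fun z h1 h2 => ?_
        simp only [mid, Finset.mem_product, Finset.mem_Ioo] at h1 h2
        omega
    have c2 : (S ∪ U).card ≤ n ^ 2 := by
      refine (Finset.card_le_card (t := Finset.Icc (1 : ℤ) n ×ˢ Finset.Icc (1 : ℤ) n)
        fun z hz => ?_).trans (le_of_eq (by simp [sq]))
      rw [← Finset.mem_coe, ← rect_eq]
      rcases Finset.mem_union.mp hz with hz | hz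
      · exact hR z hz
      · obtain ⟨q, h1, h2⟩ := Finset.mem_biUnion.mp hz
        simp only [hQ, Finset.mem_product, Finset.mem_range] at h1
        have a1 := sep h1.1 (le_refl (2 * N + 2))
        have a2 := sep h1.2 (le_refl (2 * N + 2))
        have a3 : (K : ℤ) * (2 * N + 2 : ℕ) ≤ n := by exact_mod_cast hK
        have a4 : (0 : ℤ) ≤ q.1 * (2 * N + 2 : ℕ) := by positivity
        have a5 : (0 : ℤ) ≤ q.2 * (2 * N + 2 : ℕ) := by positivity
        simp only [mid, ctr, Finset.mem_product, Finset.mem_Ioo] at h2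
        simp only [rect, mem_ofPred_eq]
        omega
    have c3 : (S ∩ U).card ≤ ∑ q ∈ Q, (P.support.toFinset ∩ mid (ctr N q) r).card := by
      refine le_trans (Finset.card_le_card fun z hz => ?_) Finset.card_biUnion_le
      obtain ⟨h1, h2⟩ := Finset.mem_inter.mp hz
      obtain ⟨q, h3, h4⟩ := Finset.mem_biUnion.mp h2
      exact Finset.mem_biUnion.mpr ⟨q, h3, Finset.mem_inter.mpr ⟨hS h1, h4⟩⟩
    have c4 := Finset.card_union_add_card_inter S U
    have c5 : S.card + K ^ 2 * (2 * r - 1) ^ 2 ≤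
        n ^ 2 + ∑ q ∈ Q, (P.support.toFinset ∩ mid (ctr N q) r).card := by omega
    have c6 := Finset.sum_le_sum fun q (_ : q ∈ Q) => cell_le h hP (ctr N q)
    rw [← Finset.mul_sum, Finset.sum_add_distrib, Finset.sum_add_distrib] at c6
    have c7 := mul_le_mul_of_nonneg_left (add_le_add (near_le N u Q) (near_le N v Q))
      (show (0 : ℝ) ≤ (2 * N + 2 : ℕ) ^ 2 by positivity)
    have c8 : (S.card : ℝ) + K ^ 2 * (2 * r - 1 : ℕ) ^ 2 ≤
        n ^ 2 + ∑ q ∈ Q, ((P.support.toFinset ∩ mid (ctr N q) r).card : ℝ) := by exact_mod_cast c5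
    linarith
  rcases LP_spec (ω := ω) (rect_finite 1 n 1 n) with h0 | ⟨u, v, P, h1, h2, h3⟩
  · simpa [h0] using key (Walk.nil (u := 0)) Walk.IsPath.nil ∅ (Finset.empty_subset _) (by simp)
  · have := key P h1 _ subset_rfl fun z hz => h2 z (List.mem_toFinset.mp hz)
    rw [card_support h1, h3] at this
    push_cast at this ⊢
    linarith

end Pool.Agent.Lib.LP93
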