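import Pool.Agent.Lib.MP_db3ceb_pr.Main

/-! Chains modulo two on the square lattice, potentials and planar separation lemmas. -/

open Set

namespace Pool.Agent.Lib.LP93

open Pool.Agent.Lib.helper98 Pool.Agent.Lib.MP_db3ceb_pr

/-- the field with two elements -/
abbrev F2 : Type := ZMod 2

/-- free connection inside a region -/
abbrev Cn (R : Set V) (u v : V) : Prop := Conn (fun _ => True) R u v

/-- the sup norm -/
def lv (v : V) : ℤ := max (max v.1 (-v.1)) (max v.2 (-v.2))

lemma f2_add_self (a : F2) : a + a = 0 := CharTwo.add_self_eq_zero a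

lemma f2_cases (a : F2) : a = 0 ∨ a = 1 := by revert a; decide

lemma f2_eq_of_add {a b : F2} (h : a + b = 0) : a = b := by revert a b; decide

lemma lv_nonneg (v : V) : 0 ≤ lv v := by unfold lv; omega

lemma lv_adj {a b : V} (h : adj a b) : lv b ≤ lv a + 1 := by unfold lv adj at *; omega

lemma Cn.step {R : Set V} {a b : V} (ha : a ∈ R) (hb : b ∈ R) (h : adj a b) : Cn R a b :=
  Conn.single ha hb h trivial

lemma Conn.free {ω : V → Prop} {R : Set V} {a b : V} (h : Conn ω R a b) : Cn R a b :=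
  h.mono' fun _ _ => trivial

lemma exists_out (g : V) : ∃ g', adj g g' ∧ lv g' = lv g + 1 := by
  obtain ⟨x, y⟩ := g
  by_cases h1 : lv (x, y) = x
  · exact ⟨(x + 1, y), by simp [adj], by simp only [lv] at *; omega⟩
  by_cases h2 : lv (x, y) = -x
  · exact ⟨(x - 1, y), by simp [adj], by simp only [lv] at *; omega⟩
  by_cases h3 : lv (x, y) = y
  · exact ⟨(x, y + 1), by simp [adj], by simp only [lv] at *; omega⟩
  · exact ⟨(x, y - 1), by simp [adj], by simp only [lv] at *; omega⟩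

lemma radial (g : V) (k : ℕ) : ∃ y, lv y = lv g + k ∧ Cn (insert g {z | lv g < lv z}) g y := by
  induction k with
  | zero => exact ⟨g, by simp, Conn.refl (mem_insert _ _)⟩
  | succ k ih =>
    obtain ⟨y, h1, h2⟩ := ih
    obtain ⟨y', h3, h4⟩ := exists_out y
    refine ⟨y', by push_cast; omega, h2.tail h3 trivial (Or.inr ?_)⟩
    change lv g < lv y'
    omega

lemma lv_finite (M : ℤ) : {g : V | lv g ≤ M}.Finite :=
  (rect_finite (-M) M (-M) M).subset fun g hg => by
    simp only [lv, rect, mem_ofPred_eq] at *; omega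

lemma cn_rect {a b c d : ℤ} {u v : V} (hu : u ∈ rect a b c d) (hv : v ∈ rect a b c d) :
    Cn (rect a b c d) u v :=
  (conn_rect (fun _ _ _ _ _ => trivial) hu).symm.trans (conn_rect (fun _ _ _ _ _ => trivial) hv)

lemma cn_inner {ρ : ℤ} {u v : V} (hu : lv u ≤ ρ) (hv : lv v ≤ ρ) : Cn {g | lv g ≤ ρ} u v :=
  (cn_rect (a := -ρ) (b := ρ) (c := -ρ) (d := ρ) (by simp only [lv, rect, mem_ofPred_eq] at *; omega)
    (by simp only [lv, rect, mem_ofPred_eq] at *; omega)).mono fun g hg => by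
      simp only [lv, rect, mem_ofPred_eq] at *; omega

lemma cn_corner {ρ M : ℤ} {u : V} (hu : ρ ≤ lv u) (hM : lv u ≤ M) : Cn {g | ρ ≤ lv g} u (M, M) := by
  obtain ⟨x, y⟩ := u
  have key : ∀ a b c d : ℤ, ∀ p q : V, p ∈ rect a b c d → q ∈ rect a b c d →
      (ρ ≤ a ∨ ρ ≤ -b ∨ ρ ≤ c ∨ ρ ≤ -d) → Cn {g | ρ ≤ lv g} p q := fun a b c d p q hp hq h =>
    (cn_rect hp hq).mono fun g hg => by simp only [lv, rect, mem_ofPred_eq] at *; omega
  simp only [lv] at hu hM
  by_cases h1 : ρ ≤ x ∨ ρ ≤ -x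
  · exact (key x x y M (x, y) (x, M) (by simp [rect]; omega) (by simp [rect]; omega)
      (by omega)).trans (key x M M M (x, M) (M, M) (by simp [rect]; omega) (by simp [rect]; omega)
        (by omega))
  · exact (key x M y y (x, y) (M, y) (by simp [rect]; omega) (by simp [rect]; omega)
      (by omega)).trans (key M M y M (M, y) (M, M) (by simp [rect]; omega) (by simp [rect]; omega)
        (by omega))

lemma cn_outer {ρ : ℤ} {u v : V} (hu : ρ ≤ lv u) (hv : ρ ≤ lv v) : Cn {g | ρ ≤ lv g} u v :=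
  (cn_corner hu (le_max_left _ (lv v))).trans (cn_corner hv (le_max_right _ _)).symm

/-- escape to infinity off `H` -/
def Esc (H : Set V) (g : V) : Prop := ∀ M : ℤ, ∃ y, M ≤ lv y ∧ Cn Hᶜ g y

lemma Esc.notMem {H : Set V} {g : V} (h : Esc H g) : g ∉ H :=
  let ⟨_, _, k⟩ := h 0; k.left_mem

lemma Esc.anti {H H' : Set V} {g : V} (h : Esc H g) (hH : H' ⊆ H) : Esc H' g := fun M =>
  let ⟨y, h1, h2⟩ := h M; ⟨y, h1, h2.mono (compl_subset_compl.mpr hH)⟩

lemma Esc.of_cn {H R : Set V} {g g' : V} (h : Esc H g') (k : Cn R g g') (hR : ∀ z ∈ R, z ∉ H) :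
    Esc H g := fun M =>
  let ⟨y, h1, h2⟩ := h M; ⟨y, h1, (k.mono hR).trans h2⟩

lemma Esc.of_adj {H : Set V} {g g' : V} (h : Esc H g') (k : adj g g') (hg : g ∉ H) : Esc H g :=
  h.of_cn (Cn.step (R := Hᶜ) hg h.notMem k) fun _ h => h

lemma esc_top {H : Set V} {g : V} (hg : g ∉ H) (h : ∀ z ∈ H, lv z ≤ lv g) : Esc H g := by
  intro M
  obtain ⟨y, h1, h2⟩ := radial g (M - lv g).toNat
  refine ⟨y, by omega, h2.mono ?_⟩
  rintro z (rfl | hz)
  · exact hg
  · intro hz'
    have := h z hz'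
    change lv g < lv z at hz
    omega

/-- the escaping set is connected to infinity inside itself -/
lemma Esc.self {H : Set V} {g : V} (h : Esc H g) : Esc {z | Esc H z}ᶜ g := by
  intro M
  obtain ⟨y, h1, h2⟩ := h M
  refine ⟨y, h1, h2.reach.mono fun z hz => ?_⟩
  rw [compl_compl]
  exact h.of_cn (Conn.symm hz) fun _ h => h

lemma Esc.cn {H : Set V} {N : ℤ} (hH : ∀ z ∈ H, lv z < N) {g g' : V} (h : Esc H g) (h' : Esc H g') :
    Cn Hᶜ g g' := by
  obtain ⟨y, a1, a2⟩ := h N
  obtain ⟨y', b1, b2⟩ := h' N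
  exact (a2.trans ((cn_outer a1 b1).mono fun z hz hz' => by
    have := hH z hz'; change N ≤ lv z at hz; omega)).trans b2.symm

/-- boundary of a chain; the edge between `a` and `b` has index `a + b` -/
def bd (z : V → F2) (g : V) : F2 :=
  z (2 * g.1 + 1, 2 * g.2) + z (2 * g.1 - 1, 2 * g.2) + z (2 * g.1, 2 * g.2 + 1) +
    z (2 * g.1, 2 * g.2 - 1)

/-- the chain only uses edges inside `H` -/
def Supp (z : V → F2) (H : Set V) : Prop := ∀ a b, adj a b → z (a + b) ≠ 0 → a ∈ H

/-- bounded chain -/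
def Bnd (z : V → F2) : Prop := ∃ M : ℤ, Supp z {g | lv g < M}

/-- `s` is the winding parity of `z`; `s a` refers to the face with lower left corner `a` -/
def Pot (z s : V → F2) : Prop :=
  (∀ a b, adj a b → s a + s b = z (a + b + (1, 1))) ∧ ∃ M : ℤ, ∀ g, M ≤ lv g → s g = 0

/-- point mass -/
def dl (x g : V) : F2 := if g = x then 1 else 0

variable {z z' s s' : V → F2} {H H' : Set V}

lemma Supp.right (h : Supp z H) {a b : V} (k : adj a b) (hz : z (a + b) ≠ 0) : b ∈ H :=
  h b a k.symm (by rwa [add_comm])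

lemma Supp.mono (h : Supp z H) (hH : H ⊆ H') : Supp z H' := fun a b k hz => hH (h a b k hz)

lemma Supp.add (h : Supp z H) (h' : Supp z' H) : Supp (z + z') H := by
  intro a b k hz
  by_cases h1 : z (a + b) = 0
  · exact h' a b k fun h2 => hz (by simp [h1, h2])
  · exact h a b k h1

lemma Supp.zero_of (h : Supp z H) {a b : V} (k : adj a b) (ha : a ∉ H) : z (a + b) = 0 := by
  by_contra hz; exact ha (h a b k hz)

lemma Supp.zero_of' (h : Supp z H) {a b : V} (k : adj a b) (hb : b ∉ H) : z (a + b) = 0 := by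
  by_contra hz; exact hb (h.right k hz)

lemma Bnd.add (h : Bnd z) (h' : Bnd z') : Bnd (z + z') := by
  obtain ⟨M, h⟩ := h
  obtain ⟨M', h'⟩ := h'
  exact ⟨max M M', (h.mono fun g (hg : lv g < M) => lt_max_of_lt_left hg).add
    (h'.mono fun g (hg : lv g < M') => lt_max_of_lt_right hg)⟩

lemma bd_add (z z' : V → F2) (g : V) : bd (z + z') g = bd z g + bd z' g := by
  simp only [bd, Pi.add_apply]; ring

lemma Pot.add (h : Pot z s) (h' : Pot z' s') : Pot (z + z') (s + s') := by
  obtain ⟨h1, M, h2⟩ := h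
  obtain ⟨k1, M', k2⟩ := h'
  refine ⟨fun a b hab => ?_, max M M', fun g hg => ?_⟩
  · simp only [Pi.add_apply]; rw [← h1 a b hab, ← k1 a b hab]; ring
  · simp [h2 g (le_of_max_le_left hg), k2 g (le_of_max_le_right hg)]

lemma bd_eq (z : V → F2) (g : V) : bd z g = z (g + (g + (1, 0))) + z (g + (g + (-1, 0))) +
    z (g + (g + (0, 1))) + z (g + (g + (0, -1))) := by
  unfold bd
  congr 1
  · congr 1
    · congr 1 <;> congr 1 <;> ext <;> simp <;> ring
    · congr 1; ext <;> simp <;> ring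
  · congr 1; ext <;> simp <;> ring

lemma adj_e1 (g : V) : adj g (g + (1, 0)) := by simp [adj]
lemma adj_e2 (g : V) : adj g (g + (-1, 0)) := by simp [adj]
lemma adj_e3 (g : V) : adj g (g + (0, 1)) := by simp [adj]
lemma adj_e4 (g : V) : adj g (g + (0, -1)) := by simp [adj]

lemma adj_cases {a b : V} (h : adj a b) :
    b = a + (1, 0) ∨ b = a + (-1, 0) ∨ b = a + (0, 1) ∨ b = a + (0, -1) := by
  simp only [Prod.ext_iff, Prod.fst_add, Prod.snd_add]; unfold adj at h; omega

lemma bd_congr {g : V} (h : ∀ b, adj g b → z (g + b) = z' (g + b)) : bd z g = bd z' g := by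
  rw [bd_eq, bd_eq, h _ (adj_e1 g), h _ (adj_e2 g), h _ (adj_e3 g), h _ (adj_e4 g)]

lemma bd_zero_of {g : V} (h : ∀ b, adj g b → z (g + b) = 0) : bd z g = 0 := by
  rw [bd_eq, h _ (adj_e1 g), h _ (adj_e2 g), h _ (adj_e3 g), h _ (adj_e4 g)]; simp

lemma Supp.bd_zero (h : Supp z H) {g : V} (hg : g ∉ H) : bd z g = 0 :=
  bd_zero_of fun _ hb => h.zero_of hb hg

lemma bd_one {g b : V} (hb : adj g b) (h : ∀ c, adj g c → c ≠ b → z (g + c) = 0) :
    bd z g = z (g + b) := by
  have n : ∀ u v : V, u ≠ v → g + u ≠ g + v := fun u v h h' => h (add_left_cancel h')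
  rw [bd_eq]
  rcases adj_cases hb with rfl | rfl | rfl | rfl
  · rw [h _ (adj_e2 g) (n _ _ (by decide)), h _ (adj_e3 g) (n _ _ (by decide)),
      h _ (adj_e4 g) (n _ _ (by decide))]; simp
  · rw [h _ (adj_e1 g) (n _ _ (by decide)), h _ (adj_e3 g) (n _ _ (by decide)),
      h _ (adj_e4 g) (n _ _ (by decide))]; simp
  · rw [h _ (adj_e1 g) (n _ _ (by decide)), h _ (adj_e2 g) (n _ _ (by decide)),
      h _ (adj_e4 g) (n _ _ (by decide))]; simp
  · rw [h _ (adj_e1 g) (n _ _ (by decide)), h _ (adj_e2 g) (n _ _ (by decide)),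
      h _ (adj_e3 g) (n _ _ (by decide))]; simp

lemma supp_dl {a b : V} (h : adj a b) : Supp (dl (a + b)) {a, b} := by
  intro c d k hz
  simp only [dl, ne_eq, ite_eq_right_iff, one_ne_zero, imp_false, not_not] at hz
  rcases adj_inj k h hz with ⟨rfl, -⟩ | ⟨rfl, -⟩ <;> simp

lemma bd_dl {a b : V} (h : adj a b) (g : V) : bd (dl (a + b)) g = dl a g + dl b g := by
  by_cases h1 : g = a
  · subst h1
    rw [bd_one h fun c _ hc => by simp [dl, hc]]
    simp [dl, h.ne]
  by_cases h2 : g = b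
  · subst h2
    rw [bd_one h.symm fun c _ hc => by
      simp only [dl, ite_eq_right_iff, one_ne_zero, imp_false]
      rw [add_comm a g]; simpa using hc]
    simp [dl, h1, add_comm]
  · rw [(supp_dl h).bd_zero (by simp [h1, h2])]
    simp [dl, h1, h2]

lemma bnd_dl {a b : V} (h : adj a b) : Bnd (dl (a + b)) :=
  ⟨max (lv a) (lv b) + 1, (supp_dl h).mono (by rintro g (rfl | rfl) <;> simp only [mem_ofPred_eq] <;> omega)⟩

lemma bnd_zero : Bnd 0 := ⟨0, fun _ _ _ h => (h rfl).elim⟩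

lemma exists_chain {R : Set V} {u v : V} (h : Cn R u v) :
    ∃ q, Bnd q ∧ Supp q R ∧ ∀ g, bd q g = dl u g + dl v g := by
  induction h with
  | refl h => exact ⟨0, bnd_zero, fun _ _ _ h => (h rfl).elim, fun g => by
      rw [f2_add_self]; simp [bd]⟩
  | @tail a b h0 h1 _ h3 ih =>
    obtain ⟨q, k1, k2, k3⟩ := ih
    refine ⟨q + dl (a + b), k1.add (bnd_dl h1), k2.add ((supp_dl h1).mono ?_), fun g => ?_⟩
    · rintro g (rfl | rfl)
      · exact h0.right_mem
      · exact h3
    · rw [bd_add, k3, bd_dl h1]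
      linear_combination f2_add_self (dl a g)

lemma tele (f : ℕ → F2) (m : ℕ) : ∑ i ∈ Finset.range m, (f (i + 1) + f i) = f m + f 0 := by
  induction m with
  | zero => simp [f2_add_self]
  | succ m ih => rw [Finset.sum_range_succ, ih]; linear_combination f2_add_self (f m)

lemma stokes (z : V → F2) (a : ℤ) (m : ℕ) :
    ∑ i ∈ Finset.range m, ∑ j ∈ Finset.range m, bd z (a + i + 1, a + j + 1) =
      ∑ j ∈ Finset.range m, (z (2 * (a + m) + 1, 2 * (a + j + 1)) + z (2 * a + 1, 2 * (a + j + 1))) +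
      ∑ i ∈ Finset.range m, (z (2 * (a + i + 1), 2 * (a + m) + 1) + z (2 * (a + i + 1), 2 * a + 1)) := by
  have e : ∀ i j : ℕ, bd z (a + i + 1, a + j + 1) =
      (z (2 * (a + (i + 1 : ℕ)) + 1, 2 * (a + j + 1)) + z (2 * (a + i) + 1, 2 * (a + j + 1))) +
      (z (2 * (a + i + 1), 2 * (a + (j + 1 : ℕ)) + 1) + z (2 * (a + i + 1), 2 * (a + j) + 1)) := by
    intro i j
    simp only [bd]
    push_cast
    rw [show 2 * (a + i + 1) - 1 = 2 * (a + i) + 1 by ring,
      show 2 * (a + j + 1) - 1 = 2 * (a + j) + 1 by ring, add_assoc a i 1, add_assoc a j 1]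
    ring
  simp only [e, Finset.sum_add_distrib (f := fun j : ℕ => _ + _) (g := fun j : ℕ => _ + _)]
  rw [Finset.sum_add_distrib, Finset.sum_comm]
  congr 1
  · refine Finset.sum_congr rfl fun j _ => ?_
    simpa using tele (fun i => z (2 * (a + i) + 1, 2 * (a + j + 1))) m
  · refine Finset.sum_congr rfl fun i _ => ?_
    simpa using tele (fun j => z (2 * (a + i + 1), 2 * (a + j) + 1)) m

lemma ring_sum {q t : V → F2} {ρ : ℤ} (hρ : 0 ≤ ρ)
    (h : ∀ a b, adj a b → lv a = ρ → lv b = ρ → q (a + b + (1, 1)) = t a + t b) :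
    ∑ i ∈ Finset.range (2 * ρ).toNat, ∑ j ∈ Finset.range (2 * ρ).toNat,
      bd q (-ρ + i + 1, -ρ + j + 1) = 0 := by
  set m := (2 * ρ).toNat with hm
  have hm' : (m : ℤ) = 2 * ρ := by omega
  rw [stokes]
  have v : ∀ x : ℤ, (x = ρ ∨ x = -ρ) → ∀ j ∈ Finset.range m, q (2 * x + 1, 2 * (-ρ + j + 1)) =
      t (x, -ρ + (j + 1 : ℕ)) + t (x, -ρ + j) := by
    intro x hx j hj
    have hj' := Finset.mem_range.mp hj
    rw [add_comm (t _), ← h (x, -ρ + j) (x, -ρ + (j + 1 : ℕ)) (by simp [adj]; omega)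
      (by simp only [lv]; omega) (by simp only [lv]; omega)]
    congr 1; ext <;> simp <;> ring
  have w : ∀ y : ℤ, (y = ρ ∨ y = -ρ) → ∀ i ∈ Finset.range m, q (2 * (-ρ + i + 1), 2 * y + 1) =
      t (-ρ + (i + 1 : ℕ), y) + t (-ρ + i, y) := by
    intro y hy i hi
    have hi' := Finset.mem_range.mp hi
    rw [add_comm (t _), ← h (-ρ + i, y) (-ρ + (i + 1 : ℕ), y) (by simp [adj]; omega)
      (by simp only [lv]; omega) (by simp only [lv]; omega)]
    congr 1; ext <;> simp <;> ring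
  have e : -ρ + m = ρ := by omega
  rw [e, Finset.sum_add_distrib, Finset.sum_add_distrib, Finset.sum_congr rfl (v ρ (Or.inl rfl)),
    Finset.sum_congr rfl (v (-ρ) (Or.inr rfl)), Finset.sum_congr rfl (w ρ (Or.inl rfl)),
    Finset.sum_congr rfl (w (-ρ) (Or.inr rfl)), tele (fun j => t (ρ, -ρ + j)),
    tele (fun j => t (-ρ, -ρ + j)), tele (fun i => t (-ρ + i, ρ)), tele (fun i => t (-ρ + i, -ρ)), e]
  simp only [Nat.cast_zero, add_zero]
  linear_combination f2_add_self (t (ρ, ρ)) + f2_add_self (t (ρ, -ρ)) + f2_add_self (t (-ρ, ρ)) +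
    f2_add_self (t (-ρ, -ρ))

lemma sum_dl_in {ρ : ℤ} {x : V} (hx : lv x < ρ) :
    ∑ i ∈ Finset.range (2 * ρ).toNat, ∑ j ∈ Finset.range (2 * ρ).toNat,
      dl x (-ρ + i + 1, -ρ + j + 1) = 1 := by
  simp only [lv] at hx
  rw [Finset.sum_eq_single (x.1 + ρ - 1).toNat, Finset.sum_eq_single (x.2 + ρ - 1).toNat]
  · rw [dl, if_pos]; ext <;> simp only <;> omega
  · intro j _ hj; rw [dl, if_neg]; intro h; have := congrArg Prod.snd h; simp only at this; omega
  · intro h; exact (h (Finset.mem_range.mpr (by omega))).elim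
  · intro i _ hi
    refine Finset.sum_eq_zero fun j _ => ?_
    rw [dl, if_neg]; intro h; have := congrArg Prod.fst h; simp only at this; omega
  · intro h; exact (h (Finset.mem_range.mpr (by omega))).elim

lemma sum_dl_out {ρ : ℤ} {x : V} (hx : ρ < lv x) :
    ∑ i ∈ Finset.range (2 * ρ).toNat, ∑ j ∈ Finset.range (2 * ρ).toNat,
      dl x (-ρ + i + 1, -ρ + j + 1) = 0 := by
  refine Finset.sum_eq_zero fun i hi => Finset.sum_eq_zero fun j hj => ?_
  have := Finset.mem_range.mp hi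
  have := Finset.mem_range.mp hj
  rw [dl, if_neg]; rintro rfl; simp only [lv] at hx; omega

/-- a chain from inside a ring to outside crosses it an odd number of times -/
lemma ring_lemma {q t : V → F2} {ρ : ℤ} {x y : V} (hq : ∀ g, bd q g = dl x g + dl y g)
    (hx : lv x < ρ) (hy : ρ < lv y)
    (h : ∀ a b, adj a b → lv a = ρ → lv b = ρ → q (a + b + (1, 1)) = t a + t b) : False := by
  have h1 := ring_sum (by have := lv_nonneg x; omega) h
  simp only [hq, Finset.sum_add_distrib] at h1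
  rw [sum_dl_in hx, sum_dl_out hy] at h1
  simp at h1

lemma partner {a b : V} (h : adj a b) :
    ∃ c d, adj c d ∧ c + d = a + b + (1, 1) ∧ (c = a ∨ c = b) := by
  rcases adj_cases h with rfl | rfl | rfl | rfl
  · exact ⟨a + (1, 0), a + (1, 1), by simp [adj], by ext <;> simp <;> ring, Or.inr rfl⟩
  · exact ⟨a, a + (0, 1), by simp [adj], by ext <;> simp <;> ring, Or.inl rfl⟩
  · exact ⟨a + (0, 1), a + (1, 1), by simp [adj], by ext <;> simp <;> ring, Or.inr rfl⟩
  · exact ⟨a, a + (1, 0), by simp [adj], by ext <;> simp <;> ring, Or.inl rfl⟩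

lemma Supp.partner_zero (h : Supp z H) {a b : V} (k : adj a b) (ha : a ∉ H) (hb : b ∉ H) :
    z (a + b + (1, 1)) = 0 := by
  obtain ⟨c, d, h1, h2, h3⟩ := partner k
  rw [← h2]
  exact h.zero_of h1 (by rcases h3 with rfl | rfl <;> assumption)

lemma no_single {q : V → F2} (hq : Bnd q) {x : V} {σ : F2} (h : ∀ g, bd q g = σ * dl x g) :
    σ = 0 := by
  obtain ⟨M, hM⟩ := hq
  have h1 := ring_sum (q := q) (t := 0) (ρ := max M (lv x + 1)) (by have := lv_nonneg x; omega)
    fun a b k ha hb => by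
      rw [hM.partner_zero k (by simp only [mem_ofPred_eq]; omega) (by simp only [mem_ofPred_eq]; omega)]
      simp
  simp only [h, ← Finset.mul_sum] at h1
  rwa [sum_dl_in (by omega), mul_one] at h1

theorem exists_pot (hz : Bnd z) (h : ∀ g, bd z g = 0) : ∃ s, Pot z s := by
  obtain ⟨M, hM⟩ := hz
  have z1 : ∀ x y : ℤ, M ≤ x ∨ M ≤ -x ∨ M ≤ y ∨ M ≤ -y → z (2 * x, 2 * y + 1) = 0 := by
    intro x y hxy
    have := hM.zero_of (adj_e3 (x, y)) (by simp only [lv, mem_ofPred_eq]; omega)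
    rw [← this]; congr 1; ext <;> simp <;> ring
  have z2 : ∀ x y : ℤ, M ≤ x ∨ M ≤ -x ∨ M ≤ y ∨ M ≤ -y → z (2 * x + 1, 2 * y) = 0 := by
    intro x y hxy
    have := hM.zero_of (adj_e1 (x, y)) (by simp only [lv, mem_ofPred_eq]; omega)
    rw [← this]; congr 1; ext <;> simp <;> ring
  let s : V → F2 := fun g => ∑ i ∈ Finset.range (M - g.1).toNat, z (2 * (g.1 + i + 1), 2 * g.2 + 1)
  have hh : ∀ x y : ℤ, s (x, y) + s (x + 1, y) = z (2 * (x + 1), 2 * y + 1) := by
    intro x y
    simp only [s]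
    by_cases hx : x < M
    · rw [show (M - x).toNat = (M - (x + 1)).toNat + 1 by omega, Finset.sum_range_succ']
      have e : ∀ i : ℕ, x + (i + 1 : ℕ) + 1 = x + 1 + i + 1 := fun i => by push_cast; ring
      simp only [e, Nat.cast_zero, add_zero]
      linear_combination f2_add_self (∑ i ∈ Finset.range (M - (x + 1)).toNat,
        z (2 * (x + 1 + i + 1), 2 * y + 1))
    · rw [show (M - x).toNat = 0 by omega, show (M - (x + 1)).toNat = 0 by omega,
        z1 _ _ (by omega)]
      simp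
  have hv : ∀ x y : ℤ, s (x, y) + s (x, y + 1) = z (2 * x + 1, 2 * (y + 1)) := by
    intro x y
    simp only [s]
    rw [← Finset.sum_add_distrib]
    have e : ∀ i ∈ Finset.range (M - x).toNat, z (2 * (x + i + 1), 2 * y + 1) +
        z (2 * (x + i + 1), 2 * (y + 1) + 1) =
        z (2 * (x + (i + 1 : ℕ)) + 1, 2 * (y + 1)) + z (2 * (x + i) + 1, 2 * (y + 1)) := by
      intro i _
      have := h (x + i + 1, y + 1)
      simp only [bd] at this
      rw [show 2 * (x + i + 1) - 1 = 2 * (x + i) + 1 by ring,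
        show 2 * (y + 1) - 1 = 2 * y + 1 by ring] at this
      push_cast
      rw [← add_assoc x]
      apply f2_eq_of_add
      linear_combination this
    rw [Finset.sum_congr rfl e, tele (fun i => z (2 * (x + i) + 1, 2 * (y + 1))),
      z2 (x + _) _ (by omega)]
    simp
  have far : ∀ x y : ℤ, M ≤ y ∨ M ≤ -y → s (x, y) = 0 := fun x y hy =>
    Finset.sum_eq_zero fun i _ => z1 _ _ (by omega)
  refine ⟨s, fun a b k => ?_, max M 0, fun g hg => ?_⟩
  · obtain ⟨x, y⟩ := a
    rcases adj_cases k with rfl | rfl | rfl | rfl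
    · rw [show ((x, y) + (1, 0) : V) = (x + 1, y) by simp, hh]
      congr 1; ext <;> simp <;> ring
    · have := hh (x - 1) y
      rw [add_comm, sub_add_cancel] at this
      rw [show ((x, y) + (-1, 0) : V) = (x - 1, y) by simp [sub_eq_add_neg], this]
      congr 1; ext <;> simp <;> ring
    · rw [show ((x, y) + (0, 1) : V) = (x, y + 1) by simp, hv]
      congr 1; ext <;> simp <;> ring
    · have := hv x (y - 1)
      rw [add_comm, sub_add_cancel] at this
      rw [show ((x, y) + (0, -1) : V) = (x, y - 1) by simp [sub_eq_add_neg], this]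
      congr 1; ext <;> simp <;> ring
  · obtain ⟨x, y⟩ := g
    by_cases h1 : M ≤ y ∨ M ≤ -y
    · exact far x y h1
    by_cases h2 : M ≤ x
    · simp only [s]; rw [show (M - x).toNat = 0 by omega]; simp
    have h3 : M ≤ -x := by simp only [lv] at hg; omega
    have key : ∀ k : ℕ, s (x, y) = s (x, y + k) := by
      intro k
      induction k with
      | zero => simp
      | succ k ih =>
        have := hv x (y + k)
        rw [z2 _ _ (by omega)] at this
        rw [ih, f2_eq_of_add this]; push_cast; rw [add_assoc]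
    rw [key (M - y).toNat]
    exact far _ _ (by omega)

end Pool.Agent.Lib.LP93
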