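import Pool.Agent.Lib.LP93.Sep

/-! Tiles, components and the pinch-free cut of a colouring. -/

open Set

namespace Pool.Agent.Lib.LP93

open Pool.Agent.Lib.helper98 Pool.Agent.Lib.MP_db3ceb_pr

variable {η : V → Prop} {S R A : Set V}

/-- the set is a union of clusters of `η` -/
def Cl (η : V → Prop) (S : Set V) : Prop := ∀ a b, adj a b → η (a + b) → a ∈ S → b ∈ S

lemma Cl.compl (h : Cl η S) : Cl η Sᶜ := fun a b k1 k2 ha hb =>
  ha (h b a k1.symm (by rwa [add_comm]) hb)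

lemma Cl.inter (h : Cl η S) (h' : Cl η R) : Cl η (S ∩ R) := fun a b k1 k2 ha =>
  ⟨h a b k1 k2 ha.1, h' a b k1 k2 ha.2⟩

lemma Cl.union (h : Cl η S) (h' : Cl η R) : Cl η (S ∪ R) := fun a b k1 k2 ha =>
  ha.imp (h a b k1 k2) (h' a b k1 k2)

lemma Cl.diff (h : Cl η S) (h' : Cl η R) : Cl η (S \ R) := h.inter h'.compl

lemma Cl.conn (h : Cl η S) {a b : V} (k : Conn η univ a b) (ha : a ∈ S) : b ∈ S := by
  induction k with
  | refl _ => exact ha
  | tail _ h1 h2 _ ih => exact h _ _ h1 h2 ih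

/-- component of `x` in `R` -/
def comp (R : Set V) (x : V) : Set V := {y | Cn R x y}

lemma comp_subset (R : Set V) (x : V) : comp R x ⊆ R := fun _ h => Conn.right_mem h

lemma comp_mono (h : R ⊆ S) (x : V) : comp R x ⊆ comp S x := fun _ k => Conn.mono k h

lemma mem_comp {x : V} (h : x ∈ R) : x ∈ comp R x := Conn.refl h

lemma cn_comp {x y : V} (h : y ∈ comp R x) : Cn (comp R x) x y := Conn.reach h

lemma cn_comp' {x y y' : V} (h : y ∈ comp R x) (h' : y' ∈ comp R x) : Cn (comp R x) y y' :=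
  (cn_comp h).symm.trans (cn_comp h')

lemma comp_step {x y y' : V} (h : y ∈ comp R x) (k : adj y y') (h' : y' ∈ R) : y' ∈ comp R x :=
  Conn.tail h k trivial h'

lemma comp_cn {x y y' : V} (h : y ∈ comp R x) (k : Cn R y y') : y' ∈ comp R x := Conn.trans h k

lemma comp_eq {x y : V} (h : y ∈ comp R x) : comp R y = comp R x :=
  Subset.antisymm (fun _ k => comp_cn h k) fun _ k => Conn.trans (Conn.symm h) k

lemma Cl.comp (h : Cl η R) (x : V) : Cl η (comp R x) := fun a b k1 k2 ha =>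
  comp_step ha k1 (h a b k1 k2 (comp_subset _ _ ha))

lemma Cl.esc (h : Cl η R) : Cl η {g | Esc R g} := fun a b k1 k2 ha =>
  Esc.of_adj ha k1.symm (h.compl a b k1 k2 (Esc.notMem ha))

/-- union of the clusters meeting `A` -/
def hull (η : V → Prop) (A : Set V) : Set V := {b | ∃ a ∈ A, Conn η univ a b}

lemma subset_hull : A ⊆ hull η A := fun a h => ⟨a, h, Conn.refl trivial⟩

lemma cl_hull : Cl η (hull η A) := fun _ _ k1 k2 ⟨a, h1, h2⟩ => ⟨a, h1, h2.tail k1 k2 trivial⟩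

lemma hull_subset (h : Cl η S) (hA : A ⊆ S) : hull η A ⊆ S := fun _ ⟨_, h1, h2⟩ => h.conn h2 (hA h1)

lemma cn_hull {b : V} (h : b ∈ hull η A) : ∃ a ∈ A, Cn (hull η A) a b :=
  let ⟨a, h1, h2⟩ := h
  ⟨a, h1, (Conn.free h2.reach).mono fun _ hz => ⟨a, h1, hz⟩⟩

/-- no two squares of the set touch diagonally across two squares of the complement -/
def PF (S : Set V) : Prop :=
  ∀ g1 g2 w1 w2, Dg g1 g2 w1 w2 → g1 ∈ S → g2 ∈ S → w1 ∉ S → w2 ∉ S → False

/-- outside of the box of radius `ρ` -/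
def Out (ρ : ℤ) : Set V := {g | ρ < lv g}

/-- the box of radius `ρ` -/
def Inn (ρ : ℤ) : Set V := {g | lv g ≤ ρ}

/-- the ring of radius `ρ` -/
def Ring (ρ : ℤ) : Set V := {g | lv g = ρ}

lemma mem_out {ρ : ℤ} {g : V} : g ∈ Out ρ ↔ ρ < lv g := Iff.rfl
lemma mem_inn {ρ : ℤ} {g : V} : g ∈ Inn ρ ↔ lv g ≤ ρ := Iff.rfl
lemma mem_ring {ρ : ℤ} {g : V} : g ∈ Ring ρ ↔ lv g = ρ := Iff.rfl

lemma ring_finite (ρ : ℤ) : (Ring ρ).Finite := (lv_finite ρ).subset fun _ h => le_of_eq h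

lemma ncard_ring (ρ : ℕ) : (Ring ρ).ncard ≤ 4 * (2 * ρ + 1) := by
  refine le_trans (le_of_eq ?_) (card_sph ρ)
  rw [← ncard_coe_finset]
  congr 1
  ext g
  simp only [Finset.mem_coe, mem_sph, mem_box, mem_ring, lv, Prod.fst_zero, Prod.snd_zero]
  omega

lemma root {ρ : ℤ} {g q : V} (h : Cn R g q) (hq : lv q ≤ ρ) (hg : ρ < lv g) :
    ∃ e c, e ∈ comp (R ∩ Out ρ) g ∧ adj e c ∧ c ∈ R ∧ lv c ≤ ρ ∧ lv e = ρ + 1 := by
  obtain ⟨a, b, k1, k2, -, k4, k5⟩ := h.first_exit' (S := Out ρ) hg (by rw [mem_out]; omega)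
  have a1 : ρ < lv a := k1.right_mem.2
  have a2 := lv_adj k2.symm
  rw [mem_out] at k4
  exact ⟨a, b, k1, k2, k5.left_mem, by omega, by omega⟩

lemma exists_top {K : Set V} {N : ℤ} (hK : ∀ g ∈ K, lv g < N) (hne : K.Nonempty) :
    ∃ g ∈ K, ∀ z ∈ K, lv z ≤ lv g :=
  exists_max_image K lv ((lv_finite N).subset fun g hg => (hK g hg).le) hne

/-- the family of admissible cuts -/
def Fam (η : V → Prop) (S0 : Set V) (W : ℕ) (ρ N : ℤ) (K : Set V) : Prop :=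
  Cl η K ∧ K ⊆ S0 ∧ (∀ g ∈ K, lv g < N) ∧ (∀ g ∈ S0, lv g ≤ ρ → g ∈ K) ∧
    (∀ g ∈ K, ∃ q, lv q ≤ ρ ∧ Cn K g q) ∧
    ∀ g ∈ K, ∀ x, adj g x → Esc (K ∪ Inn ρ) x → ∀ j : ℕ, ρ + W + 1 + j * (W + 1) < lv g →
      2 ^ (j + 1) ≤ (comp (K ∩ Out ρ) g ∩ Ring (ρ + 1)).ncard

lemma Fam.grow {S0 K B : Set V} {W : ℕ} {ρ N : ℤ} (h : Fam η S0 W ρ N K) (b1 : Cl η B)
    (b2 : B ⊆ S0) (b3 : ∀ g ∈ B, lv g < N) (b4 : ∀ g ∈ B, ∃ q ∈ K, Cn (K ∪ B) g q)
    (b5 : ∀ g ∈ B, ∀ x, adj g x → Esc (K ∪ B ∪ Inn ρ) x → ∀ j : ℕ, ρ + W + 1 + j * (W + 1) < lv g →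
      2 ^ (j + 1) ≤ (comp ((K ∪ B) ∩ Out ρ) g ∩ Ring (ρ + 1)).ncard) :
    Fam η S0 W ρ N (K ∪ B) := by
  obtain ⟨h1, h2, h3, h4, h5, h6⟩ := h
  refine ⟨h1.union b1, union_subset h2 b2, fun g hg => hg.elim (h3 g) (b3 g),
    fun g hg k => Or.inl (h4 g hg k), ?_, ?_⟩
  · rintro g (hg | hg)
    · obtain ⟨q, k1, k2⟩ := h5 g hg
      exact ⟨q, k1, k2.mono subset_union_left⟩
    · obtain ⟨q, k1, k2⟩ := b4 g hg
      obtain ⟨q', k3, k4⟩ := h5 q k1
      exact ⟨q', k3, k2.trans (k4.mono subset_union_left)⟩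
  · rintro g (hg | hg) x k1 k2 j k3
    · refine (h6 g hg x k1 (k2.anti (union_subset_union_left _ subset_union_left)) j k3).trans
        (ncard_le_ncard (inter_subset_inter_left _ (comp_mono ?_ _))
          ((ring_finite _).subset inter_subset_right))
      exact inter_subset_inter_left _ subset_union_left
    · exact b5 g hg x k1 k2 j k3

theorem cut {W T ρ : ℕ} {N : ℤ} (hW : ∀ a b, Conn η univ a b → lv b ≤ lv a + W) {S0 : Set V}
    (c0 : Cl η S0)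
    (p0 : ∀ g1 g2 w1 w2, Dg g1 g2 w1 w2 → lv g1 < N - 1 → g1 ∈ S0 → g2 ∈ S0 → w1 ∉ S0 → w2 ∉ S0 →
      False)
    (hb : ∀ g ∈ S0, ∃ y, N ≤ lv y ∧ Cn S0 g y) (hw : ∀ g ∉ S0, ∃ y, N ≤ lv y ∧ Cn S0ᶜ g y)
    (hT : 4 * (2 * (ρ + 1) + 1) < 2 ^ (T + 1)) (hN : ρ + 2 * W + 2 + T * (W + 1) < N) :
    ∃ K X : Set V, Cl η K ∧ (∀ g, lv g ≤ ρ → (g ∈ K ↔ g ∈ S0)) ∧ (∀ g ∉ K, Esc K g) ∧ PF K ∧
      (∀ x ∈ X, x ∉ K ∧ ρ < lv x ∧ Esc Xᶜ x) ∧ (∀ g, N ≤ lv g → g ∈ X) ∧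
      ∀ g ∈ K, ∃ a x, Cn K g a ∧ adj a x ∧ x ∈ X := by
  have hTW : (0 : ℤ) ≤ T * (W + 1) := by positivity
  have f0 : Fam η S0 W ρ N (hull η (S0 ∩ Inn ρ)) := by
    have lvl : ∀ g ∈ hull η (S0 ∩ Inn ρ), lv g ≤ ρ + W := by
      rintro g ⟨a, k1, k2⟩
      have := hW a g k2
      have := mem_inn.mp k1.2
      omega
    refine ⟨cl_hull, hull_subset c0 inter_subset_left, fun g hg => by have := lvl g hg; omega,
      fun g hg k => subset_hull ⟨hg, k⟩, fun g hg => ?_, fun g hg x _ _ j k => ?_⟩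
    · obtain ⟨a, k1, k2⟩ := cn_hull hg
      exact ⟨a, k1.2, k2.symm⟩
    · have := lvl g hg
      have : (0 : ℤ) ≤ j * (W + 1) := by positivity
      omega
  have fin : {K | Fam η S0 W ρ N K}.Finite :=
    (lv_finite N).finite_subsets.subset fun K hK g hg => (hK.2.2.1 g hg).le
  obtain ⟨K, hK, hmax⟩ := exists_max_image _ ncard fin ⟨_, f0⟩
  have maxi : ∀ B, Fam η S0 W ρ N (K ∪ B) → B ⊆ K := by
    intro B hB
    have e := eq_of_subset_of_ncard_le (subset_union_left (s := K) (t := B)) (hmax _ hB)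
      ((lv_finite N).subset fun g hg => (hB.2.2.1 g hg).le)
    rw [e]; exact subset_union_right
  obtain ⟨h1, h2, h3, h4, h5, h6⟩ := id hK
  have far : ∀ y, N ≤ lv y → Esc (K ∪ Inn ρ) y := fun y hy => esc_top (by
    rintro (h | h)
    · have := h3 y h; omega
    · have := mem_inn.mp h; omega) (by
    rintro z (h | h)
    · have := h3 z h; omega
    · have := mem_inn.mp h; omega)
  have top : ∀ g ∈ K, lv g ≤ ρ + W + 1 + T * (W + 1) := by
    intro g hg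
    obtain ⟨g0, k1, k2⟩ := exists_top h3 ⟨g, hg⟩
    refine (k2 g hg).trans (not_lt.mp fun hlt => ?_)
    obtain ⟨x, k3, k4⟩ := exists_out g0
    have k5 := h6 g0 k1 x k3 (esc_top (by
      rintro (h | h)
      · have := k2 x h; omega
      · have := mem_inn.mp h; omega) (by
      rintro z (h | h)
      · have := k2 z h; omega
      · have := mem_inn.mp h; omega)) T hlt
    have k6 := (ncard_le_ncard (inter_subset_right (s := comp (K ∩ Out ρ) g0))
      (ring_finite _)).trans (ncard_ring (ρ + 1))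
    push_cast at k6
    omega
  have sea : ∀ g ∈ S0, g ∉ K → Esc (K ∪ Inn ρ) g := by
    intro g hg hg'
    by_contra hn
    have dis : ∀ z ∈ S0 \ K, z ∉ K ∪ Inn ρ := by
      rintro z hz (h | h)
      · exact hz.2 h
      · exact hz.2 (h4 z hz.1 h)
    have ne : ∀ z ∈ comp (S0 \ K) g, ¬Esc (K ∪ Inn ρ) z := fun z hz h => hn (h.of_cn hz dis)
    refine hg' (maxi (comp (S0 \ K) g) (hK.grow ((c0.diff h1).comp g)
      ((comp_subset _ _).trans sdiff_subset) (fun z hz => ?_) (fun z hz => ?_) ?_) (mem_comp ⟨hg, hg'⟩))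
    · by_contra h
      exact ne z hz (far z (by omega))
    · obtain ⟨y, k1, k2⟩ := hb g hg
      rcases k2.first_exit (S := Kᶜ) hg' with k3 | ⟨a, b, k3, k4, -, k5, -⟩
      · exact (ne y k3 (far y k1)).elim
      · have k6 : b ∈ K := not_not.mp k5
        exact ⟨b, k6, ((cn_comp' hz k3).mono subset_union_right).tail k4 trivial (Or.inl k6)⟩
    · intro z hz x k1 k2
      exact (ne z hz ((k2.anti (union_subset_union_left _ subset_union_left)).of_adj k1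
        (dis z (comp_subset _ _ hz)))).elim
  have esc : ∀ g ∉ K, Esc K g := by
    intro g hg
    by_cases hg' : g ∈ S0
    · exact (sea g hg' hg).anti subset_union_left
    · obtain ⟨y, k1, k2⟩ := hw g hg'
      exact ((far y k1).anti subset_union_left).of_cn k2 fun z hz h => hz (h2 h)
  have one : ∀ g ∈ K, (ρ : ℤ) < lv g → 1 ≤ (comp (K ∩ Out ρ) g ∩ Ring (ρ + 1)).ncard := by
    intro g hg k
    obtain ⟨q, k1, k2⟩ := h5 g hg
    obtain ⟨e, c, k3, -, -, -, k4⟩ := root k2 k1 k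
    exact (ncard_pos ((ring_finite _).subset inter_subset_right)).mpr ⟨e, k3, k4⟩
  have pf : ∀ g1 g2 w1 w2, Dg g1 g2 w1 w2 → g1 ∈ K → g2 ∈ K → w1 ∉ K → w2 ∉ K → w2 ∈ S0 →
      False := by
    intro g1 g2 w1 w2 d a1 a2 a3 a4 a5
    have s2 := sea w2 a5 a4
    have l1 := lv_adj d.2.1
    have l2 := lv_adj d.2.2.2.1
    have t1 := top g1 a1
    have lw : (ρ : ℤ) < lv w2 := by
      by_contra h; exact s2.notMem (Or.inr (mem_inn.mpr (by omega)))
    have lvl : ∀ g ∈ hull η {w2}, lv g ≤ lv w2 + W ∧ Cn (hull η {w2}) w2 g := by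
      intro g hg
      obtain ⟨a, rfl, k⟩ := cn_hull hg
      obtain ⟨a', rfl, k'⟩ := hg
      exact ⟨hW _ _ k', k⟩
    refine a4 (maxi (hull η {w2}) (hK.grow cl_hull (hull_subset c0 (by simpa using a5))
      (fun z hz => by have := (lvl z hz).1; omega) (fun z hz => ⟨g1, a1,
        ((lvl z hz).2.symm.mono subset_union_right).tail d.2.1.symm trivial (Or.inl a1)⟩) ?_)
      (subset_hull rfl))
    intro z hz x _ _ j k
    have hj : (0 : ℤ) ≤ j * (W + 1) := by positivity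
    have l3 := (lvl z hz).1
    have o1 : (ρ : ℤ) < lv g1 := by omega
    have o2 : (ρ : ℤ) < lv g2 := by omega
    have ho : hull η {w2} ⊆ (K ∪ hull η {w2}) ∩ Out ρ := fun y hy => ⟨Or.inr hy, by
      by_contra h
      exact a4 (h1.conn (by obtain ⟨a, rfl, k⟩ := hy; exact k.symm)
        (h4 y (hull_subset c0 (by simpa using a5) hy) (by rw [mem_out] at h; omega)))⟩
    have m0 : w2 ∈ comp ((K ∪ hull η {w2}) ∩ Out ρ) z := (lvl z hz).2.symm.mono ho
    have sub : ∀ g ∈ K, (ρ : ℤ) < lv g → adj g w2 →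
        comp (K ∩ Out ρ) g ⊆ comp ((K ∪ hull η {w2}) ∩ Out ρ) z := fun g b1 b2 b3 y hy =>
      comp_cn (comp_step m0 b3.symm ⟨Or.inl b1, b2⟩)
        (Conn.mono hy (inter_subset_inter_left _ subset_union_left))
    have big : ∀ g ∈ K, (ρ : ℤ) < lv g → adj g w2 → lv w2 ≤ lv g + 1 →
        2 ^ j ≤ (comp (K ∩ Out ρ) g ∩ Ring (ρ + 1)).ncard := by
      intro g b1 b2 b3 b4
      rcases j with _ | j
      · exact one g b1 b2
      · refine h6 g b1 w2 b3 s2 j ?_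
        push_cast at k
        linarith
    have dj : Disjoint (comp (K ∩ Out ρ) g1 ∩ Ring (ρ + 1)) (comp (K ∩ Out ρ) g2 ∩ Ring (ρ + 1)) := by
      rw [Set.disjoint_left]
      intro y y1 y2
      exact pinch d ((Conn.trans y1.1 (Conn.symm y2.1)).mono inter_subset_left) (esc w1 a3)
        (esc w2 a4)
    have f1 := (ring_finite (ρ + 1)).subset (inter_subset_right (s := comp (K ∩ Out ρ) g1))
    have f2 := (ring_finite (ρ + 1)).subset (inter_subset_right (s := comp (K ∩ Out ρ) g2))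
    calc 2 ^ (j + 1) = 2 ^ j + 2 ^ j := by ring
      _ ≤ _ := add_le_add (big g1 a1 o1 d.2.1 l1) (big g2 a2 o2 d.2.2.2.1 l2)
      _ = _ := (ncard_union_eq dj f1 f2).symm
      _ ≤ _ := ncard_le_ncard (union_subset
        (inter_subset_inter_left _ (sub g1 a1 o1 d.2.1))
        (inter_subset_inter_left _ (sub g2 a2 o2 d.2.2.2.1)))
        ((ring_finite _).subset inter_subset_right)
  refine ⟨K, {g | Esc (K ∪ Inn ρ) g}, h1, fun g hg => ⟨fun h => h2 h, fun h => h4 g h hg⟩, esc,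
    fun g1 g2 w1 w2 d a1 a2 a3 a4 => ?_, fun x hx => ⟨fun h => hx.notMem (Or.inl h), ?_, hx.self⟩,
    far, fun g hg => ?_⟩
  · by_cases b1 : w1 ∈ S0
    · exact pf g1 g2 w2 w1 d.right a1 a2 a4 a3 b1
    by_cases b2 : w2 ∈ S0
    · exact pf g1 g2 w1 w2 d a1 a2 a3 a4 b2
    · exact p0 g1 g2 w1 w2 d (by have := top g1 a1; omega) (h2 a1) (h2 a2) b1 b2
  · by_contra h; exact hx.notMem (Or.inr (mem_inn.mpr (by omega)))
  · obtain ⟨y, k1, k2⟩ := hb g (h2 hg)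
    obtain ⟨a, b, k3, k4, -, k5, k6⟩ := k2.first_exit' (S := K) hg fun h => by
      have := h3 y h; omega
    exact ⟨a, b, k3.mono inter_subset_right, k4, sea b k6.left_mem k5⟩

end Pool.Agent.Lib.LP93
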