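import Pool.Agent.Lib.LP93.Merge

/-! From an open path through a cell to an open cycle inside the cell. -/

open Set SimpleGraph

namespace Pool.Agent.Lib.LP93

open Pool.Agent.Lib.helper98 Pool.Agent.Lib.MP_db3ceb_pr

variable {ω : V → Prop} {u v : V}

open Classical in
/-- the chain of a walk -/
noncomputable def wc (P : (G ω).Walk u v) (e : V) : F2 :=
  if ∃ a b, s(a, b) ∈ P.edges ∧ a + b = e then 1 else 0

lemma wc_ne {P : (G ω).Walk u v} {a b : V} (k : adj a b) : wc P (a + b) ≠ 0 ↔ s(a, b) ∈ P.edges := by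
  unfold wc
  constructor
  · intro h
    obtain ⟨c, d, h1, h2⟩ : ∃ c d, s(c, d) ∈ P.edges ∧ c + d = a + b := by
      by_contra hn; exact h (if_neg hn)
    rcases adj_inj (P.adj_of_mem_edges h1).1 k h2 with ⟨rfl, rfl⟩ | ⟨rfl, rfl⟩
    · exact h1
    · rwa [Sym2.eq_swap]
  · intro h
    rw [if_pos ⟨a, b, h, rfl⟩]; exact one_ne_zero

lemma wc_of_mem {P : (G ω).Walk u v} {a b : V} (h : s(a, b) ∈ P.edges) : wc P (a + b) = 1 :=
  if_pos ⟨a, b, h, rfl⟩

lemma supp_wc (P : (G ω).Walk u v) : Supp (wc P) {g | g ∈ P.support} :=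
  fun _ _ k h => P.fst_mem_support_of_mem_edges ((wc_ne k).mp h)

lemma bnd_wc (P : (G ω).Walk u v) : Bnd (wc P) := by
  obtain ⟨t, -, h⟩ := exists_max_image {g | g ∈ P.support} lv (List.finite_toSet _)
    ⟨u, P.start_mem_support⟩
  exact ⟨lv t + 1, (supp_wc P).mono fun g hg => by
    have := h g hg; simp only [mem_ofPred_eq]; omega⟩

lemma bd_wc {P : (G ω).Walk u v} (h : P.IsTrail) (g : V) : bd (wc P) g = dl u g + dl v g := by
  induction P with
  | nil =>
    rw [f2_add_self]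
    exact bd_zero_of fun b k => by by_contra c; simpa using (wc_ne k).mp c
  | @cons a b c k P ih =>
    rw [Walk.isTrail_cons] at h
    have e : bd (wc (Walk.cons k P)) g = bd (dl (a + b) + wc P) g := by
      refine bd_congr fun d hd => ?_
      rw [Pi.add_apply]
      by_cases c1 : s(g, d) = s(a, b)
      · have c2 : g + d = a + b := by
          rcases Sym2.eq_iff.mp c1 with ⟨rfl, rfl⟩ | ⟨rfl, rfl⟩
          · rfl
          · exact add_comm _ _
        have c3 : wc P (g + d) = 0 := by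
          by_contra c; exact h.2 (c1 ▸ (wc_ne hd).mp c)
        rw [wc_of_mem (by simp [c1]), c3, dl, if_pos c2, add_zero]
      · have c2 : g + d ≠ a + b := fun c => c1 (by
          rcases adj_inj hd k.1 c with ⟨rfl, rfl⟩ | ⟨rfl, rfl⟩
          · rfl
          · exact Sym2.eq_swap)
        rw [dl, if_neg c2, zero_add]
        by_cases c3 : s(g, d) ∈ P.edges
        · rw [wc_of_mem c3, wc_of_mem (by simp [c3])]
        · rw [not_not.mp (mt (wc_ne hd).mp c3), not_not.mp (mt (wc_ne hd).mp (by simp [c1, c3]))]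
    rw [e, bd_add, bd_dl k.1, ih h.1]
    linear_combination f2_add_self (dl b g)

lemma acyclic {P : (G ω).Walk u v} (h : P.IsPath) {z : V → F2} (h1 : ∀ g, bd z g = 0)
    (h2 : ∀ a b, adj a b → z (a + b) ≠ 0 → s(a, b) ∈ P.edges) {a b : V} (k : adj a b) :
    z (a + b) = 0 := by
  induction P with
  | nil => by_contra c; simpa using h2 a b k c
  | @cons x y w k' P ih =>
    rw [Walk.cons_isPath_iff] at h
    have e : z (x + y) = 0 := by
      rw [← bd_one (z := z) k'.1 fun c c1 c2 => ?_, h1]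
      by_contra c3
      rcases List.mem_cons.mp (h2 x c c1 c3) with c4 | c4
      · exact c2 (Sym2.congr_right.mp c4)
      · exact h.2 (P.fst_mem_support_of_mem_edges c4)
    refine ih h.1 fun c d c1 c2 => (List.mem_cons.mp (h2 c d c1 c2)).resolve_left fun c3 => c2 ?_
    rcases Sym2.eq_iff.mp c3 with ⟨rfl, rfl⟩ | ⟨rfl, rfl⟩
    · exact e
    · rwa [add_comm]

lemma deg_start {α : Type} {H : SimpleGraph α} {u v : α} {P : H.Walk u v} (h : P.IsPath) {b c : α}
    (hb : s(u, b) ∈ P.edges) (hc : s(u, c) ∈ P.edges) : b = c := by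
  cases P with
  | nil => simp at hb
  | cons k P =>
    rw [Walk.cons_isPath_iff] at h
    have key : ∀ d, s(u, d) ∈ (Walk.cons k P).edges → _ := fun d hd =>
      Sym2.congr_right.mp ((List.mem_cons.mp hd).resolve_right
        fun c => h.2 (P.fst_mem_support_of_mem_edges c))
    rw [key b hb, key c hc]

lemma deg_three {α : Type} {H : SimpleGraph α} {u v : α} {P : H.Walk u v} (h : P.IsPath)
    {x a b c : α} (ha : s(x, a) ∈ P.edges) (hb : s(x, b) ∈ P.edges) (hc : s(x, c) ∈ P.edges) :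
    a = b ∨ a = c ∨ b = c := by
  induction P with
  | nil => simp at ha
  | @cons y w t k P ih =>
    by_cases hx : x = y
    · subst hx; exact Or.inl (deg_start h ha hb)
    rw [Walk.cons_isPath_iff] at h
    have key : ∀ d, s(x, d) ∈ (Walk.cons k P).edges → (x = w ∧ d = y) ∨ s(x, d) ∈ P.edges := by
      intro d hd
      refine (List.mem_cons.mp hd).imp_left fun e => ?_
      exact (Sym2.eq_iff.mp e).resolve_left fun e' => hx e'.1
    rcases key a ha with ⟨rfl, rfl⟩ | a1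
    · rcases key b hb with ⟨-, rfl⟩ | b1
      · exact Or.inl rfl
      · rcases key c hc with ⟨-, rfl⟩ | c1
        · exact Or.inr (Or.inl rfl)
        · exact Or.inr (Or.inr (deg_start h.1 b1 c1))
    · rcases key b hb with ⟨rfl, rfl⟩ | b1
      · rcases key c hc with ⟨-, rfl⟩ | c1
        · exact Or.inr (Or.inr rfl)
        · exact Or.inr (Or.inl (deg_start h.1 a1 c1))
      · rcases key c hc with ⟨rfl, rfl⟩ | c1
        · exact Or.inl (deg_start h.1 a1 b1)
        · exact ih h.1 a1 b1 c1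

lemma exists_cycle {z : V → F2} (hz : Bnd z) (h0 : ∀ g, bd z g = 0) {x d : V} (k : adj x d)
    (h1 : z (x + d) ≠ 0) : ∃ (t : V) (w : (G fun e => z e ≠ 0).Walk t t), w.IsCycle ∧
      s(x, d) ∈ w.edges := by
  refine adj_and_reachable_delete_edges_iff_exists_cycle.mp ⟨⟨k, h1⟩, ?_⟩
  by_contra hn
  set C : Set V := {g | ((G fun e => z e ≠ 0).deleteEdges {s(x, d)}).Reachable x g} with hC
  have xC : x ∈ C := Reachable.refl _
  have st : ∀ g ∈ C, ∀ c, adj g c → s(g, c) ≠ s(x, d) → res C z (g + c) = z (g + c) := by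
    intro g hg c k1 k2
    by_cases c1 : z (g + c) = 0
    · by_cases c2 : c ∈ C
      · exact res_of_mem k1 hg c2
      · rw [res_of_not k1 fun h => c2 h.2, c1]
    · exact res_of_mem k1 hg (Reachable.trans hg (Adj.reachable
        (deleteEdges_adj.mpr ⟨⟨k1, c1⟩, k2⟩)))
  have := no_single (q := res C z) (x := x) (σ := 1) (let ⟨M, hM⟩ := hz; ⟨M, hM.res C⟩) fun g => by
    rw [one_mul]
    by_cases c1 : g = x
    · subst c1
      have e : bd (res C z + dl (g + d)) g = bd z g := bd_congr fun c c2 => by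
        rw [Pi.add_apply]
        by_cases c3 : c = d
        · subst c3
          rw [res_of_not c2 fun h => hn h.2, dl, if_pos rfl, zero_add,
            (f2_cases _).resolve_left h1]
        · rw [st g xC c c2 fun h => c3 (Sym2.congr_right.mp h), dl, if_neg (by simpa using c3),
            add_zero]
      rw [bd_add, h0, bd_dl k, dl, dl, if_pos rfl, if_neg k.ne, add_zero] at e
      rw [dl, if_pos rfl, f2_eq_of_add e]
    · rw [dl, if_neg c1]
      by_cases c2 : g ∈ C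
      · rw [← h0 g]
        refine bd_congr fun c c3 => st g c2 c c3 fun h => ?_
        rcases Sym2.eq_iff.mp h with ⟨rfl, -⟩ | ⟨rfl, -⟩
        · exact c1 rfl
        · exact hn c2
      · exact (supp_res C z).bd_zero c2
  exact one_ne_zero this

open Classical in
/-- indicator of a set -/
noncomputable def ind (S : Set V) (g : V) : F2 := if g ∈ S then 1 else 0

lemma ind_add_ne {S : Set V} {a b : V} : ind S a + ind S b ≠ 0 ↔ ¬(a ∈ S ↔ b ∈ S) := by
  unfold ind
  by_cases ha : a ∈ S <;> by_cases hb : b ∈ S <;> simp [ha, hb, f2_add_self]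

lemma exists_pot_ind {S : Set V} {N : ℤ} (h : ∀ g ∈ S, lv g < N) : ∃ z, Pot z (ind S) :=
  let ⟨z, hz⟩ := exists_cob (ind S)
  ⟨z, hz, N, fun g hg => if_neg fun k => by have := h g k; omega⟩

/-- a connected and co-connected set of squares is bounded by a single cycle -/
theorem cycle_of_set {S : Set V} {N : ℤ} (h1 : ∀ g ∈ S, lv g < N) (h2 : ∀ g ∉ S, Esc S g)
    (h3 : ∀ a ∈ S, ∀ b ∈ S, Cn S a b)
    (h4 : ∀ a b, adj a b → ¬(a ∈ S ↔ b ∈ S) → ω (a + b + (1, 1))) (A : Finset V)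
    (hA : ∀ x ∈ A, ∃ d a b, adj x d ∧ adj a b ∧ x + d = a + b + (1, 1) ∧ ¬(a ∈ S ↔ b ∈ S)) :
    A.card ≤ LC ω (rect (-N) (N + 1) (-N) (N + 1)) := by
  classical
  rcases A.eq_empty_or_nonempty with rfl | ⟨x0, hx0⟩
  · simp
  obtain ⟨z, hz⟩ := exists_pot_ind h1
  obtain ⟨d0, a0, b0, k1, k2, k3, k4⟩ := hA x0 hx0
  obtain ⟨t, w, w1, w2⟩ := exists_cycle hz.bnd hz.bd_zero k1
    (by rw [k3, ← hz.1 a0 b0 k2]; exact ind_add_ne.mpr k4)
  obtain ⟨s, hs⟩ := exists_pot (bnd_wc w) fun g => by rw [bd_wc w1.isTrail, f2_add_self]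
  have bi : ∀ c d, s(c, d) ∈ w.edges → ∀ a b, adj a b → c + d = a + b + (1, 1) →
      ¬(a ∈ S ↔ b ∈ S) := by
    intro c d e1 a b e2 e3
    have := (w.adj_of_mem_edges e1).2
    rw [e3, ← hz.1 a b e2] at this
    exact ind_add_ne.mp this
  have same : ∀ a b, adj a b → (a ∈ S ↔ b ∈ S) → s a = s b := by
    intro a b k e
    obtain ⟨c, d, c1, c2, -⟩ := partner k
    apply f2_eq_of_add
    rw [hs.1 a b k, ← c2]
    by_contra c3
    exact bi c d ((wc_ne c1).mp c3) a b k c2 e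
  have s0 : ∀ g ∉ S, s g = 0 := fun g hg =>
    zero_of_esc (fun a ha b hb k => same a b k (iff_of_false ha hb)) hs.2 (h2 g hg)
  have s1 : ∀ g ∈ S, s g = 1 := by
    have e := hs.1 a0 b0 k2
    rw [← k3, wc_of_mem w2] at e
    have c : ∀ g ∈ S, ∀ g' ∈ S, s g = s g' := fun g hg g' hg' =>
      const_of_cn (fun a ha b hb k => same a b k (iff_of_true ha hb)) (h3 g hg g' hg')
    intro g hg
    by_cases ha : a0 ∈ S
    · rw [s0 b0 (by tauto), add_zero] at e; rw [c g hg a0 ha, e]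
    · rw [s0 a0 ha, zero_add] at e; rw [c g hg b0 (by tauto), e]
  have he : ∀ e ∈ w.edges, e ∈ (G ω).edgeSet := by
    intro e
    induction e using Sym2.ind with
    | h c d =>
      intro e1
      have c1 := (w.adj_of_mem_edges e1).1
      obtain ⟨a, b, c2, c3, -⟩ := partner' c1
      exact ⟨c1, c3 ▸ h4 a b c2 (bi c d e1 a b c2 c3)⟩
  have len := le_LC (rect_finite (-N) (N + 1) (-N) (N + 1)) (w := w.transfer (G ω) he)
    (w1.transfer he) (by
      intro x hx
      rw [Walk.support_transfer, Walk.mem_support_iff_exists_mem_edges_of_not_nil w1.not_nil] at hx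
      obtain ⟨e, e1, e2⟩ := hx
      obtain ⟨d, rfl⟩ := Sym2.mem_iff_exists.mp e2
      obtain ⟨a, b, c2, c3, c4⟩ := partner' (w.adj_of_mem_edges e1).1
      have c5 := bi x d e1 a b c2 c3
      have c6 := c4 a (Or.inl rfl)
      have c7 := c4 b (Or.inr rfl)
      by_cases ha : a ∈ S
      · have := h1 a ha; simp only [lv, rect, mem_ofPred_eq] at this ⊢; omega
      · have := h1 b (by tauto); simp only [lv, rect, mem_ofPred_eq] at this ⊢; omega)
  rw [Walk.length_transfer] at len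
  refine le_trans ?_ len
  have sub : A ⊆ w.support.tail.toFinset := by
    intro x hx
    obtain ⟨d, a, b, c1, c2, c3, c4⟩ := hA x hx
    have e : wc w (x + d) ≠ 0 := by
      rw [c3, ← hs.1 a b c2]
      by_cases ha : a ∈ S
      · rw [s1 a ha, s0 b (by tauto)]; simp
      · rw [s0 a ha, s1 b (by tauto)]; simp
    rw [List.mem_toFinset]
    rcases (Walk.mem_support_iff w).mp (w.fst_mem_support_of_mem_edges ((wc_ne c1).mp e)) with
      rfl | c5
    · exact Walk.end_mem_tail_support w1.not_nil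
    · exact c5
  refine (Finset.card_le_card sub).trans ((List.toFinset_card_le _).trans (le_of_eq ?_))
  simp

/-- closed dual edges between squares of the cell -/
def eta (N : ℤ) (ω : V → Prop) (e : V) : Prop :=
  dual ω e ∧ ∃ a b, adj a b ∧ a + b = e ∧ lv a ≤ N ∧ lv b ≤ N

lemma eta_iff {N : ℤ} {a b : V} (k : adj a b) :
    eta N ω (a + b) ↔ ¬ω (a + b + (1, 1)) ∧ lv a ≤ N ∧ lv b ≤ N := by
  refine and_congr Iff.rfl ⟨?_, fun h => ⟨a, b, k, rfl, h⟩⟩
  rintro ⟨c, d, h1, h2, h3, h4⟩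
  rcases adj_inj h1 k h2 with ⟨rfl, rfl⟩ | ⟨rfl, rfl⟩
  · exact ⟨h3, h4⟩
  · exact ⟨h4, h3⟩

/-- all dual clusters of the cell are small -/
def Small (N : ℤ) (W : ℕ) : Set (V → Prop) :=
  {ω | ∀ a b, Conn (eta N ω) univ a b → lv b ≤ lv a + W}

lemma dg_block {S : Set V} {g1 g2 w1 w2 : V} (d : Dg g1 g2 w1 w2) (a1 : g1 ∈ S) (a2 : g2 ∈ S)
    (a3 : w1 ∉ S) (a4 : w2 ∉ S) : ∃ p : V, InB p g1 ∧ ¬(p ∈ S ↔ p + (1, 0) ∈ S) ∧
      ¬(p ∈ S ↔ p + (0, 1) ∈ S) ∧ ¬(p + (1, 0) ∈ S ↔ p + (1, 1) ∈ S) := by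
  rcases d.cases with ⟨rfl, rfl, rfl⟩ | ⟨rfl, rfl, rfl⟩ | ⟨rfl, rfl, rfl⟩ | ⟨rfl, rfl, rfl⟩ |
    ⟨rfl, rfl, rfl⟩ | ⟨rfl, rfl, rfl⟩ | ⟨rfl, rfl, rfl⟩ | ⟨rfl, rfl, rfl⟩
  · exact ⟨w1, by simp [InB], by tauto, by tauto, by tauto⟩
  · exact ⟨w1, by simp [InB], by tauto, by tauto, by tauto⟩
  · exact ⟨w2, by simp [InB], by tauto, by tauto, by tauto⟩
  · exact ⟨w2, by simp [InB], by tauto, by tauto, by tauto⟩
  · exact ⟨g1, by simp [InB], by tauto, by tauto, by tauto⟩
  · exact ⟨g1, by simp [InB], by tauto, by tauto, by tauto⟩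
  · exact ⟨g2, by simp [InB], by tauto, by tauto, by tauto⟩
  · exact ⟨g2, by simp [InB], by tauto, by tauto, by tauto⟩

/-- the part of a path in the middle of a cell is covered by one cycle of the cell -/
theorem cell_bound {N : ℤ} {W r T : ℕ} (hω : ω ∈ Small N W) {P : (G ω).Walk u v} (hP : P.IsPath)
    (hu : N < lv u) (hv : N < lv v) (hT : 4 * (2 * (r + 1) + 1) < T * T)
    (hT' : 4 * (2 * (r + 1 + T * (3 * W + 4) + 1) + 1) < 2 ^ (T + 1))
    (hN : r + 2 * W + 3 + T * (4 * W + 5) < N) (A : Finset V)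
    (hA : ∀ x ∈ A, x ∈ P.support ∧ lv x < r) :
    A.card ≤ LC ω (rect (-N) (N + 1) (-N) (N + 1)) := by
  have hTW : (0 : ℤ) ≤ T * (4 * W + 5) := by positivity
  obtain ⟨y, y1, y2, y3⟩ := exists_chain (cn_outer (ρ := N + 1) hu hv)
  obtain ⟨s, hs⟩ := exists_pot ((bnd_wc P).add y1) fun g => by
    rw [bd_add, bd_wc hP.isTrail, y3, f2_add_self]
  set S0 : Set V := {g | s g = 1} with hS0
  have bi : ∀ a b, adj a b → lv a ≤ N → lv b ≤ N →
      (¬(a ∈ S0 ↔ b ∈ S0) ↔ wc P (a + b + (1, 1)) ≠ 0) := by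
    intro a b k ha hb
    have e := hs.1 a b k
    rw [Pi.add_apply, y2.partner_zero k (by simp only [mem_ofPred_eq]; omega)
      (by simp only [mem_ofPred_eq]; omega), add_zero] at e
    rw [← e]
    simp only [hS0, mem_ofPred_eq]
    generalize s a = x, s b = y
    revert x y; decide
  have bi' : ∀ a b c d, adj a b → adj c d → c + d = a + b + (1, 1) → lv a ≤ N → lv b ≤ N →
      (¬(a ∈ S0 ↔ b ∈ S0) ↔ s(c, d) ∈ P.edges) := fun a b c d k k' e ha hb => by
    rw [bi a b k ha hb, ← e, wc_ne k']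
  have c0 : Cl (eta N ω) S0 := by
    intro a b k e ha
    obtain ⟨e1, e2, e3⟩ := (eta_iff k).mp e
    obtain ⟨c, d, c1, c2, -⟩ := partner k
    by_contra hb
    exact e1 (c2 ▸ (P.adj_of_mem_edges ((bi' a b c d k c1 c2 e2 e3).mp fun h => hb (h.mp ha))).2)
  have reach : ∀ C : Set V, C = S0 ∨ C = S0ᶜ → ∀ g ∈ C, ∃ y, N ≤ lv y ∧ Cn C g y := by
    intro C hC g hg
    by_contra hn
    have b1 : ∀ x ∈ comp C g, lv x < N := fun x hx => by
      by_contra c; exact hn ⟨x, by omega, hx⟩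
    obtain ⟨z, hz⟩ := exists_pot_ind b1
    obtain ⟨t, t1, t2⟩ := exists_top b1 ⟨g, mem_comp hg⟩
    obtain ⟨t', t3, t4⟩ := exists_out t
    obtain ⟨c, d, c1, c2, -⟩ := partner t3
    have e := acyclic hP hz.bd_zero (fun c d k hne => ?_) c1
    · rw [c2, ← hz.1 t t' t3] at e
      exact ind_add_ne.mpr (fun h => by have := t2 t' (h.mp t1); omega) e
    · obtain ⟨a, b, c3, c4, -⟩ := partner' k
      rw [c4, ← hz.1 a b c3, ind_add_ne] at hne
      have key : ∀ a b, adj a b → a ∈ comp C g → b ∉ comp C g →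
          lv a ≤ N ∧ lv b ≤ N ∧ ¬(a ∈ S0 ↔ b ∈ S0) := by
        intro a b k ha hb
        have l1 := b1 a ha
        have l2 := lv_adj k
        have m1 := comp_subset _ _ ha
        have m2 : b ∉ C := fun c => hb (comp_step ha k c)
        refine ⟨by omega, by omega, ?_⟩
        rcases hC with rfl | rfl
        · tauto
        · simp only [mem_compl_iff] at m1 m2; tauto
      by_cases ha : a ∈ comp C g
      · obtain ⟨l1, l2, l3⟩ := key a b c3 ha (by tauto)
        exact (bi' a b c d c3 k c4 l1 l2).mp l3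
      · obtain ⟨l1, l2, l3⟩ := key b a c3.symm (by tauto) ha
        exact (bi' a b c d c3 k c4 l2 l1).mp fun h => l3 h.symm
  have p0 : ∀ g1 g2 w1 w2, Dg g1 g2 w1 w2 → lv g1 < N - 1 → g1 ∈ S0 → g2 ∈ S0 → w1 ∉ S0 →
      w2 ∉ S0 → False := by
    intro g1 g2 w1 w2 d l a1 a2 a3 a4
    obtain ⟨p, p1, p2, p3, p4⟩ := dg_block d a1 a2 a3 a4
    have ll : ∀ e : V, e.1 = 0 ∨ e.1 = 1 → e.2 = 0 ∨ e.2 = 1 → lv (p + e) ≤ N := fun e e1 e2 => by
      simp only [lv, InB, Prod.fst_add, Prod.snd_add] at l p1 ⊢; omega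
    have l0 : lv p ≤ N := by simpa using ll 0 (by simp) (by simp)
    have e1 := (bi' p _ (p + (1, 1)) _ (adj_e1 p) (adj_e4 _) (by ext <;> simp <;> ring) l0
      (ll _ (by simp) (by simp))).mp p2
    have e2 := (bi' p _ (p + (1, 1)) _ (adj_e3 p) (adj_e2 _) (by ext <;> simp <;> ring) l0
      (ll _ (by simp) (by simp))).mp p3
    have e3 := (bi' _ (p + (1, 1)) (p + (1, 1)) _ (by simp [adj]) (adj_e1 _) (by ext <;> simp <;> ring)
      (ll _ (by simp) (by simp)) (ll _ (by simp) (by simp))).mp p4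
    simpa using deg_three hP e1 e2 e3
  obtain ⟨S, s1, s2, s3, s4, s5⟩ := merge (T := T) (r := r) hω c0 p0
    (reach _ (Or.inl rfl)) (reach _ (Or.inr rfl)) hT hT' hN
  refine cycle_of_set s2 s4 s5 (fun a b k e => ?_) A fun x hx => ?_
  · by_contra c
    have l := lv_adj k
    have l' := lv_adj k.symm
    by_cases ha : a ∈ S
    · have := s2 a ha
      exact e (iff_of_true ha (s1 a b k ((eta_iff k).mpr ⟨c, by omega, by omega⟩) ha))
    · have hb : b ∈ S := by tauto
      have := s2 b hb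
      exact ha (s1 b a k.symm ((eta_iff k.symm).mpr ⟨by rwa [add_comm b], by omega, by omega⟩) hb)
  · obtain ⟨x1, x2⟩ := hA x hx
    rcases Walk.mem_support_iff_exists_mem_edges.mp x1 with rfl | ⟨e, e1, e2⟩
    · omega
    obtain ⟨d, rfl⟩ := Sym2.mem_iff_exists.mp e2
    have k := (P.adj_of_mem_edges e1).1
    obtain ⟨a, b, c2, c3, c4⟩ := partner' k
    have c6 := c4 a (Or.inl rfl)
    have c7 := c4 b (Or.inr rfl)
    have la : lv a ≤ r := by simp only [lv] at x2 ⊢; omega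
    have lb : lv b ≤ r := by simp only [lv] at x2 ⊢; omega
    refine ⟨d, a, b, k, c2, c3, ?_⟩
    rw [s3 a la, s3 b lb]
    exact (bi' a b x d c2 k c3 (by omega) (by omega)).mpr e1

end Pool.Agent.Lib.LP93
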