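import Mathlib

namespace Pool.Agent.Lib.LP93

/-- `L_n`: the largest number of edges of a self-avoiding path of the graph with edge set `ω` all
of whose vertices lie in the box `[1, n]²`. -/
noncomputable def longestPath (n : ℕ) (ω : Set (Sym2 (ℤ × ℤ))) : ℕ :=
  sSup {l | ∃ (u v : ℤ × ℤ) (w : (SimpleGraph.fromEdgeSet ω).Walk u v), w.IsPath ∧
    (∀ z ∈ w.support, 1 ≤ z.1 ∧ z.1 ≤ n ∧ 1 ≤ z.2 ∧ z.2 ≤ n) ∧ w.length = l}

end Pool.Agent.Lib.LP93
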