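import Pool.Agent.Lib.LP93.Ops

/-! The merge theorem: a colouring can be made connected and co-connected near the boundary. -/

open Set

namespace Pool.Agent.Lib.LP93

open Pool.Agent.Lib.helper98 Pool.Agent.Lib.MP_db3ceb_pr

variable {η : V → Prop} {S0 X S K J : Set V} {r N ρa : ℤ} {W : ℕ}

/-- pairs of squares in the box -/
noncomputable def prs (N : ℤ) : Finset (V × V) := (lv_finite N).toFinset ×ˢ (lv_finite N).toFinset

open Classical in
/-- boundary of the colouring weighted by the level -/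
noncomputable def Phi (N : ℤ) (S : Set V) : ℕ :=
  ∑ p ∈ prs N, if adj p.1 p.2 ∧ ¬(p.1 ∈ S ↔ p.2 ∈ S) then
    ((prs N).card + 1) ^ (min (lv p.1) (lv p.2)).toNat else 0

lemma phi_lt {S S' : Set V} {l : ℤ} (hl : 0 ≤ l)
    (h1 : ∀ a b, adj a b → ¬(a ∈ S' ↔ b ∈ S') → ¬(a ∈ S ↔ b ∈ S) ∨ min (lv a) (lv b) ≤ l)
    {a b : V} (k : adj a b) (ha : lv a ≤ N) (hb : lv b ≤ N) (k1 : ¬(a ∈ S ↔ b ∈ S))
    (k2 : a ∈ S' ↔ b ∈ S') (k3 : l < min (lv a) (lv b)) : Phi N S' < Phi N S := by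
  classical
  have hm : (a, b) ∈ prs N := by simp [prs, ha, hb]
  unfold Phi
  rw [← Finset.add_sum_erase _ _ hm, ← Finset.add_sum_erase _ _ hm, if_neg fun h => h.2 k2,
    if_pos ⟨k, k1⟩, zero_add]
  set M := (prs N).card + 1 with hM
  have b1 : ∀ p ∈ (prs N).erase (a, b), (if adj p.1 p.2 ∧ ¬(p.1 ∈ S' ↔ p.2 ∈ S') then
      M ^ (min (lv p.1) (lv p.2)).toNat else 0) ≤ M ^ l.toNat + if adj p.1 p.2 ∧
        ¬(p.1 ∈ S ↔ p.2 ∈ S) then M ^ (min (lv p.1) (lv p.2)).toNat else 0 := by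
    intro p _
    split_ifs with c1 c2
    · omega
    · rcases h1 _ _ c1.1 c1.2 with c3 | c3
      · exact (c2 ⟨c1.1, c3⟩).elim
      · exact Nat.pow_le_pow_right (by omega) (by omega)
    all_goals omega
  refine (Finset.sum_le_sum b1).trans_lt ?_
  rw [Finset.sum_add_distrib, Finset.sum_const, smul_eq_mul]
  refine Nat.add_lt_add_right ?_ _
  calc ((prs N).erase (a, b)).card * M ^ l.toNat < M * M ^ l.toNat :=
        Nat.mul_lt_mul_of_pos_right (lt_of_le_of_lt Finset.card_erase_le (by omega)) (by positivity)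
    _ = M ^ (l.toNat + 1) := by ring
    _ ≤ _ := Nat.pow_le_pow_right (by omega) (by simp only; omega)

lemma phi_flip {S S' C K : Set V} {l : ℤ} (hl : 0 ≤ l) (hC : C = S ∨ C = Sᶜ) (hK : K ⊆ C)
    (hS' : ∀ g, g ∈ S' ↔ (g ∈ S ↔ g ∉ K))
    (h1 : ∀ k ∈ K, ∀ y ∈ C \ K, adj k y → lv y ≤ l) {a b : V} (k : adj a b) (ha : lv a ≤ N)
    (hb : lv b ≤ N) (k1 : a ∈ K) (k2 : b ∉ C) (k3 : l < min (lv a) (lv b)) : Phi N S' < Phi N S := by
  have hc : ∀ x y : V, (x ∈ S ↔ y ∈ S) ↔ (x ∈ C ↔ y ∈ C) := by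
    intro x y; rcases hC with rfl | rfl
    · rfl
    · simp only [mem_compl_iff]; tauto
  refine phi_lt hl (fun x y j1 j2 => ?_) k ha hb ?_ ?_ k3
  · rw [hS', hS'] at j2
    by_cases c : x ∈ S ↔ y ∈ S
    · right
      have c' := (hc x y).mp c
      by_cases hx : x ∈ K
      · have := h1 x hx y ⟨c'.mp (hK hx), by tauto⟩ j1
        omega
      · have hy : y ∈ K := by tauto
        have := h1 y hy x ⟨c'.mpr (hK hy), hx⟩ j1.symm
        omega
    · exact Or.inl c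
  · rw [hc]; exact fun h => k2 (h.mp (hK k1))
  · have c1 : ¬(a ∈ S ↔ b ∈ S) := by rw [hc]; exact fun h => k2 (h.mp (hK k1))
    have c2 : b ∉ K := fun h => k2 (hK h)
    rw [hS', hS']; tauto

/-- optimal admissible colourings which are not connected -/
structure Mn (η : V → Prop) (S0 X : Set V) (W : ℕ) (r N ρa : ℤ) (S : Set V) : Prop where
  hW : ∀ a b, Conn η univ a b → lv b ≤ lv a + W
  hX : ∀ x ∈ X, Esc Xᶜ x
  hX' : ∀ x ∈ X, ρa < lv x
  hN : ∀ g, N ≤ lv g → g ∈ X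
  hr : 0 ≤ r
  adm : Adm η S0 X r S
  ne : (DD X S).Nonempty
  m1 : ∀ S', Adm η S0 X r S' → ¬DD X S' ⊂ DD X S
  m2 : ∀ S', Adm η S0 X r S' → DD X S' ⊆ DD X S → Phi N S ≤ Phi N S'

lemma Mn.rooted (h : Mn η S0 X W r N ρa S) {g : V} (hg : g ∈ S) : ∃ q, lv q ≤ r ∧ Cn S g q := by
  by_contra hn
  obtain ⟨a, a1, x, a2, a3⟩ := h.adm.anch g hg
  obtain ⟨k1, k2⟩ := h.adm.whiten (K := comp S g) (J := ∅) (h.adm.cl.comp g)
    (fun k hk => by by_contra c; exact hn ⟨k, by omega, hk⟩) (fun _ _ _ => rfl)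
    (fun k hk y hy c => hy.2 (comp_step hk c hy.1)) (fun _ h => h.elim)
    fun k hk => ⟨a, x, cn_comp' hk a1, a3, h.adm.dis x a2⟩
  refine h.m1 _ k1 ⟨k2, fun k3 => ?_⟩
  obtain ⟨p, p1, p2, p3, p4, p5⟩ := h.ne
  by_cases c : Cn S a p.1
  · exact (k3 (show (a, p.2) ∈ DD X S from ⟨a1.right_mem, p2, ⟨x, a2, a3⟩, p4,
      fun c' => p5 (c.symm.trans c')⟩)).1.2 a1
  · exact (k3 (show (a, p.1) ∈ DD X S from ⟨a1.right_mem, p1, ⟨x, a2, a3⟩, p3, c⟩)).1.2 a1

/-- the set stays away from the sea -/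
def Free (X u : Set V) : Prop := ∀ g ∈ u, g ∉ X ∧ ¬An X g

/-- squares enclosed by `u` and the box -/
def Ins (r : ℤ) (u : Set V) : Set V := {g | g ∉ u ∪ Inn r ∧ ¬Esc (u ∪ Inn r) g}

lemma Mn.col_cl (h : Mn η S0 X W r N ρa S) {C : Set V} (hC : C = S ∨ C = Sᶜ) : Cl η C := by
  rcases hC with rfl | rfl
  · exact h.adm.cl
  · exact h.adm.cl.compl

lemma Mn.free_lt (h : Mn η S0 X W r N ρa S) {u : Set V} (hu : Free X u) {g : V} (hg : g ∈ u) :
    lv g < N := by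
  by_contra k; exact (hu g hg).1 (h.hN g (by omega))

lemma Mn.col_root (h : Mn η S0 X W r N ρa S) {C : Set V} (hC : C = S ∨ C = Sᶜ) {x : V} (hx : x ∈ C)
    (lx : r < lv x) (hf : Free X (comp (C ∩ Out r) x)) :
    ∃ e ∈ comp (C ∩ Out r) x, lv e = r + 1 := by
  have : ∃ q, lv q ≤ r ∧ Cn C x q := by
    rcases hC with rfl | rfl
    · exact h.rooted hx
    · obtain ⟨y, a1, a2⟩ := h.adm.esc x hx N
      rcases a2.first_exit (S := Out r) lx with a3 | ⟨a, b, a3, a4, -, a5, a6⟩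
      · have := h.free_lt hf a3; omega
      · exact ⟨b, not_lt.mp a5, (a3.mono inter_subset_left).tail a4 trivial a6.left_mem⟩
  obtain ⟨q, a1, a2⟩ := this
  obtain ⟨e, c, b1, -, -, -, b2⟩ := root a2 a1 lx
  exact ⟨e, b1, b2⟩

lemma Mn.step (h : Mn η S0 X W r N ρa S) {C : Set V} (hC : C = S ∨ C = Sᶜ) {x : V} (hx : x ∈ C)
    {ρ : ℤ} (h1 : r < ρ) (h2 : ρ + W ≤ ρa) (h3 : ρ + W < lv x) (hf : Free X (comp (C ∩ Out r) x)) :
    ∃ x' ∉ C, lv x' = ρ ∧ x' ∈ Ins r (comp (C ∩ Out r) x) := by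
  have hr := h.hr
  set O := hull η (Inn ρ) with hO
  have lO : ∀ g ∈ O, lv g ≤ ρ + W := by
    rintro g ⟨a, a1, a2⟩
    have := h.hW a g a2
    have := mem_inn.mp a1
    omega
  have iO : ∀ g, lv g ≤ ρ → g ∈ O := fun g hg => subset_hull hg
  set R : Set V := {g | ∃ q, lv q ≤ r ∧ Cn (C ∩ O) g q} with hR
  have cCO : Cl η (C ∩ O) := (h.col_cl hC).inter cl_hull
  have sR : ∀ g ∈ R, ∀ y ∈ C ∩ O, adj y g → y ∈ R := fun g ⟨q, a1, a2⟩ y hy k =>
    ⟨q, a1, (Cn.step hy a2.left_mem k).trans a2⟩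
  have mR : ∀ g ∈ R, g ∈ C ∩ O := fun g ⟨_, _, a2⟩ => a2.left_mem
  have cR : Cl η R := fun a b k1 k2 ha => sR a ha b (cCO a b k1 k2 (mR a ha)) k1.symm
  have xR : x ∉ R := fun k => by have := lO x (mR x k).2; omega
  set K := comp (C \ R) x with hK
  have oK : ∀ g ∈ C \ R, r < lv g := fun g hg => by
    by_contra c
    exact hg.2 ⟨g, by omega, Conn.refl (mem_inter hg.1 (iO g (by omega)))⟩
  have uK : K ⊆ comp (C ∩ Out r) x := comp_mono (fun g hg => mem_inter hg.1 (oK g hg)) x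
  have cK : Cl η K := ((h.col_cl hC).diff cR).comp x
  have KC : K ⊆ C := fun g hg => (comp_subset _ _ hg).1
  have nb : ∀ k ∈ K, ∀ y ∈ C \ K, adj k y → y ∈ R := fun k hk y hy c =>
    not_not.mp fun c' => hy.2 (comp_step (R := C \ R) hk c ⟨hy.1, c'⟩)
  have xK : x ∈ K := mem_comp ⟨hx, xR⟩
  obtain ⟨y, y1, y2⟩ := radial x (N - lv x).toNat
  obtain ⟨a, b, e1, e2, -, e3, e4⟩ := y2.first_exit' (S := K) xK fun k => by
    have := h.free_lt hf (uK k); omega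
  have aK : a ∈ K := e1.right_mem.2
  have la : ρ + W < lv a := by
    rcases e1.right_mem.1 with rfl | k
    · exact h3
    · exact h3.trans k
  have lb : ρ + W < lv b := by
    rcases e4.left_mem with rfl | k
    · exact h3
    · exact h3.trans k
  have bC : b ∉ C := fun k => by
    have := lO b (mR b (nb a aK b ⟨k, e3⟩ e2)).2; omega
  have aN := h.free_lt hf (uK aK)
  have bN := lv_adj e2
  by_cases hJ : ∀ k ∈ K, ∀ y ∈ C \ K, adj k y → ∀ k' ∈ K, ∀ y' ∈ C \ K, adj k' y' → Cn (C ∩ O) y y'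
  · exfalso
    let J : Set V := {z | ∃ k ∈ K, ∃ y ∈ C \ K, adj k y ∧ Cn (C ∩ O) y z}
    have j1 : ∀ k ∈ K, ∀ y ∈ C \ K, adj k y → y ∈ J := fun k hk y hy c =>
      ⟨k, hk, y, hy, c, Conn.refl (mR y (nb k hk y hy c))⟩
    have j2 : ∀ z ∈ J, ∀ z' ∈ J, Cn J z z' := by
      rintro z ⟨k, a1, y, a2, a3, a4⟩ z' ⟨k', b1, y', b2, b3, b4⟩
      exact ((cn_comp' (x := y) a4 ((hJ k a1 y a2 a3 k' b1 y' b2 b3).trans b4))).mono
        fun w hw => ⟨k, a1, y, a2, a3, hw⟩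
    have j3 : ∀ z ∈ J, z ∈ R := by
      rintro z ⟨k, a1, y, a2, a3, a4⟩
      obtain ⟨q, a5, a6⟩ := nb k a1 y a2 a3
      exact ⟨q, a5, a4.symm.trans a6⟩
    have j4 : ∀ z ∈ J, z ∈ C \ K := fun z hz =>
      ⟨(mR z (j3 z hz)).1, fun k => (comp_subset _ _ k).2 (j3 z hz)⟩
    have j5 : ∀ k ∈ K, ∀ y ∈ C \ K, adj k y → lv y ≤ ρ + W := fun k hk y hy c =>
      lO y (mR y (nb k hk y hy c)).2
    have j6 : ∀ k ∈ K, ∃ k' w, Cn K k k' ∧ adj k' w ∧ w ∉ C := fun k hk =>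
      ⟨a, b, cn_comp' hk aK, e2, bC⟩
    rcases id hC with rfl | rfl
    · obtain ⟨k1, k2⟩ := h.adm.whiten (J := J) cK (fun k hk => oK k (comp_subset _ _ hk))
        (fun k hk c => ((hf k (uK hk)).2 c).elim) j1
        (fun y hy y' hy' => (j2 y hy y' hy').mono j4) j6
      exact absurd (h.m2 _ k1 k2) (not_le.mpr (phi_flip (l := ρ + W) (by omega) hC KC
        (fun g => by have := @KC g; simp only [mem_sdiff]; tauto) j5 e2 (by omega) (by omega) aK bC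
        (by omega)))
    · obtain ⟨k1, k2⟩ := h.adm.blacken (J := J) h.hX h.hN cK (fun k hk => oK k (comp_subset _ _ hk))
        (fun k hk => hf k (uK hk)) j1 j2 (fun z hz => ⟨(j4 z hz).1, (j4 z hz).2, fun c => by
          have := h.hX' z c; have := lO z (mR z (j3 z hz)).2; omega⟩)
        fun k hk => by simpa using j6 k hk
      exact absurd (h.m2 _ k1 k2) (not_le.mpr (phi_flip (l := ρ + W) (by omega) hC KC
        (fun g => by have := @KC g; simp only [mem_union, mem_compl_iff] at this ⊢; tauto) j5 e2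
        (by omega) (by omega) aK bC (by omega)))
  push Not at hJ
  obtain ⟨k1, a1, y1, a2, a3, k2, b1, y2, b2, b3, hn⟩ := hJ
  have key : ∀ k ∈ K, ∀ y ∈ C \ K, adj k y → ρ < lv k ∧ ∃ c, lv c ≤ r ∧
      Cn (insert k (insert c (comp (C ∩ O ∩ Out r) y))) c k ∧
      comp (C ∩ O ∩ Out r) y ⊆ comp (C ∩ Out r) x := by
    intro k hk y hy c
    have yR := nb k hk y hy c
    have lk : ρ < lv k := by
      by_contra c'
      exact (comp_subset _ _ hk).2 (sR y yR k ⟨KC hk, iO k (by omega)⟩ c)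
    have ly := lv_adj c.symm
    obtain ⟨q, q1, q2⟩ := yR
    obtain ⟨e, c', d1, d2, -, d3, -⟩ := root q2 q1 (by omega)
    have my : y ∈ comp (C ∩ O ∩ Out r) y := mem_comp ⟨q2.left_mem, by rw [mem_out]; omega⟩
    refine ⟨lk, c', d3, ((Cn.step (R := insert k (insert c' (comp (C ∩ O ∩ Out r) y)))
      (Or.inr (Or.inl rfl)) (Or.inr (Or.inr d1)) d2.symm).trans
      ((cn_comp d1).symm.mono fun z hz => Or.inr (Or.inr hz))).tail c.symm trivial (Or.inl rfl),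
      fun z hz => comp_cn (comp_step (uK hk) c ⟨hy.1, by rw [mem_out]; omega⟩)
        (Conn.mono hz fun w hw => ⟨hw.1.1, hw.2⟩)⟩
  obtain ⟨l1, c1, m1, p1, s1⟩ := key k1 a1 y1 a2 a3
  obtain ⟨l2, c2, m2, p2, s2⟩ := key k2 b1 y2 b2 b3
  by_contra hne
  push Not at hne
  have yR : ∀ z ∈ comp (C ∩ O) y1, z ∈ R := fun z hz =>
    let ⟨q, q1, q2⟩ := nb k1 a1 y1 a2 a3
    ⟨q, q1, (Conn.symm hz).trans q2⟩
  refine arm (ρ := ρ) (J := comp (C ∩ O) y1) (P2 := K ∪ comp (C ∩ O ∩ Out r) y2 ∪ Inn r) p1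
    ((((cn_inner m1 m2).mono subset_union_right).trans (p2.mono ?_)).trans
      ((cn_comp' b1 a1).mono (subset_union_left.trans subset_union_left))) (by omega) l1 ?_ ?_ ?_
  · rintro z (rfl | rfl | hz)
    · exact Or.inl (Or.inl b1)
    · exact Or.inr m2
    · exact Or.inl (Or.inr hz)
  · rintro z (rfl | rfl | hz) c
    · omega
    · omega
    · exact comp_mono inter_subset_left _ hz
  · rintro z ((hz | hz) | hz) c c'
    · exact (comp_subset _ _ hz).2 (yR z c')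
    · exact hn (Conn.trans c' (Conn.mono hz inter_subset_left).symm)
    · have := mem_inn.mp hz; omega
  · intro g hg b hb c _ lb
    have bC : b ∉ C := fun k => hb (comp_step hg c ⟨k, iO b lb.le⟩)
    have : Esc (comp (C ∩ Out r) x ∪ Inn r) b := by
      by_contra c'
      refine hne b bC lb ⟨?_, c'⟩
      rintro (k | k)
      · exact bC (comp_subset _ _ k).1
      · have := mem_inn.mp k; omega
    refine this.anti ?_
    rintro z ((rfl | rfl | hz) | (hz | hz) | hz)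
    · exact Or.inl (uK a1)
    · exact Or.inr m1
    · exact Or.inl (s1 hz)
    · exact Or.inl (uK hz)
    · exact Or.inl (s2 hz)
    · exact Or.inr hz

lemma ins_of_cn {u R : Set V} {a b : V} (ha : a ∈ Ins r u) (k : Cn R a b)
    (hR : ∀ z ∈ R, z ∉ u ∪ Inn r) : b ∈ Ins r u :=
  ⟨hR b k.right_mem, fun c => ha.2 (c.of_cn k hR)⟩

lemma ins_finite_ring (r : ℤ) (u : Set V) : (Ins r u ∩ Ring (r + 1)).Finite :=
  (ring_finite _).subset inter_subset_right

lemma ins_nest {u v : Set V} (hu : ∀ a ∈ u, ∀ b ∈ u, Cn u a b) (ou : ∀ a ∈ u, r < lv a)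
    (bu : ∀ a ∈ u, lv a < N) (bv : ∀ a ∈ v, lv a < N) (h : v ⊆ Ins r u) : Ins r v ⊆ Ins r u := by
  intro g hg
  have dj : ∀ z ∈ u, z ∉ v ∪ Inn r := by
    rintro z hz (k | k)
    · exact (h k).1 (Or.inl hz)
    · have := ou z hz; have := mem_inn.mp k; omega
  refine ⟨?_, fun c => hg.2 (c.self.anti ?_)⟩
  · rintro (k | k)
    · obtain ⟨t, t1, t2⟩ := exists_top (K := u ∪ v) (N := N) (fun z hz => hz.elim (bu z) (bv z))
        ⟨g, Or.inl k⟩
      have lt := (ou g k).trans_le (t2 g (Or.inl k))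
      rcases t1 with t1 | t1
      · refine hg.2 ((esc_top (dj t t1) ?_).of_cn (hu g k t t1) dj)
        rintro z (hz | hz)
        · exact t2 z (Or.inr hz)
        · have := mem_inn.mp hz; omega
      · refine (h t1).2 (esc_top (h t1).1 ?_)
        rintro z (hz | hz)
        · exact t2 z (Or.inl hz)
        · have := mem_inn.mp hz; omega
    · exact hg.1 (Or.inr k)
  · rintro z (hz | hz) c'
    · exact (h hz).2 c'
    · exact Esc.notMem c' (Or.inr hz)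

lemma ins_disjoint {u v : Set V} (bu : ∀ a ∈ u, lv a < N)
    (hu : ∀ a ∈ u, Esc (v ∪ Inn r) a) (hv : ∀ a ∈ v, Esc (u ∪ Inn r) a) :
    Disjoint (Ins r u) (Ins r v) := by
  rw [Set.disjoint_left]
  intro g g1 g2
  have lg : r < lv g := not_le.mp fun k => g1.1 (Or.inr k)
  obtain ⟨y, y1, y2⟩ := radial g (N - lv g).toNat
  have oR : ∀ z ∈ insert g {z | lv g < lv z}, z ∉ Inn r := by
    rintro z (rfl | hz) k
    · exact g1.1 (Or.inr k)
    · have := mem_inn.mp k; change lv g < lv z at hz; omega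
  rcases y2.first_hit (u ∪ v) with k | ⟨a, k1, k2, -⟩
  · refine g1.2 (Esc.of_cn (esc_top (fun c => c.elim (fun c => k.right_mem.2 (Or.inl c))
      (oR y k.right_mem.1)) ?_) k fun z hz c => c.elim (fun c => hz.2 (Or.inl c)) (oR z hz.1))
    rintro z (hz | hz)
    · have := bu z hz; omega
    · have := mem_inn.mp hz; omega
  · rcases k1 with k1 | k1
    · refine g2.2 ((hu a k1).of_cn k2 ?_)
      rintro z (rfl | hz)
      · exact (hu z k1).notMem
      · exact fun c => c.elim (fun c => hz.2 (Or.inr c)) (oR z hz.1)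
    · refine g1.2 ((hv a k1).of_cn k2 ?_)
      rintro z (rfl | hz)
      · exact (hv z k1).notMem
      · exact fun c => c.elim (fun c => hz.2 (Or.inl c)) (oR z hz.1)

lemma Mn.rainbow (h : Mn η S0 X W r N ρa S) (j : ℕ) : ∀ C : Set V, C = S ∨ C = Sᶜ → ∀ x ∈ C,
    r + 1 + j * (W + 1) ≤ lv x → r + j * (W + 1) ≤ ρa → Free X (comp (C ∩ Out r) x) →
    j ≤ (Ins r (comp (C ∩ Out r) x) ∩ Ring (r + 1)).ncard := by
  induction j with
  | zero => intros; omega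
  | succ j ih =>
    intro C hC x hx h1 h2 hf
    have hj : (0 : ℤ) ≤ j * (W + 1) := by positivity
    push_cast at h1 h2
    obtain ⟨x', a1, a2, a3⟩ := h.step hC hx (ρ := r + 1 + j * (W + 1)) (by omega) (by linarith)
      (by linarith) hf
    have hC' : Cᶜ = S ∨ Cᶜ = Sᶜ := by
      rcases hC with rfl | rfl
      · exact Or.inr rfl
      · exact Or.inl (compl_compl _)
    have sub : comp (Cᶜ ∩ Out r) x' ⊆ Ins r (comp (C ∩ Out r) x) := fun z hz =>
      ins_of_cn a3 hz (by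
        rintro w hw (k | k)
        · exact hw.1 (comp_subset _ _ k).1
        · have := mem_out.mp hw.2; have := mem_inn.mp k; omega)
    have xe : ∀ y ∈ X, Esc (comp (C ∩ Out r) x ∪ Inn r) y := fun y hy => (h.hX y hy).anti (by
      rintro z (hz | hz) k
      · exact (hf z hz).1 k
      · have := h.hX' z k; have := mem_inn.mp hz; linarith)
    have hf' : Free X (comp (Cᶜ ∩ Out r) x') := fun z hz =>
      ⟨fun k => (sub hz).2 (xe z k), fun ⟨y, k1, k2⟩ => (sub hz).2 ((xe y k1).of_adj k2 (sub hz).1)⟩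
    have b1 := ih Cᶜ hC' x' a1 a2.ge (by linarith) hf'
    obtain ⟨e, e1, e2⟩ := h.col_root hC' a1 (by omega) hf'
    refine Nat.succ_le_of_lt (b1.trans_lt (ncard_lt_ncard ⟨inter_subset_inter_left _
      (ins_nest (N := N) (fun a ha b hb => cn_comp' ha hb) (fun a ha => (comp_subset _ _ ha).2)
        (fun a ha => h.free_lt hf ha) (fun a ha => h.free_lt hf' ha) sub), fun k => ?_⟩
      (ins_finite_ring _ _)))
    exact (k ⟨sub e1, e2⟩).1.1 (Or.inl e1)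

/-- white squares joined to infinity above level `ρ` -/
def Sea (S : Set V) (ρ : ℤ) : Set V := {g | Esc (S ∪ Inn ρ) g}

lemma sea_mono {ρ ρ' : ℤ} (h : ρ ≤ ρ') : Sea S ρ' ⊆ Sea S ρ := fun _ hg =>
  Esc.anti hg (union_subset_union_right _ fun _ hz => le_trans hz h)

lemma Mn.x_sea (h : Mn η S0 X W r N ρa S) {ρ : ℤ} (hρ : ρ ≤ ρa) {x : V} (hx : x ∈ X) :
    x ∈ Sea S ρ := (h.hX x hx).anti (by
  rintro z (hz | hz) k
  · exact h.adm.dis z k hz
  · have := h.hX' z k; have := mem_inn.mp hz; omega)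

lemma dg_level {a b c d : V} {ρ : ℤ} (h : Dg a c b d) (ha : ρ ≤ lv a) (hb : lv b < ρ)
    (hc : ρ ≤ lv c) : lv d = ρ := by
  rcases h.cases with ⟨h1, h2, h3⟩ | ⟨h1, h2, h3⟩ | ⟨h1, h2, h3⟩ | ⟨h1, h2, h3⟩ | ⟨h1, h2, h3⟩ |
    ⟨h1, h2, h3⟩ | ⟨h1, h2, h3⟩ | ⟨h1, h2, h3⟩ <;>
  · simp only [lv, Prod.ext_iff, Prod.fst_add, Prod.snd_add] at h1 h2 h3 ha hb hc ⊢
    omega

lemma exists_mid {p a c : V} (h1 : InB p a) (h2 : InB p c) (h3 : c ≠ a) (h4 : ¬adj a c) :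
    ∃ b, InB p b ∧ adj a b ∧ c ≠ b := by
  refine ⟨(a.1, c.2), ⟨h1.1, h2.2⟩, ?_, ?_⟩
  · simp only [InB, adj, ne_eq, Prod.ext_iff, true_and] at *
    omega
  · simp only [InB, adj, ne_eq, Prod.ext_iff, and_true] at *
    omega

lemma Mn.gate (h : Mn η S0 X W r N ρa S) {ρ : ℤ} (h1 : r < ρ) (h2 : ρ ≤ ρa) :
    ∃ j ∈ Sea S (ρ - 1), ∃ y1 ∈ comp (Sᶜ ∩ Ring ρ) j, ∃ y2 ∈ comp (Sᶜ ∩ Ring ρ) j, ∃ g1 ∈ S,
      ∃ g2 ∈ S, adj g1 y1 ∧ adj g2 y2 ∧ ¬Cn S g1 g2 := by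
  classical
  by_contra hn
  push Not at hn
  obtain ⟨⟨a1, a2⟩, p1, p2, ⟨x1, p3, p3'⟩, ⟨x2, p4, p4'⟩, p5⟩ := h.ne
  simp only at p1 p2 p3' p4' p5
  set U := Sea S (ρ - 1) with hU
  have nU : ∀ g ∈ U, g ∉ S ∧ ρ ≤ lv g := fun g hg =>
    ⟨fun k => Esc.notMem hg (Or.inl k), by
      by_contra k; exact Esc.notMem hg (Or.inr (mem_inn.mpr (by omega)))⟩
  have sU : ∀ g ∈ U, ∀ y ∉ S, ρ ≤ lv y → adj y g → y ∈ U := fun g hg y y1 y2 k =>
    Esc.of_adj hg k fun c => c.elim y1 fun c => by have := mem_inn.mp c; omega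
  let τ : V → Prop := fun v => Cn S a1 v ∨ ∃ y ∈ comp (Sᶜ ∩ Ring ρ) v, ∃ g, adj g y ∧ Cn S a1 g
  let Rel : V → Prop := fun v => v ∈ S ∨ v ∈ U ∧ lv v = ρ
  have tb : ∀ v ∈ S, τ v → Cn S a1 v := fun v hv t =>
    t.resolve_right fun ⟨_, k, _⟩ => (Conn.left_mem k).1 hv
  have F : ∀ v v', Rel v → Rel v' → adj v v' → τ v → τ v' := by
    rintro v v' (hv | hv) (hv' | hv') k t
    · exact Or.inl ((tb v hv t).tail k trivial hv')
    · exact Or.inr ⟨v', mem_comp ⟨(nU _ hv'.1).1, hv'.2⟩, v, k, tb v hv t⟩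
    · rcases t with t | ⟨y, t1, g, t2, t3⟩
      · exact ((nU _ hv.1).1 t.right_mem).elim
      · exact Or.inl (t3.trans (hn v hv.1 y t1 v (mem_comp ⟨(nU _ hv.1).1, hv.2⟩) g t3.right_mem v' hv'
          t2 k.symm))
    · rcases t with t | ⟨y, t1, g, t2, t3⟩
      · exact ((nU _ hv.1).1 t.right_mem).elim
      · exact Or.inr ⟨y, (Cn.step (R := Sᶜ ∩ Ring ρ) ⟨(nU _ hv'.1).1, hv'.2⟩
          ⟨(nU _ hv.1).1, hv.2⟩ k.symm).trans t1,
          g, t2, t3⟩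
  have rep : ∀ a b, adj a b → a ∈ U → b ∉ U → (ρ ≤ lv b → b ∈ S) ∧ (¬ρ ≤ lv b → lv a = ρ) := by
    intro a b k ha hb
    refine ⟨fun c => not_not.mp fun c' => hb (sU a ha b c' c k.symm), fun c => ?_⟩
    have := lv_adj k.symm
    have := (nU a ha).2
    omega
  have G : ∀ p v v', InB p v → InB p v' → Rel v → Rel v' → ρ ≤ lv v → ρ ≤ lv v' →
      (v ∈ S ∨ ∃ b, InB p b ∧ adj v b ∧ lv b < ρ) → (v' ∈ S ∨ ∃ b, InB p b ∧ adj v' b ∧ lv b < ρ) →
      τ v → τ v' := by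
    have half : ∀ p v v' b, InB p v → InB p v' → InB p b → v ∉ S → Rel v → ρ ≤ lv v' → adj v b →
        lv b < ρ → v' ≠ v → ¬adj v v' → ∃ w, Rel w ∧ adj v w ∧ adj v' w := by
      intro p v v' b i1 i2 i3 c0 c1 c2 c3 c4 c5 c6
      have d := dg_of_inB c3 i2 i1 i3 c5 (by rintro rfl; omega) c6
      have c7 := c1.resolve_left c0
      have c8 := dg_level d c7.2.ge c4 c2
      refine ⟨_, ?_, d.2.1, d.2.2.2.1⟩
      by_cases c9 : v + v' - b ∈ S
      · exact Or.inl c9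
      · exact Or.inr ⟨sU v c7.1 _ c9 c8.ge d.2.1.symm, c8⟩
    intro p v v' i1 i2 r1 r2 l1 l2 o1 o2 t
    by_cases c5 : v' = v
    · rwa [c5]
    by_cases c6 : adj v v'
    · exact F v v' r1 r2 c6 t
    have : ∃ w, Rel w ∧ adj v w ∧ adj v' w := by
      by_cases s1 : v ∈ S
      · by_cases s2 : v' ∈ S
        · obtain ⟨b, i3, c3, c7⟩ := exists_mid i1 i2 c5 c6
          have d := dg_of_inB c3 i2 i1 i3 c5 c7 c6
          by_cases s3 : b ∈ S
          · exact ⟨b, Or.inl s3, d.1, d.2.2.1⟩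
          · exact ⟨_, Or.inl (not_not.mp (h.adm.pf _ _ _ _ d s1 s2 s3)), d.2.1, d.2.2.2.1⟩
        · obtain ⟨b, i3, c3, c4⟩ := o2.resolve_left s2
          obtain ⟨w, w1, w2, w3⟩ := half p v' v b i2 i1 i3 s2 r2 l1 c3 c4 (Ne.symm c5)
            fun k => c6 k.symm
          exact ⟨w, w1, w3, w2⟩
      · obtain ⟨b, i3, c3, c4⟩ := o1.resolve_left s1
        exact half p v v' b i1 i2 i3 s1 r1 l2 c3 c4 c5 c6
    obtain ⟨w, w1, w2, w3⟩ := this
    exact F w v' w1 r2 w3.symm (F v w r1 w1 w2 t)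
  have x1U : x1 ∈ U := h.x_sea (by omega) p3
  have x2U : x2 ∈ U := h.x_sea (by omega) p4
  have l1 : ρ ≤ lv a1 := by have := lv_adj p3'; have := h.hX' x1 p3; omega
  have l2 : ρ ≤ lv a2 := by have := lv_adj p4'; have := h.hX' x2 p4; omega
  obtain ⟨q1, q1a, q1b⟩ := h.rooted p1
  obtain ⟨q2, q2a, q2b⟩ := h.rooted p2
  have SU : S ⊆ Uᶜ := fun g hg k => (nU g k).1 hg
  have fin := boundary_const (U := U) (N := N) (T := fun a b => τ (if ρ ≤ lv b then b else a))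
    (fun g hg => by by_contra k; exact hg (h.x_sea (by omega) (h.hN g (by omega))))
    (fun p a b a' b' i1 i2 i3 i4 k k' m1 m2 m3 m4 => ?_) p3'.symm p4'.symm (Esc.self x1U)
    (Esc.self x2U) (((q1b.mono SU).trans ((cn_inner q1a q2a).mono fun g hg k => by
      have := (nU g k).2; change lv g ≤ r at hg; omega)).trans (q2b.mono SU).symm)
    (by rw [if_pos l1]; exact Or.inl (Conn.refl p1))
  · rw [if_pos l2] at fin
    exact p5 (tb a2 p2 fin)
  · have pr : ∀ a b, InB p a → InB p b → adj a b → a ∈ U → b ∉ U →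
        InB p (if ρ ≤ lv b then b else a) ∧ Rel (if ρ ≤ lv b then b else a) ∧
        ρ ≤ lv (if ρ ≤ lv b then b else a) ∧ ((if ρ ≤ lv b then b else a) ∈ S ∨
          ∃ c, InB p c ∧ adj (if ρ ≤ lv b then b else a) c ∧ lv c < ρ) := by
      intro a b i1 i2 k m1 m2
      have := rep a b k m1 m2
      split_ifs with c
      · exact ⟨i2, Or.inl (this.1 c), c, Or.inl (this.1 c)⟩
      · exact ⟨i1, Or.inr ⟨m1, this.2 c⟩, (this.2 c).ge, Or.inr ⟨b, i2, k, by omega⟩⟩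
    obtain ⟨u1, u2, u3, u4⟩ := pr a b i1 i2 k m1 m2
    obtain ⟨v1, v2, v3, v4⟩ := pr a' b' i3 i4 k' m3 m4
    exact G p _ _ u1 v1 u2 v2 u3 v3 u4 v4

lemma Mn.fresh (h : Mn η S0 X W r N ρa S) {ρ : ℤ} (h1 : r + 2 * W + 3 < ρ) (h2 : ρ ≤ ρa) :
    ∃ g ∈ S, ∃ y ∈ Sea S (ρ - (2 * W + 3)), adj g y ∧
      ∀ g' ∈ comp (S ∩ Out r) g, ∀ y ∈ Sea S ρ, ¬adj g' y := by
  by_contra hn
  push Not at hn
  obtain ⟨j, j0, y1, m1, y2, m2, g1, s1, g2, s2, a1, a2, hne⟩ :=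
    h.gate (ρ := ρ - W - 1) (by omega) (by omega)
  set J := hull η (comp (Sᶜ ∩ Ring (ρ - W - 1)) j) with hJ
  have wJ : ∀ y ∈ J, y ∉ S := hull_subset h.adm.cl.compl fun z hz => (comp_subset _ _ hz).1
  have cJ : ∀ y ∈ J, ∀ y' ∈ J, Cn J y y' := by
    intro y hy y' hy'
    obtain ⟨a, b1, b2⟩ := cn_hull hy
    obtain ⟨a', b3, b4⟩ := cn_hull hy'
    exact (b2.symm.trans ((cn_comp' b1 b3).mono subset_hull)).trans b4
  have lJ : ∀ y ∈ J, ρ - 2 * W - 1 ≤ lv y ∧ lv y ≤ ρ - 1 := by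
    rintro y ⟨a, b1, b2⟩
    have := h.hW _ _ b2
    have := h.hW _ _ b2.symm
    have := mem_ring.mp (comp_subset _ _ b1).2
    omega
  have lP : ∀ y ∈ plus S J, y ∉ S ∧ ρ - 2 * W - 2 ≤ lv y ∧ lv y ≤ ρ := by
    rintro y (hy | ⟨b1, z, b2, b3⟩)
    · have := lJ y hy; exact ⟨wJ y hy, by omega⟩
    · have := lJ z b2
      have := lv_adj b3
      have := lv_adj b3.symm
      exact ⟨b1, by omega⟩
  have jJ : j ∈ J := subset_hull (mem_comp (Conn.left_mem m1))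
  have sP : ∀ y ∈ plus S J, y ∈ Sea S (ρ - (2 * W + 3)) := fun y hy =>
    Esc.of_cn (sea_mono (by omega) j0) (cn_plus cJ y hy j (Or.inl jJ)) (by
      rintro z hz (k | k)
      · exact (lP z hz).1 k
      · have := (lP z hz).2; have := mem_inn.mp k; omega)
  obtain ⟨q1, l1, r1⟩ := h.rooted s1
  obtain ⟨q2, l2, r2⟩ := h.rooted s2
  have two : ∀ g ∈ S, ∀ y ∈ plus S J, adj g y →
      g ∈ comp (S ∩ Out r) g1 ∨ g ∈ comp (S ∩ Out r) g2 := by
    intro g3 s3 y3 m3 a3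
    by_contra c
    push Not at c
    have pa : ∀ g ∈ S, ∀ y ∈ plus S J, adj g y → g ∈ S ∩ Out r ∧ ∃ c, lv c ≤ r ∧
        Cn (plus S J ∪ comp (S ∩ Out r) g ∪ Inn r) c j := by
      intro g s y m a
      have lg : r < lv g := by have := (lP y m).2; have := lv_adj a; omega
      obtain ⟨q, l, rr⟩ := h.rooted s
      obtain ⟨e, c, d1, d2, -, d3, -⟩ := root rr l lg
      exact ⟨⟨s, lg⟩, c, d3, (((Cn.step (Or.inr d3) (Or.inl (Or.inr d1)) d2.symm).trans
        ((cn_comp d1).symm.mono fun z hz => Or.inl (Or.inr hz))).tail a trivial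
          (Or.inl (Or.inl m))).trans
        ((cn_plus cJ y m j (Or.inl jJ)).mono fun z hz => Or.inl (Or.inl hz))⟩
    have na : ∀ g g' : V, g' ∉ comp (S ∩ Out r) g → ∀ x ∈ comp (S ∩ Out r) g,
        ∀ y ∈ comp (S ∩ Out r) g', x ≠ y ∧ ¬adj x y := fun g g' c x hx y hy =>
      ⟨fun k => c (comp_cn hx (k ▸ Conn.symm hy)),
        fun k => c (comp_cn (comp_step hx k (comp_subset _ _ hy)) (Conn.symm hy))⟩
    have es : ∀ g ∈ S, ∀ y ∈ plus S J, adj g y → ∀ u v : Set V, u ⊆ S → v ⊆ S →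
        (∀ x ∈ comp (S ∩ Out r) g, x ∉ u ∧ x ∉ v) →
        ∀ x ∈ comp (S ∩ Out r) g, Esc (plus S J ∪ u ∪ v ∪ Inn r) x := by
      intro g s y m a u v hu hv hd x hx
      obtain ⟨g', b1, y', b2, b3⟩ := hn g s y (sP y m) a
      have dj : ∀ z ∈ comp (S ∩ Out r) g, z ∉ plus S J ∪ u ∪ v ∪ Inn r := by
        rintro z hz (((k | k) | k) | k)
        · exact (lP z k).1 (comp_subset _ _ hz).1
        · exact (hd z hz).1 k
        · exact (hd z hz).2 k
        · have := mem_out.mp (comp_subset _ _ hz).2; have := mem_inn.mp k; omega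
      refine (Esc.of_adj (Esc.anti b2 ?_) b3 (dj g' b1)).of_cn (cn_comp' hx b1) dj
      rintro z (((k | k) | k) | k)
      · exact Or.inr (lP z k).2.2
      · exact Or.inl (hu k)
      · exact Or.inl (hv k)
      · exact Or.inr (mem_inn.mpr (by have := mem_inn.mp k; omega))
    have m1' : y1 ∈ plus S J := Or.inl (subset_hull m1)
    have m2' : y2 ∈ plus S J := Or.inl (subset_hull m2)
    obtain ⟨-, c1, d1, e1⟩ := pa g1 s1 y1 m1' a1
    obtain ⟨-, c2, d2, e2⟩ := pa g2 s2 y2 m2' a2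
    obtain ⟨-, c3, d3, e3⟩ := pa g3 s3 y3 m3 a3
    have n12 := na g1 g2 fun k => hne (Conn.mono k inter_subset_left)
    have n13 := na g1 g3 c.1
    have n23 := na g2 g3 c.2
    have sb : ∀ g : V, comp (S ∩ Out r) g ⊆ S := fun g z hz => (comp_subset _ _ hz).1
    exact three (fun g hg => by have := (lP g hg).2; omega) (Or.inl jJ) d1 d2 d3 e1 e2 e3
      (fun x hx y hy => (n12 x hx y hy).2) (fun x hx y hy => (n13 x hx y hy).2)
      (fun x hx y hy => (n23 x hx y hy).2)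
      (es g1 s1 y1 m1' a1 _ _ (sb _) (sb _) fun x hx =>
        ⟨fun k => (n12 x hx x k).1 rfl, fun k => (n13 x hx x k).1 rfl⟩)
      (es g2 s2 y2 m2' a2 _ _ (sb _) (sb _) fun x hx =>
        ⟨fun k => (n12 x k x hx).1 rfl, fun k => (n23 x hx x k).1 rfl⟩)
      (es g3 s3 y3 m3 a3 _ _ (sb _) (sb _) fun x hx =>
        ⟨fun k => (n13 x k x hx).1 rfl, fun k => (n23 x k x hx).1 rfl⟩)
  obtain ⟨S', k1, k2⟩ := h.adm.merge h.hX h.hN cl_hull wJ cJ (fun y hy => ⟨fun k => by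
    have := h.hX' y k; have := (lP y hy).2; omega, by have := (lP y hy).2; omega⟩)
    (subset_hull m1) (subset_hull m2) a1 a2 hne r1 r2 l1 l2 two
  exact h.m1 S' k1 k2

lemma Mn.false {r T : ℕ} (h : Mn η S0 X W r N ρa S) (hT : 4 * (2 * (r + 1) + 1) < T * T)
    (hρ : r + 1 + T * (W + 1) + T * (2 * W + 3) ≤ ρa) : False := by
  have hTW : (0 : ℤ) ≤ T * (W + 1) := by positivity
  have ex : ∀ k : ℕ, k < T → ∃ g ∈ S, ∃ y ∈ Sea S (ρa - (k + 1) * (2 * W + 3)), adj g y ∧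
      ∀ g' ∈ comp (S ∩ Out r) g, ∀ y ∈ Sea S (ρa - k * (2 * W + 3)), ¬adj g' y := by
    intro k hk
    have b1 : ((k : ℤ) + 1) * (2 * W + 3) ≤ T * (2 * W + 3) := by gcongr; exact_mod_cast hk
    have b2 : (0 : ℤ) ≤ k * (2 * W + 3) := by positivity
    have := h.fresh (ρ := ρa - k * (2 * W + 3)) (by linarith) (by linarith)
    rwa [show ρa - k * (2 * W + 3) - (2 * W + 3) = ρa - (k + 1) * (2 * W + 3) by ring] at this
  choose! g g1 y y1 y2 y3 using ex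
  have lo : ∀ k : ℕ, k < T → r + 1 + T * (W + 1) ≤ ρa - (k + 1) * (2 * W + 3) := by
    intro k hk
    have b1 : ((k : ℤ) + 1) * (2 * W + 3) ≤ T * (2 * W + 3) := by gcongr; exact_mod_cast hk
    linarith
  have lg : ∀ k : ℕ, k < T → r + 1 + T * (W + 1) ≤ lv (g k) := by
    intro k hk
    have b1 := lo k hk
    have b2 := lv_adj (y2 k hk)
    have b3 : ¬lv (y k) ≤ ρa - (k + 1) * (2 * W + 3) := fun c => Esc.notMem (y1 k hk) (Or.inr c)
    omega
  have fr : ∀ k : ℕ, k < T → Free X (comp (S ∩ Out r) (g k)) := fun k hk z hz =>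
    ⟨fun c => h.adm.dis z c (comp_subset _ _ hz).1, fun ⟨x, c1, c2⟩ => y3 k hk z hz x
      (h.x_sea (by have : (0 : ℤ) ≤ k * (2 * W + 3) := by positivity
                   linarith) c1) c2⟩
  have mg : ∀ k : ℕ, k < T → g k ∈ comp (S ∩ Out r) (g k) := fun k hk =>
    mem_comp ⟨g1 k hk, by have := lg k hk; rw [mem_out]; omega⟩
  have dis : ∀ k l : ℕ, k < l → l < T → ∀ z ∈ comp (S ∩ Out r) (g k),
      z ∉ comp (S ∩ Out r) (g l) := by
    intro k l hkl hl z c1 c2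
    have b1 : ((k : ℤ) + 1) * (2 * W + 3) ≤ l * (2 * W + 3) := by gcongr; exact_mod_cast hkl
    exact y3 l hl (g k) (comp_cn c2 (Conn.symm c1)) (y k) (sea_mono (by linarith) (y1 k (by omega)))
      (y2 k (by omega))
  have es : ∀ k l : ℕ, k ≠ l → k < T → l < T → ∀ z ∈ comp (S ∩ Out r) (g k),
      Esc (comp (S ∩ Out r) (g l) ∪ Inn r) z := by
    intro k l hkl hk hl z hz
    have dj : ∀ w ∈ comp (S ∩ Out r) (g k), w ∉ comp (S ∩ Out r) (g l) ∪ Inn r := by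
      rintro w hw (c | c)
      · rcases lt_or_gt_of_ne hkl with c' | c'
        · exact dis k l c' hl w hw c
        · exact dis l k c' hk w c hw
      · have := mem_out.mp (comp_subset _ _ hw).2; have := mem_inn.mp c; omega
    refine (Esc.of_adj (Esc.anti (y1 k hk) ?_) (y2 k hk) (dj _ (mg k hk))).of_cn (cn_comp hz).symm dj
    · rintro w (c | c)
      · exact Or.inl (comp_subset _ _ c).1
      · exact Or.inr (mem_inn.mpr (by have := lo k hk; have := mem_inn.mp c; omega))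
  have cnt : ∀ n ≤ T, n * T ≤ (⋃ k ∈ Finset.range n,
      Ins r (comp (S ∩ Out r) (g k)) ∩ Ring (r + 1)).ncard := by
    intro n
    induction n with
    | zero => simp
    | succ n ih =>
      intro hn
      rw [Finset.range_add_one, Finset.set_biUnion_insert, ncard_union_eq ?_ (ins_finite_ring _ _)
        ((ring_finite (r + 1)).subset (iUnion₂_subset fun _ _ => inter_subset_right))]
      · have b1 := h.rainbow T S (Or.inl rfl) (g n) (g1 n hn) (lg n hn)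
          (by have : (0 : ℤ) ≤ T * (2 * W + 3) := by positivity
              linarith) (fr n hn)
        have b2 := ih (by omega)
        nlinarith
      · refine disjoint_iUnion₂_right.mpr fun k hk => ?_
        have hk' := Finset.mem_range.mp hk
        exact (ins_disjoint (N := N) (fun a ha => h.free_lt (fr n hn) ha)
          (es n k (by omega) hn (by omega))
          (es k n (by omega) (by omega) hn)).mono inter_subset_left inter_subset_left
  have b1 := (cnt T le_rfl).trans ((ncard_le_ncard (iUnion₂_subset fun _ _ => inter_subset_right)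
    (ring_finite _)).trans (ncard_ring (r + 1)))
  omega

/-- the merge theorem -/
theorem merge {r T : ℕ} (hW : ∀ a b, Conn η univ a b → lv b ≤ lv a + W) (c0 : Cl η S0)
    (p0 : ∀ g1 g2 w1 w2, Dg g1 g2 w1 w2 → lv g1 < N - 1 → g1 ∈ S0 → g2 ∈ S0 → w1 ∉ S0 → w2 ∉ S0 →
      False)
    (hb : ∀ g ∈ S0, ∃ y, N ≤ lv y ∧ Cn S0 g y) (hw : ∀ g ∉ S0, ∃ y, N ≤ lv y ∧ Cn S0ᶜ g y)
    (hT : 4 * (2 * (r + 1) + 1) < T * T)
    (hT' : 4 * (2 * (r + 1 + T * (3 * W + 4) + 1) + 1) < 2 ^ (T + 1))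
    (hN : r + 2 * W + 3 + T * (4 * W + 5) < N) :
    ∃ S : Set V, Cl η S ∧ (∀ g ∈ S, lv g < N) ∧ (∀ g, lv g ≤ r → (g ∈ S ↔ g ∈ S0)) ∧
      (∀ g ∉ S, Esc S g) ∧ ∀ a ∈ S, ∀ b ∈ S, Cn S a b := by
  obtain ⟨K, X, k1, k2, k3, k4, k5, k6, k7⟩ := cut (ρ := r + 1 + T * (3 * W + 4)) hW c0 p0 hb hw hT'
    (by push_cast; linarith)
  have hT0 : (0 : ℤ) ≤ T * (3 * W + 4) := by positivity
  have a0 : Adm η S0 X r K := ⟨k1, fun x hx => (k5 x hx).1,
    fun g hg => k2 g (by push_cast; linarith), k3, k4,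
    fun g hg => let ⟨a, x, b1, b2, b3⟩ := k7 g hg; ⟨a, b1, x, b3, b2⟩⟩
  have fin : {S | Adm η S0 X r S}.Finite :=
    (lv_finite N).finite_subsets.subset fun S hS g hg => (hS.lt k6 hg).le
  obtain ⟨S1, s1, s2⟩ := exists_min_image _ (fun S => (DD X S).ncard) fin ⟨K, a0⟩
  obtain ⟨S, ⟨s3, s4⟩, s5⟩ := exists_min_image {S | Adm η S0 X r S ∧ (DD X S).ncard ≤ (DD X S1).ncard}
    (Phi N) (fin.subset fun S hS => hS.1) ⟨S1, s1, le_rfl⟩
  refine ⟨S, s3.cl, fun g hg => s3.lt k6 hg, s3.agree, s3.esc, fun a ha b hb => ?_⟩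
  by_contra hn
  obtain ⟨a', b1, b2⟩ := s3.anch a ha
  obtain ⟨b', b3, b4⟩ := s3.anch b hb
  refine Mn.false (T := T) (ρa := (r + 1 + T * (3 * W + 4) : ℕ)) ⟨hW, fun x hx => (k5 x hx).2.2,
    fun x hx => (k5 x hx).2.1, k6, by positivity, s3,
    ⟨(a', b'), b1.right_mem, b3.right_mem, b2, b4, fun k => hn ((b1.trans k).trans b3.symm)⟩,
    fun S' c1 c2 => ?_, fun S' c1 c2 => s5 S' ⟨c1, (ncard_le_ncard c2 (s3.dd_finite k6)).trans s4⟩⟩
    hT (by push_cast; linarith)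
  have := ncard_lt_ncard c2 (s3.dd_finite k6)
  have := s2 S' c1
  omega

end Pool.Agent.Lib.LP93
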