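import Pool.Agent.Lib.LP93.Cut

/-! Admissible colourings and the elementary operations on them. -/

open Set

namespace Pool.Agent.Lib.LP93

open Pool.Agent.Lib.helper98 Pool.Agent.Lib.MP_db3ceb_pr

lemma arm {P1 P2 J : Set V} {a k : V} {ρ : ℤ} (c1 : Cn P1 a k) (c2 : Cn P2 a k) (ha : lv a < ρ)
    (hk : ρ < lv k) (h1 : ∀ g ∈ P1, lv g = ρ → g ∈ J) (h2 : ∀ g ∈ P2, lv g = ρ → g ∉ J)
    (h3 : ∀ g ∈ J, ∀ b ∉ J, adj g b → lv g = ρ → lv b = ρ → Esc (P1 ∪ P2) b) : False := by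
  classical
  obtain ⟨q1, a1, a2, a3⟩ := exists_chain c1
  obtain ⟨q2, b1, b2, b3⟩ := exists_chain c2
  obtain ⟨s, hs⟩ := exists_pot (a1.add b1) fun g => by rw [bd_add, a3, b3, f2_add_self]
  have su : Supp (q1 + q2) (P1 ∪ P2) := (a2.mono subset_union_left).add (b2.mono subset_union_right)
  refine ring_lemma (t := fun g => if g ∈ J then s g else 0) a3 ha hk fun x y k hx hy => ?_
  have e := hs.1 x y k
  rw [Pi.add_apply] at e
  by_cases jx : x ∈ J <;> by_cases jy : y ∈ J <;> simp only [jx, jy, if_true, if_false]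
  · rw [e, b2.partner_zero k (fun h => h2 x h hx jx) fun h => h2 y h hy jy, add_zero]
  · have := h3 x jx y jy k hx hy
    rw [hs.esc su this, b2.partner_zero k (fun h => h2 x h hx jx)
      fun h => this.notMem (Or.inr h), add_zero (q1 _)] at e
    exact e.symm
  · have := h3 y jy x jx k.symm hy hx
    rw [hs.esc su this, b2.partner_zero k (fun h => this.notMem (Or.inr h))
      fun h => h2 y h hy jy, add_zero (q1 _)] at e
    exact e.symm
  · rw [a2.partner_zero k (fun h => jx (h1 x h hx)) fun h => jy (h1 y h hy), add_zero]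

/-- three disjoint connections between a hub and a box cannot all be visible from infinity -/
lemma three {A u1 u2 u3 : Set V} {r : ℤ} {a c1 c2 c3 : V} (hA : ∀ g ∈ A, r + 1 < lv g) (ha : a ∈ A)
    (l1 : lv c1 ≤ r) (l2 : lv c2 ≤ r) (l3 : lv c3 ≤ r) (p1 : Cn (A ∪ u1 ∪ Inn r) c1 a)
    (p2 : Cn (A ∪ u2 ∪ Inn r) c2 a) (p3 : Cn (A ∪ u3 ∪ Inn r) c3 a)
    (n12 : ∀ x ∈ u1, ∀ y ∈ u2, ¬adj x y) (n13 : ∀ x ∈ u1, ∀ y ∈ u3, ¬adj x y)
    (n23 : ∀ x ∈ u2, ∀ y ∈ u3, ¬adj x y)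
    (e1 : ∀ x ∈ u1, Esc (A ∪ u2 ∪ u3 ∪ Inn r) x) (e2 : ∀ x ∈ u2, Esc (A ∪ u1 ∪ u3 ∪ Inn r) x)
    (e3 : ∀ x ∈ u3, Esc (A ∪ u1 ∪ u2 ∪ Inn r) x) : False := by
  obtain ⟨q1, a1, a2, a3⟩ := exists_chain p1
  obtain ⟨q2, b1, b2, b3⟩ := exists_chain (R := A ∪ u2 ∪ Inn r)
    (((cn_inner l1 l2).mono subset_union_right).trans p2)
  obtain ⟨q3, d1, d2, d3⟩ := exists_chain (R := A ∪ u3 ∪ Inn r)
    (((cn_inner l1 l3).mono subset_union_right).trans p3)
  obtain ⟨s, hs⟩ := exists_pot (a1.add b1) fun g => by rw [bd_add, a3, b3, f2_add_self]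
  obtain ⟨t, ht⟩ := exists_pot (a1.add d1) fun g => by rw [bd_add, a3, d3, f2_add_self]
  have s3 : ∀ x ∈ u3, s x = 0 := fun x hx => hs.esc ((a2.mono (by intro z; simp only [mem_union]; tauto)).add (b2.mono (by intro z; simp only [mem_union]; tauto)))
    (e3 x hx)
  have s2 : ∀ x ∈ u2, t x = 0 := fun x hx => ht.esc ((a2.mono (by intro z; simp only [mem_union]; tauto)).add (d2.mono (by intro z; simp only [mem_union]; tauto)))
    (e2 x hx)
  have s1 : ∀ x ∈ u1, s x + t x = 0 := fun x hx => (hs.add ht).esc (by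
    have : q1 + q2 + (q1 + q3) = q2 + q3 := by
      funext e; simp only [Pi.add_apply]; linear_combination f2_add_self (q1 e)
    rw [this]
    exact (b2.mono (by intro z; simp only [mem_union]; tauto)).add (d2.mono (by intro z; simp only [mem_union]; tauto))) (e1 x hx)
  refine ring_lemma (ρ := r + 1) (t := fun g => s g * t g) a3 (by omega) (hA a ha)
    fun x y k hx hy => ?_
  have f1 := hs.1 x y k
  have f2 := ht.1 x y k
  rw [Pi.add_apply] at f1 f2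
  have z : ∀ {q : V → F2} {u : Set V}, Supp q (A ∪ u ∪ Inn r) → x ∉ u → y ∉ u →
      q (x + y + (1, 1)) = 0 := by
    intro q u hq h1 h2
    refine hq.partner_zero k ?_ ?_
    · rintro ((h | h) | h)
      · have := hA x h; omega
      · exact h1 h
      · have := mem_inn.mp h; omega
    · rintro ((h | h) | h)
      · have := hA y h; omega
      · exact h2 h
      · have := mem_inn.mp h; omega
  have d12 : ∀ x ∈ u1, x ∉ u2 := fun x h h' => (e1 x h).notMem (by simp only [mem_union]; tauto)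
  have d13 : ∀ x ∈ u1, x ∉ u3 := fun x h h' => (e1 x h).notMem (by simp only [mem_union]; tauto)
  have d23 : ∀ x ∈ u2, x ∉ u3 := fun x h h' => (e2 x h).notMem (by simp only [mem_union]; tauto)
  by_cases c1 : x ∈ u1 ∨ y ∈ u1
  · have g2 := z b2 (fun h => c1.elim (fun h' => d12 x h' h) fun h' => n12 y h' x h k.symm)
      fun h => c1.elim (fun h' => n12 x h' y h k) fun h' => d12 y h' h
    have g3 := z d2 (fun h => c1.elim (fun h' => d13 x h' h) fun h' => n13 y h' x h k.symm)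
      fun h => c1.elim (fun h' => n13 x h' y h k) fun h' => d13 y h' h
    have g1 : s x + t x = 0 ∨ s y + t y = 0 := c1.imp (s1 x) (s1 y)
    rw [g2] at f1; rw [g3] at f2
    revert f1 f2 g1
    generalize s x = a, s y = b, t x = c, t y = d, q1 (x + y + (1, 1)) = e
    revert a b c d e; decide
  have g1 := z a2 (fun h => c1 (Or.inl h)) fun h => c1 (Or.inr h)
  rw [g1] at f1 f2 ⊢
  by_cases c2 : x ∈ u2 ∨ y ∈ u2
  · have g3 := z d2 (fun h => c2.elim (fun h' => d23 x h' h) fun h' => n23 y h' x h k.symm)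
      fun h => c2.elim (fun h' => n23 x h' y h k) fun h' => d23 y h' h
    have g2 : t x = 0 ∨ t y = 0 := c2.imp (s2 x) (s2 y)
    rw [g3] at f2
    revert f2 g2
    generalize s x = a, s y = b, t x = c, t y = d
    revert a b c d; decide
  have g2 := z b2 (fun h => c2 (Or.inl h)) fun h => c2 (Or.inr h)
  rw [g2] at f1
  by_cases c3 : x ∈ u3 ∨ y ∈ u3
  · have g3 : s x = 0 ∨ s y = 0 := c3.imp (s3 x) (s3 y)
    revert f1 g3
    generalize s x = a, s y = b, t x = c, t y = d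
    revert a b c d; decide
  · rw [z d2 (fun h => c3 (Or.inl h)) fun h => c3 (Or.inr h)] at f2
    revert f1 f2
    generalize s x = a, s y = b, t x = c, t y = d
    revert a b c d; decide

lemma reroute_aux {C K J : Set V} (h1 : ∀ k ∈ K, ∀ y ∈ C \ K, adj k y → y ∈ J)
    (h2 : ∀ y ∈ J, ∀ y' ∈ J, Cn (C \ K) y y') {a b : V} (h : Cn C a b) (ha : a ∉ K) :
    (b ∉ K → Cn (C \ K) a b) ∧ (b ∈ K → ∃ j ∈ J, Cn (C \ K) a j) := by
  induction h with
  | refl h => exact ⟨fun _ => Conn.refl ⟨h, ha⟩, fun h => (ha h).elim⟩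
  | @tail x y h0 k _ hy ih =>
    by_cases hx : x ∈ K
    · obtain ⟨j, j1, j2⟩ := ih.2 hx
      exact ⟨fun h => j2.trans (h2 j j1 y (h1 x hx y ⟨hy, h⟩ k)), fun _ => ⟨j, j1, j2⟩⟩
    · exact ⟨fun h => (ih.1 hx).tail k trivial ⟨hy, h⟩,
        fun h => ⟨x, h1 y h x ⟨h0.right_mem, hx⟩ k.symm, ih.1 hx⟩⟩

/-- neighbours of the sea -/
def An (X : Set V) (a : V) : Prop := ∃ x ∈ X, adj a x

/-- admissible colourings -/
structure Adm (η : V → Prop) (S0 X : Set V) (r : ℤ) (S : Set V) : Prop where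
  cl : Cl η S
  dis : ∀ x ∈ X, x ∉ S
  agree : ∀ g, lv g ≤ r → (g ∈ S ↔ g ∈ S0)
  esc : ∀ g ∉ S, Esc S g
  pf : PF S
  anch : ∀ g ∈ S, ∃ a, Cn S g a ∧ An X a

/-- unconnected pairs of anchors -/
def DD (X S : Set V) : Set (V × V) :=
  {p | p.1 ∈ S ∧ p.2 ∈ S ∧ An X p.1 ∧ An X p.2 ∧ ¬Cn S p.1 p.2}

variable {η : V → Prop} {S0 X S K J : Set V} {r N : ℤ}

lemma Adm.lt (h : Adm η S0 X r S) (hN : ∀ g, N ≤ lv g → g ∈ X) {g : V} (hg : g ∈ S) : lv g < N := by
  by_contra k; exact h.dis g (hN g (by omega)) hg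

lemma Adm.dd_finite (h : Adm η S0 X r S) (hN : ∀ g, N ≤ lv g → g ∈ X) : (DD X S).Finite :=
  ((lv_finite N).prod (lv_finite N)).subset fun _ hp =>
    ⟨(h.lt hN hp.1).le, (h.lt hN hp.2.1).le⟩

lemma Adm.whiten (h : Adm η S0 X r S) (k2 : Cl η K) (k3 : ∀ k ∈ K, r < lv k)
    (k4 : ∀ k ∈ K, An X k → J = ∅) (k5 : ∀ k ∈ K, ∀ y ∈ S \ K, adj k y → y ∈ J)
    (k6 : ∀ y ∈ J, ∀ y' ∈ J, Cn (S \ K) y y') (k7 : ∀ k ∈ K, ∃ k' w, Cn K k k' ∧ adj k' w ∧ w ∉ S) :
    Adm η S0 X r (S \ K) ∧ DD X (S \ K) ⊆ DD X S := by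
  have esc : ∀ g ∉ S \ K, Esc (S \ K) g := by
    intro g hg
    by_cases hg' : g ∈ K
    · obtain ⟨k', w, a1, a2, a3⟩ := k7 g hg'
      exact (((h.esc w a3).anti sdiff_subset).of_adj a2 fun h => h.2 a1.right_mem).of_cn a1
        fun z hz h => h.2 hz
    · exact (h.esc g fun h => hg ⟨h, hg'⟩).anti sdiff_subset
  refine ⟨⟨h.cl.diff k2, fun x hx k => h.dis x hx k.1, fun g hg => ?_, esc,
    fun g1 g2 w1 w2 d a1 a2 a3 a4 => ?_, fun g hg => ?_⟩, fun p hp => ?_⟩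
  · rw [← h.agree g hg]
    exact ⟨fun k => k.1, fun k => ⟨k, fun k' => by have := k3 g k'; omega⟩⟩
  · by_cases b1 : w1 ∈ K
    · exact pinch d (k6 _ (k5 w1 b1 g1 a1 d.1.symm) _ (k5 w1 b1 g2 a2 d.2.2.1.symm)) (esc _ a3)
        (esc _ a4)
    by_cases b2 : w2 ∈ K
    · exact pinch d (k6 _ (k5 w2 b2 g1 a1 d.2.1.symm) _ (k5 w2 b2 g2 a2 d.2.2.2.1.symm)) (esc _ a3)
        (esc _ a4)
    · exact h.pf _ _ _ _ d a1.1 a2.1 (fun k => a3 ⟨k, b1⟩) fun k => a4 ⟨k, b2⟩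
  · obtain ⟨a, a1, a2⟩ := h.anch g hg.1
    have := reroute_aux k5 k6 a1 hg.2
    by_cases b : a ∈ K
    · obtain ⟨j, j1, -⟩ := this.2 b
      rw [k4 a b a2] at j1
      exact j1.elim
    · exact ⟨a, this.1 b, a2⟩
  · exact ⟨hp.1.1, hp.2.1.1, hp.2.2.1, hp.2.2.2.1,
      fun k => hp.2.2.2.2 ((reroute_aux k5 k6 k hp.1.2).1 hp.2.1.2)⟩

lemma Adm.esc_black (h : Adm η S0 X r S) (hX : ∀ x ∈ X, Esc Xᶜ x) {H : Set V} {g : V} (hg : g ∈ S)
    (h1 : ∀ z ∈ comp S g, z ∉ H) (h2 : ∀ x ∈ X, x ∉ H) : Esc H g := by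
  obtain ⟨a, a1, x, a2, a3⟩ := h.anch g hg
  exact (((hX x a2).anti fun z hz hz' => h2 z hz' hz).of_adj a3 (h1 a a1)).of_cn (cn_comp a1) h1

lemma Adm.blacken (h : Adm η S0 X r S) (hX : ∀ x ∈ X, Esc Xᶜ x) (hN : ∀ g, N ≤ lv g → g ∈ X)
    (k2 : Cl η K) (k3 : ∀ k ∈ K, r < lv k) (k4 : ∀ k ∈ K, k ∉ X ∧ ¬An X k)
    (k5 : ∀ k ∈ K, ∀ y ∈ Sᶜ \ K, adj k y → y ∈ J) (k6 : ∀ y ∈ J, ∀ y' ∈ J, Cn J y y')
    (k6' : ∀ y ∈ J, y ∉ S ∧ y ∉ K ∧ y ∉ X) (k7 : ∀ k ∈ K, ∃ k' w, Cn K k k' ∧ adj k' w ∧ w ∈ S) :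
    Adm η S0 X r (S ∪ K) ∧ DD X (S ∪ K) ⊆ DD X S := by
  refine ⟨⟨h.cl.union k2, fun x hx k => k.elim (h.dis x hx) fun k => (k4 x k).1 hx, fun g hg => ?_,
    fun g hg M => ?_, ?_, fun g hg => ?_⟩, fun p hp => ?_⟩
  · rw [← h.agree g hg]
    exact ⟨fun k => k.resolve_right fun k' => by have := k3 g k'; omega, Or.inl⟩
  · obtain ⟨y, a1, a2⟩ := h.esc g (fun k => hg (Or.inl k)) (max M N)
    refine ⟨y, by omega, ((reroute_aux k5 (fun y hy y' hy' => (k6 y hy y' hy').mono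
      fun z hz => ⟨(k6' z hz).1, (k6' z hz).2.1⟩) a2 fun k => hg (Or.inr k)).1
        fun k => (k4 y k).1 (hN y (by omega))).mono fun z hz k => k.elim hz.1 hz.2⟩
  · have e : ∀ g ∈ S ∪ K, Esc J g := by
      have e1 : ∀ g ∈ S, Esc J g := fun g hg => h.esc_black hX hg
        (fun z hz k => (k6' z k).1 (comp_subset _ _ hz)) fun x hx k => (k6' x k).2.2 hx
      rintro g (hg | hg)
      · exact e1 g hg
      · obtain ⟨k', w, a1, a2, a3⟩ := k7 g hg
        exact ((e1 w a3).of_adj a2 fun k => (k6' _ k).2.1 a1.right_mem).of_cn a1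
          fun z hz k => (k6' z k).2.1 hz
    have key : ∀ g1 g2 w1 w2, Dg g1 g2 w1 w2 → g1 ∈ K → g2 ∈ S ∪ K → w1 ∉ S ∪ K → w2 ∉ S ∪ K →
        False := fun g1 g2 w1 w2 d a1 a2 a3 a4 =>
      pinch d.swap (k6 _ (k5 g1 a1 w1 ⟨fun k => a3 (Or.inl k), fun k => a3 (Or.inr k)⟩ d.1) _
        (k5 g1 a1 w2 ⟨fun k => a4 (Or.inl k), fun k => a4 (Or.inr k)⟩ d.2.1)) (e _ (Or.inr a1))
        (e _ a2)
    rintro g1 g2 w1 w2 d (a1 | a1) a2 a3 a4
    · rcases a2 with a2 | a2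
      · exact h.pf _ _ _ _ d a1 a2 (fun k => a3 (Or.inl k)) fun k => a4 (Or.inl k)
      · exact key _ _ _ _ d.left a2 (Or.inl a1) a3 a4
    · exact key _ _ _ _ d a1 a2 a3 a4
  · rcases hg with hg | hg
    · obtain ⟨a, a1, a2⟩ := h.anch g hg
      exact ⟨a, a1.mono subset_union_left, a2⟩
    · obtain ⟨k', w, a1, a2, a3⟩ := k7 g hg
      obtain ⟨a, a4, a5⟩ := h.anch w a3
      exact ⟨a, ((a1.mono subset_union_right).tail a2 trivial (Or.inl a3)).trans
        (a4.mono subset_union_left), a5⟩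
  · exact ⟨hp.1.resolve_right fun k => (k4 _ k).2 hp.2.2.1,
      hp.2.1.resolve_right fun k => (k4 _ k).2 hp.2.2.2.1, hp.2.2.1, hp.2.2.2.1,
      fun k => hp.2.2.2.2 (k.mono subset_union_left)⟩

/-- a set together with its white neighbours -/
def plus (S J : Set V) : Set V := J ∪ {w | w ∉ S ∧ ∃ y ∈ J, adj w y}

lemma cn_plus (hJ : ∀ y ∈ J, ∀ y' ∈ J, Cn J y y') :
    ∀ y ∈ plus S J, ∀ y' ∈ plus S J, Cn (plus S J) y y' := by
  have key : ∀ y ∈ plus S J, ∃ j ∈ J, Cn (plus S J) y j := by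
    rintro y (hy | ⟨h1, j, h2, h3⟩)
    · exact ⟨y, hy, Conn.refl (Or.inl hy)⟩
    · exact ⟨j, h2, Cn.step (Or.inr ⟨h1, j, h2, h3⟩) (Or.inl h2) h3⟩
  intro y hy y' hy'
  obtain ⟨j, a1, a2⟩ := key y hy
  obtain ⟨j', b1, b2⟩ := key y' hy'
  exact (a2.trans ((hJ j a1 j' b1).mono subset_union_left)).trans b2.symm

lemma Adm.merge (h : Adm η S0 X r S) (hX : ∀ x ∈ X, Esc Xᶜ x) (hN : ∀ g, N ≤ lv g → g ∈ X)
    (j1 : Cl η J) (j2 : ∀ y ∈ J, y ∉ S) (j3 : ∀ y ∈ J, ∀ y' ∈ J, Cn J y y')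
    (j4 : ∀ y ∈ plus S J, y ∉ X ∧ r < lv y) {g1 g2 y1 y2 q1 q2 : V} (m1 : y1 ∈ J) (m2 : y2 ∈ J)
    (a1 : adj g1 y1) (a2 : adj g2 y2) (hn : ¬Cn S g1 g2) (r1 : Cn S g1 q1) (r2 : Cn S g2 q2)
    (l1 : lv q1 ≤ r) (l2 : lv q2 ≤ r)
    (two : ∀ g ∈ S, ∀ y ∈ plus S J, adj g y → g ∈ comp (S ∩ Out r) g1 ∨ g ∈ comp (S ∩ Out r) g2) :
    ∃ S', Adm η S0 X r S' ∧ DD X S' ⊂ DD X S := by
  have s1 : g1 ∈ S := r1.left_mem
  have s2 : g2 ∈ S := r2.left_mem
  have pw : ∀ y ∈ plus S J, y ∉ S := fun y hy => hy.elim (j2 y) fun k => k.1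
  have xe : ∀ x ∈ X, Esc (S ∪ J) x := fun x hx => (hX x hx).anti (by
    rintro z (hz | hz) k
    · exact h.dis z k hz
    · exact (j4 z (Or.inl hz)).1 k)
  have side : ∀ {g g' q' x : V} {B : Set V}, Cn S g' q' → lv q' ≤ r → ¬Cn S g g' → lv x ≤ r → x ∉ S →
      B ⊆ S → comp (S ∩ Out r) g ⊆ B →
      (∀ a ∈ B, ∀ y ∈ plus S J, adj a y → a ∈ comp (S ∩ Out r) g) → Null (B ∪ plus S J) x := by
    intro g g' q' x B c1 c2 c3 c4 c5 c6 c7 c8
    have n1 : Null B x := ((h.esc x c5).anti c6).null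
    have dj : ∀ z ∈ comp S g', z ∉ comp (S ∩ Out r) g ∪ plus S J := by
      rintro z hz (k | k)
      · exact c3 ((Conn.mono k inter_subset_left).trans (Conn.symm hz))
      · exact pw z k (comp_subset _ _ hz)
    have n2 : Esc (comp (S ∩ Out r) g ∪ plus S J) x := by
      refine Esc.of_cn (Esc.of_cn (h.esc_black hX c1.left_mem dj ?_) (cn_comp c1).symm dj)
        (cn_inner c4 c2) ?_
      · rintro z hz (k | k)
        · exact h.dis z hz (comp_subset _ _ k).1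
        · exact (j4 z k).1 hz
      · rintro z hz (k | k)
        · have := mem_out.mp (comp_subset _ _ k).2
          have := mem_inn.mp hz
          omega
        · have := (j4 z k).2
          have := mem_inn.mp hz
          omega
    have e : B ∩ (comp (S ∩ Out r) g ∪ plus S J) = comp (S ∩ Out r) g :=
      Subset.antisymm (fun z hz => hz.2.resolve_right fun k => pw z k (c6 hz.1))
        fun z hz => ⟨c7 hz, Or.inl hz⟩
    refine (n1.union n2.null (by rw [e]; exact fun a ha b hb => cn_comp' ha hb) ?_).anti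
      (union_subset_union_right _ subset_union_right)
    rintro a ha b (hb | hb) k
    · exact Or.inr (c7 hb)
    · exact Or.inl (Or.inl (c8 a ha b hb k))
  have inn : ∀ x, lv x ≤ r → x ∉ S → Esc (S ∪ J) x := by
    intro x c4 c5
    have n1 := side (B := comp S g1) r2 l2 hn c4 c5 (comp_subset _ _) (comp_mono inter_subset_left _)
      fun a ha y hy k => (two a (comp_subset _ _ ha) y hy k).resolve_right fun k' =>
        hn ((Conn.trans ha (Conn.mono k' inter_subset_left).symm))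
    have n2 := side (B := S \ comp S g1) r1 l1 (fun k => hn k.symm) c4 c5 sdiff_subset
      (fun z hz => ⟨(comp_subset _ _ hz).1, fun k =>
        hn (Conn.trans k (Conn.mono hz inter_subset_left).symm)⟩)
      fun a ha y hy k => (two a ha.1 y hy k).resolve_left fun k' =>
        ha.2 (comp_mono inter_subset_left _ k')
    have e : (comp S g1 ∪ plus S J) ∩ (S \ comp S g1 ∪ plus S J) = plus S J := by
      refine Subset.antisymm ?_ fun z hz => ⟨Or.inr hz, Or.inr hz⟩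
      rintro z ⟨k1 | k1, k2 | k2⟩
      · exact (k2.2 k1).elim
      all_goals assumption
    have n3 : Null (S ∪ plus S J) x := by
      refine (n1.union n2 (by rw [e]; exact cn_plus j3) ?_).anti ?_
      · rintro a (ha | ha) b (hb | hb) k
        · exact (hb.2 (comp_step ha k hb.1)).elim
        · exact Or.inr (Or.inr hb)
        · exact Or.inl (Or.inr ha)
        · exact Or.inl (Or.inr ha)
      · rintro z (hz | hz)
        · by_cases k : z ∈ comp S g1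
          · exact Or.inl (Or.inl k)
          · exact Or.inr (Or.inl ⟨hz, k⟩)
        · exact Or.inl (Or.inr hz)
    by_contra hx
    have xm : x ∈ (S ∪ J)ᶜ := by
      rintro (k | k)
      · exact c5 k
      · have := (j4 x (Or.inl k)).2; omega
    have nb : ∀ g ∉ comp (S ∪ J)ᶜ x, ∀ w ∈ comp (S ∪ J)ᶜ x, adj g w → g ∈ S ∪ J :=
      fun g hg w hw k => not_not.mp fun k' => hg (comp_step hw k.symm k')
    refine not_null (N := N) (v := comp (S ∪ J)ᶜ x) (fun g hg => ?_) (mem_comp xm)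
      (fun g hg w hw k => (nb g hg w hw k).imp_right Or.inl) (fun c w d w' dg b1 b2 b3 b4 => ?_) n3
    · by_contra k
      exact hx ((xe g (hN g (by omega))).of_cn hg fun _ h => h)
    · by_cases hc : c ∈ S
      · exact Or.inl hc
      rcases nb d b3 w b1 dg.2.2.1.symm with k1 | k1
      · rcases nb w' b4 w b1 dg.2.2.2.1.symm with k2 | k2
        · exact (h.pf _ _ _ _ dg.swap k1 k2 hc fun k => comp_subset _ _ b1 (Or.inl k)).elim
        · exact Or.inr (Or.inr ⟨hc, w', k2, dg.2.1⟩)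
      · exact Or.inr (Or.inr ⟨hc, d, k1, dg.1⟩)
  set S' : Set V := {g | Esc (S ∪ J) g}ᶜ with hS'
  have sub : S ∪ J ⊆ S' := fun g hg k => Esc.notMem k hg
  have subS : S ⊆ S' := subset_union_left.trans sub
  have subJ : J ⊆ S' := subset_union_right.trans sub
  have esc : ∀ g ∉ S', Esc S' g := fun g hg => Esc.self (not_not.mp hg)
  have toJ : ∀ g ∈ S', g ∉ S → Cn S' g y1 := by
    intro g hg hg'
    obtain ⟨y, b1, b2⟩ := h.esc g hg' N
    have key : ∀ z, Cn Sᶜ g z → Cn S' g z ∨ ∃ a ∈ J, Cn S' g a := by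
      intro z hz
      induction hz with
      | refl _ => exact Or.inl (Conn.refl hg)
      | @tail x y h0 k _ hy ih =>
        rcases ih with ih | ih
        · by_cases hx : x ∈ J
          · exact Or.inr ⟨x, hx, ih⟩
          · exact Or.inl (ih.tail k trivial fun k' => ih.right_mem
              (Esc.of_adj k' k fun k'' => k''.elim h0.right_mem hx))
        · exact Or.inr ih
    rcases key y b2 with b3 | ⟨a, b3, b4⟩
    · exact (b3.right_mem (xe y (hN y b1))).elim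
    · exact b4.trans ((j3 a b3 y1 m1).mono subJ)
  have c1 : Cn S' g1 y1 := Cn.step (subS s1) (subJ m1) a1
  have c2 : Cn S' g2 y1 := (Cn.step (subS s2) (subJ m2) a2).trans ((j3 y2 m2 y1 m1).mono subJ)
  have an : ∀ a ∈ S', An X a → a ∈ S := by
    rintro a ha ⟨x, b1, b2⟩
    by_contra k
    refine ha ((xe x b1).of_adj b2 ?_)
    rintro (k' | k')
    · exact k k'
    · exact (j4 x (Or.inr ⟨h.dis x b1, a, k', b2.symm⟩)).1 b1
  refine ⟨S', ⟨(h.cl.union j1).esc.compl, fun x hx k => k (xe x hx), fun g hg => ?_, esc, ?_,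
    fun g hg => ?_⟩, fun p hp => ⟨an _ hp.1 hp.2.2.1, an _ hp.2.1 hp.2.2.2.1, hp.2.2.1, hp.2.2.2.1,
      fun k => hp.2.2.2.2 (k.mono subS)⟩, fun hsub => ?_⟩
  · rw [← h.agree g hg]
    exact ⟨fun k => not_not.mp fun k' => k (inn g hg k'), fun k => subS k⟩
  · have key : ∀ u1 u2 w1 w2, Dg u1 u2 w1 w2 → u1 ∈ S' → u1 ∉ S → u2 ∈ S' → w1 ∉ S' → w2 ∉ S' →
        False := by
      intro u1 u2 w1 w2 d b1 b2 b3 b4 b5
      refine pinch d ((toJ u1 b1 b2).trans (Conn.symm ?_)) (esc _ b4) (esc _ b5)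
      by_cases b6 : u2 ∈ S
      · have b7 : u1 ∈ J := by
          by_contra k
          exact b1 (Esc.of_adj (not_not.mp b4) d.1 fun k' => k'.elim b2 k)
        rcases two u2 b6 w1 (Or.inr ⟨fun k => b4 (subS k), u1, b7, d.1.symm⟩) d.2.2.1 with k | k
        · exact (Conn.mono k (inter_subset_left.trans subS)).symm.trans c1
        · exact (Conn.mono k (inter_subset_left.trans subS)).symm.trans c2
      · exact toJ u2 b3 b6
    intro u1 u2 w1 w2 d b1 b2 b3 b4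
    by_cases b5 : u1 ∈ S
    · by_cases b6 : u2 ∈ S
      · exact h.pf _ _ _ _ d b5 b6 (fun k => b3 (subS k)) fun k => b4 (subS k)
      · exact key _ _ _ _ d.left b2 b6 b1 b3 b4
    · exact key _ _ _ _ d b1 b5 b2 b3 b4
  · by_cases hg' : g ∈ S
    · obtain ⟨a, b1, b2⟩ := h.anch g hg'
      exact ⟨a, b1.mono subS, b2⟩
    · obtain ⟨a, b1, b2⟩ := h.anch g1 s1
      exact ⟨a, ((toJ g hg hg').trans c1.symm).trans (b1.mono subS), b2⟩
  · obtain ⟨a, b1, b2⟩ := h.anch g1 s1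
    obtain ⟨a', b3, b4⟩ := h.anch g2 s2
    have : (a, a') ∈ DD X S := ⟨b1.right_mem, b3.right_mem, b2, b4,
      fun k => hn ((b1.trans k).trans b3.symm)⟩
    exact (hsub this).2.2.2.2
      ((((b1.mono subS).symm.trans c1).trans c2.symm).trans (b3.mono subS))

end Pool.Agent.Lib.LP93
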