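import Pool.Agent.Lib.LP93.Chain

/-! Planar separation lemmas obtained from winding parities. -/

open Set

namespace Pool.Agent.Lib.LP93

open Pool.Agent.Lib.helper98 Pool.Agent.Lib.MP_db3ceb_pr

variable {z z' s s' : V → F2} {H H' : Set V}

lemma const_of_cn {α : Type} {f : V → α} {R : Set V} {a b : V}
    (hf : ∀ a ∈ R, ∀ b ∈ R, adj a b → f a = f b) (h : Cn R a b) : f a = f b := by
  induction h with
  | refl _ => rfl
  | tail h0 h1 _ h3 ih => exact ih.trans (hf _ h0.right_mem _ h3 h1)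

lemma zero_of_esc {f : V → F2} {g : V} (hf : ∀ a ∉ H, ∀ b ∉ H, adj a b → f a = f b)
    (hM : ∃ M : ℤ, ∀ g, M ≤ lv g → f g = 0) (h : Esc H g) : f g = 0 := by
  obtain ⟨M, hM⟩ := hM
  obtain ⟨y, h1, h2⟩ := h M
  rw [const_of_cn (R := Hᶜ) hf h2, hM y h1]

lemma Pot.adj_eq (h : Pot z s) (hz : Supp z H) {a b : V} (ha : a ∉ H) (hb : b ∉ H) (k : adj a b) :
    s a = s b := f2_eq_of_add (by rw [h.1 a b k, hz.partner_zero k ha hb])

lemma Pot.esc (h : Pot z s) (hz : Supp z H) {g : V} (hg : Esc H g) : s g = 0 :=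
  zero_of_esc (fun _ ha _ hb k => h.adj_eq hz ha hb k) h.2 hg

lemma Pot.bd_zero (h : Pot z s) (g : V) : bd z g = 0 := by
  obtain ⟨x, y⟩ := g
  have a1 := h.1 (x, y - 1) (x, y) (by simp [adj])
  have a2 := h.1 (x - 1, y - 1) (x - 1, y) (by simp [adj])
  have a3 := h.1 (x - 1, y) (x, y) (by simp [adj])
  have a4 := h.1 (x - 1, y - 1) (x, y - 1) (by simp [adj])
  rw [show ((x, y - 1) + (x, y) + (1, 1) : V) = (2 * x + 1, 2 * y) by ext <;> simp <;> ring] at a1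
  rw [show ((x - 1, y - 1) + (x - 1, y) + (1, 1) : V) = (2 * x - 1, 2 * y) by
    ext <;> simp <;> ring] at a2
  rw [show ((x - 1, y) + (x, y) + (1, 1) : V) = (2 * x, 2 * y + 1) by ext <;> simp <;> ring] at a3
  rw [show ((x - 1, y - 1) + (x, y - 1) + (1, 1) : V) = (2 * x, 2 * y - 1) by
    ext <;> simp <;> ring] at a4
  simp only [bd]
  rw [← a1, ← a2, ← a3, ← a4]
  linear_combination f2_add_self (s (x, y)) + f2_add_self (s (x, y - 1)) +
    f2_add_self (s (x - 1, y)) + f2_add_self (s (x - 1, y - 1))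

lemma partner' {c d : V} (h : adj c d) : ∃ a b, adj a b ∧ c + d = a + b + (1, 1) ∧
    ∀ p, (p = a ∨ p = b) → (c.1 = p.1 ∨ c.1 = p.1 + 1) ∧ (c.2 = p.2 ∨ c.2 = p.2 + 1) ∧
      (d.1 = p.1 ∨ d.1 = p.1 + 1) ∧ (d.2 = p.2 ∨ d.2 = p.2 + 1) := by
  rcases adj_cases h with rfl | rfl | rfl | rfl
  · exact ⟨c + (0, -1), c, by simp [adj], by ext <;> simp <;> ring, by rintro p (rfl | rfl) <;> simp⟩
  · exact ⟨c + (-1, -1), c + (-1, 0), by simp [adj], by ext <;> simp <;> ring,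
      by rintro p (rfl | rfl) <;> simp⟩
  · exact ⟨c + (-1, 0), c, by simp [adj], by ext <;> simp <;> ring, by rintro p (rfl | rfl) <;> simp⟩
  · exact ⟨c + (-1, -1), c + (0, -1), by simp [adj], by ext <;> simp <;> ring,
      by rintro p (rfl | rfl) <;> simp⟩

lemma Pot.bnd (h : Pot z s) : Bnd z := by
  obtain ⟨h1, M, h2⟩ := h
  refine ⟨M + 1, fun c d k hz => ?_⟩
  obtain ⟨a, b, k1, k2, k3⟩ := partner' k
  by_contra hc
  have a1 := k3 a (Or.inl rfl)
  have a2 := k3 b (Or.inr rfl)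
  simp only [mem_ofPred_eq, lv] at hc
  rw [k2, ← h1 a b k1, h2 a (by simp only [lv]; omega), h2 b (by simp only [lv]; omega)] at hz
  simp at hz

/-- the two diagonals of a unit block -/
def Dg (g1 g2 w1 w2 : V) : Prop :=
  adj g1 w1 ∧ adj g1 w2 ∧ adj g2 w1 ∧ adj g2 w2 ∧ g1 ≠ g2 ∧ w1 ≠ w2

lemma Dg.swap {g1 g2 w1 w2 : V} (h : Dg g1 g2 w1 w2) : Dg w1 w2 g1 g2 :=
  ⟨h.1.symm, h.2.2.1.symm, h.2.1.symm, h.2.2.2.1.symm, h.2.2.2.2.2, h.2.2.2.2.1⟩

lemma Dg.left {g1 g2 w1 w2 : V} (h : Dg g1 g2 w1 w2) : Dg g2 g1 w1 w2 :=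
  ⟨h.2.2.1, h.2.2.2.1, h.1, h.2.1, h.2.2.2.2.1.symm, h.2.2.2.2.2⟩

lemma Dg.right {g1 g2 w1 w2 : V} (h : Dg g1 g2 w1 w2) : Dg g1 g2 w2 w1 := h.swap.left.swap

lemma pinch_one {p : V} (h : Cn H (p + (0, 1)) (p + (1, 0))) (h1 : Esc H p)
    (h2 : Esc H (p + (1, 1))) : False := by
  obtain ⟨q, k1, k2, k3⟩ := exists_chain h
  obtain ⟨s, hs⟩ := exists_pot (z := q + dl (p + (p + (1, 0))) + dl (p + (p + (0, 1))))
    ((k1.add (bnd_dl (adj_e1 p))).add (bnd_dl (adj_e3 p))) fun g => by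
      rw [bd_add, bd_add, k3, bd_dl (adj_e1 p), bd_dl (adj_e3 p)]
      linear_combination f2_add_self (dl p g) + f2_add_self (dl (p + (0, 1)) g) +
        f2_add_self (dl (p + (1, 0)) g)
  have m1 := h.left_mem
  have m2 := h.right_mem
  have inv : ∀ a ∉ H, ∀ b ∉ H, adj a b → (s + dl p) a = (s + dl p) b := by
    intro a ha b hb k
    have e := hs.1 a b k
    simp only [Pi.add_apply, k2.partner_zero k ha hb, zero_add] at e ⊢
    have na1 : a ≠ p + (0, 1) := fun h => ha (h ▸ m1)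
    have na2 : a ≠ p + (1, 0) := fun h => ha (h ▸ m2)
    have nb1 : b ≠ p + (0, 1) := fun h => hb (h ▸ m1)
    have nb2 : b ≠ p + (1, 0) := fun h => hb (h ▸ m2)
    apply f2_eq_of_add
    have e2 : dl (p + (p + (1, 0))) (a + b + (1, 1)) + dl (p + (p + (0, 1))) (a + b + (1, 1)) =
        dl p a + dl p b := by
      simp only [dl, Prod.ext_iff, Prod.fst_add, Prod.snd_add, ne_eq] at *
      unfold adj at k
      split_ifs <;> first | rfl | (exfalso; omega)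
    linear_combination e + e2 + f2_add_self (dl p a) + f2_add_self (dl p b)
  have far : ∃ M : ℤ, ∀ g, M ≤ lv g → (s + dl p) g = 0 := by
    obtain ⟨M, hM⟩ := hs.2
    refine ⟨max M (lv p + 1), fun g hg => ?_⟩
    have : g ≠ p := by rintro rfl; omega
    simp [hM g (by omega), dl, this]
  have b1 := zero_of_esc inv far h1
  have b2 := zero_of_esc inv far h2
  have c1 := hs.1 p (p + (1, 0)) (adj_e1 p)
  have c2 := hs.1 (p + (1, 0)) (p + (1, 1)) (by simp [adj])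
  have d1 : q (p + (p + (1, 0)) + (1, 1)) = 0 := by
    rw [← k2.zero_of' (a := p + (1, 0)) (b := p + (1, 1)) (by simp [adj]) h2.notMem]
    congr 1; abel
  have d2 : q (p + (1, 0) + (p + (1, 1)) + (1, 1)) = 0 := by
    rw [← k2.zero_of (a := p + (1, 1)) (b := p + (1, 1) + (1, 0)) (adj_e1 _) h2.notMem]
    congr 1; abel
  replace b1 : s p + 1 = 0 := by simpa [dl] using b1
  simp only [Pi.add_apply, d1, d2, dl, Prod.ext_iff, Prod.fst_add, Prod.snd_add] at b2 c1 c2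
  rw [if_neg (by omega), if_neg (by omega)] at c1 c2
  rw [if_neg (by omega)] at b2
  have : (1 : F2) = 0 := by
    linear_combination b1 + b2 - c1 - c2 + f2_add_self (s (p + (1, 0)))
  exact one_ne_zero this

lemma pinch_two {p : V} (h : Cn H p (p + (1, 1))) (h1 : Esc H (p + (1, 0)))
    (h2 : Esc H (p + (0, 1))) : False := by
  obtain ⟨q, k1, k2, k3⟩ := exists_chain h
  have ad : adj (p + (1, 0)) (p + (1, 1)) := by simp [adj]
  obtain ⟨s, hs⟩ := exists_pot (z := q + dl (p + (p + (1, 0))) + dl (p + (1, 0) + (p + (1, 1))))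
    ((k1.add (bnd_dl (adj_e1 p))).add (bnd_dl ad)) fun g => by
      rw [bd_add, bd_add, k3, bd_dl (adj_e1 p), bd_dl ad]
      linear_combination f2_add_self (dl p g) + f2_add_self (dl (p + (1, 1)) g) +
        f2_add_self (dl (p + (1, 0)) g)
  have m1 := h.left_mem
  have m2 := h.right_mem
  have inv : ∀ a ∉ H, ∀ b ∉ H, adj a b → s a = s b := by
    intro a ha b hb k
    have e := hs.1 a b k
    simp only [Pi.add_apply, k2.partner_zero k ha hb, zero_add] at e ⊢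
    have na1 : a ≠ p := fun h => ha (h ▸ m1)
    have nb1 : b ≠ p := fun h => hb (h ▸ m1)
    apply f2_eq_of_add
    rw [e]
    simp only [dl, Prod.ext_iff, Prod.fst_add, Prod.snd_add, ne_eq] at *
    unfold adj at k
    rw [if_neg (by omega), if_neg (by omega), add_zero]
  have b1 := zero_of_esc inv hs.2 h1
  have b2 := zero_of_esc inv hs.2 h2
  have c1 := hs.1 p (p + (1, 0)) (adj_e1 p)
  have c2 := hs.1 p (p + (0, 1)) (adj_e3 p)
  have d1 : q (p + (p + (1, 0)) + (1, 1)) = 0 := by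
    rw [← k2.zero_of ad h1.notMem]
    congr 1; abel
  have d2 : q (p + (p + (0, 1)) + (1, 1)) = 0 := by
    rw [← k2.zero_of (a := p + (0, 1)) (b := p + (1, 1)) (by simp [adj]) h2.notMem]
    congr 1; abel
  simp only [Pi.add_apply, d1, d2, dl, Prod.ext_iff, Prod.fst_add, Prod.snd_add] at c1 c2
  rw [if_neg (by omega), if_pos (by omega)] at c1
  rw [if_neg (by omega), if_neg (by omega)] at c2
  have : (1 : F2) = 0 := by
    linear_combination b1 + b2 - c1 - c2 + f2_add_self (s p)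
  exact one_ne_zero this

lemma Dg.cases {d1 d2 a1 a2 : V} (h : Dg d1 d2 a1 a2) :
    (d1 = a1 + (0, 1) ∧ d2 = a1 + (1, 0) ∧ a2 = a1 + (1, 1)) ∨
    (d2 = a1 + (0, 1) ∧ d1 = a1 + (1, 0) ∧ a2 = a1 + (1, 1)) ∨
    (d1 = a2 + (0, 1) ∧ d2 = a2 + (1, 0) ∧ a1 = a2 + (1, 1)) ∨
    (d2 = a2 + (0, 1) ∧ d1 = a2 + (1, 0) ∧ a1 = a2 + (1, 1)) ∨
    (a1 = d1 + (0, 1) ∧ a2 = d1 + (1, 0) ∧ d2 = d1 + (1, 1)) ∨
    (a2 = d1 + (0, 1) ∧ a1 = d1 + (1, 0) ∧ d2 = d1 + (1, 1)) ∨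
    (a1 = d2 + (0, 1) ∧ a2 = d2 + (1, 0) ∧ d1 = d2 + (1, 1)) ∨
    (a2 = d2 + (0, 1) ∧ a1 = d2 + (1, 0) ∧ d1 = d2 + (1, 1)) := by
  have e : d2 = a1 + a2 - d1 := by
    simp only [Dg, adj, ne_eq, Prod.ext_iff, Prod.fst_add, Prod.snd_add, Prod.fst_sub,
      Prod.snd_sub] at *
    constructor <;> omega
  obtain ⟨h1, h2, -, -, h5, h6⟩ := h
  subst e
  have e : ∀ u v : V, d1 + u + (d1 + v) - d1 = d1 + (u + v) := fun u v => by abel
  rcases adj_cases h1 with rfl | rfl | rfl | rfl <;> rcases adj_cases h2 with rfl | rfl | rfl | rfl <;>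
    rw [e] at h5 ⊢ <;> simp [add_assoc, Prod.mk_zero_zero] at h5 h6 ⊢

/-- a path joining one diagonal of a block separates the other diagonal -/
theorem pinch {d1 d2 a1 a2 : V} (h : Dg d1 d2 a1 a2) (k : Cn H d1 d2) (h1 : Esc H a1)
    (h2 : Esc H a2) : False := by
  rcases h.cases with ⟨rfl, rfl, rfl⟩ | ⟨rfl, rfl, rfl⟩ | ⟨rfl, rfl, rfl⟩ | ⟨rfl, rfl, rfl⟩ |
    ⟨rfl, rfl, rfl⟩ | ⟨rfl, rfl, rfl⟩ | ⟨rfl, rfl, rfl⟩ | ⟨rfl, rfl, rfl⟩
  · exact pinch_one k h1 h2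
  · exact pinch_one k.symm h1 h2
  · exact pinch_one k h2 h1
  · exact pinch_one k.symm h2 h1
  · exact pinch_two k h2 h1
  · exact pinch_two k h1 h2
  · exact pinch_two k.symm h2 h1
  · exact pinch_two k.symm h1 h2

lemma fill_aux {C : Set V} (hC : ∀ a ∈ C, ∀ b ∈ C, Cn C a b) {c : V} (hc : c ∈ C) (T : Finset V)
    (hT : ∀ g ∈ T, g ∈ C) : ∃ y σ, Bnd y ∧ Supp y C ∧
      ∀ g, bd y g = (if g ∈ T then 1 else 0) + σ * dl c g := by
  induction T using Finset.induction_on with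
  | empty => exact ⟨0, 0, bnd_zero, fun _ _ _ h => (h rfl).elim, fun g => by simp [bd]⟩
  | insert a T ha ih =>
    obtain ⟨y, σ, k1, k2, k3⟩ := ih fun g hg => hT g (Finset.mem_insert_of_mem hg)
    obtain ⟨q, j1, j2, j3⟩ := exists_chain (hC a (hT a (Finset.mem_insert_self _ _)) c hc)
    refine ⟨y + q, σ + 1, k1.add j1, k2.add j2, fun g => ?_⟩
    have e : (if g ∈ insert a T then (1 : F2) else 0) = (if g ∈ T then 1 else 0) + dl a g := by
      by_cases hg : g = a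
      · subst hg; simp [dl, ha]
      · simp [dl, hg]
    rw [bd_add, k3, j3, e]
    ring

lemma fill {C : Set V} (hC : ∀ a ∈ C, ∀ b ∈ C, Cn C a b) (hz : Bnd z)
    (h : ∀ g ∉ C, bd z g = 0) : ∃ y, Bnd y ∧ Supp y C ∧ ∀ g, bd (z + y) g = 0 := by
  rcases C.eq_empty_or_nonempty with rfl | ⟨c, hc⟩
  · exact ⟨0, bnd_zero, fun _ _ _ h => (h rfl).elim, fun g => by simpa using h g (by simp)⟩
  obtain ⟨M, hM⟩ := id hz
  have fin : {g | bd z g ≠ 0}.Finite := (lv_finite M).subset fun g hg => by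
    by_contra hc
    exact hg (hM.bd_zero (by simp only [mem_ofPred_eq] at *; omega))
  obtain ⟨y, σ, k1, k2, k3⟩ := fill_aux hC hc fin.toFinset fun g hg => by
    by_contra hc; exact (fin.mem_toFinset.mp hg) (h g hc)
  have e : ∀ g, bd (z + y) g = σ * dl c g := by
    intro g
    rw [bd_add, k3, ← add_assoc]
    rcases f2_cases (bd z g) with h0 | h0 <;> simp [h0, f2_add_self]
  have := no_single (hz.add k1) e
  exact ⟨y, k1, k2, fun g => by rw [e, this, zero_mul]⟩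

/-- no cycle inside `H` winds around `x` -/
def Null (H : Set V) (x : V) : Prop := ∀ z s, Pot z s → Supp z H → s x = 0

lemma Esc.null {x : V} (h : Esc H x) : Null H x := fun _ _ k1 k2 => k1.esc k2 h

lemma Null.anti {x : V} (h : Null H x) (hH : H' ⊆ H) : Null H' x :=
  fun z s k1 k2 => h z s k1 (k2.mono hH)

open Classical in
/-- restriction of a chain to the edges inside `B` -/
noncomputable def res (B : Set V) (z : V → F2) (e : V) : F2 :=
  if ∃ a b, adj a b ∧ a + b = e ∧ a ∈ B ∧ b ∈ B then z e else 0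

lemma res_of_mem {B : Set V} {a b : V} (k : adj a b) (ha : a ∈ B) (hb : b ∈ B) :
    res B z (a + b) = z (a + b) := if_pos ⟨a, b, k, rfl, ha, hb⟩

lemma res_of_not {B : Set V} {a b : V} (k : adj a b) (h : ¬(a ∈ B ∧ b ∈ B)) :
    res B z (a + b) = 0 := by
  refine if_neg ?_
  rintro ⟨c, d, k1, k2, k3, k4⟩
  rcases adj_inj k1 k k2 with ⟨rfl, rfl⟩ | ⟨rfl, rfl⟩
  · exact h ⟨k3, k4⟩
  · exact h ⟨k4, k3⟩

lemma supp_res (B : Set V) (z : V → F2) : Supp (res B z) B := by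
  intro a b k hz
  by_contra ha
  exact hz (res_of_not k fun h => ha h.1)

lemma Supp.res (h : Supp z H) (B : Set V) : Supp (res B z) H := by
  intro a b k hz
  by_cases h1 : a ∈ B ∧ b ∈ B
  · exact h a b k (by rwa [res_of_mem k h1.1 h1.2] at hz)
  · exact (hz (res_of_not k h1)).elim

/-- discrete Janiszewski lemma -/
theorem Null.union {A B : Set V} {x : V} (hA : Null A x) (hB : Null B x)
    (hC : ∀ a ∈ A ∩ B, ∀ b ∈ A ∩ B, Cn (A ∩ B) a b)
    (hAB : ∀ a ∈ A, ∀ b ∈ B, adj a b → a ∈ B ∨ b ∈ A) : Null (A ∪ B) x := by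
  intro z s h1 h2
  have b1 : Bnd (res B z) := let ⟨M, hM⟩ := h1.bnd; ⟨M, hM.res B⟩
  have sA : Supp (z + res B z) A := by
    intro a b k hz
    by_cases h3 : a ∈ B ∧ b ∈ B
    · rw [Pi.add_apply, res_of_mem k h3.1 h3.2, f2_add_self] at hz
      exact (hz rfl).elim
    rw [Pi.add_apply, res_of_not k h3, add_zero] at hz
    rcases h2 a b k hz with ha | ha
    · exact ha
    rcases h2.right k hz with hb | hb
    · exact (hAB b hb a ha k.symm).resolve_left fun hb' => h3 ⟨ha, hb'⟩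
    · exact (h3 ⟨ha, hb⟩).elim
  obtain ⟨y, k1, k2, k3⟩ := fill hC b1 fun g hg => by
    by_cases h3 : g ∈ B
    · have := sA.bd_zero (g := g) fun h => hg ⟨h, h3⟩
      rwa [bd_add, h1.bd_zero, zero_add] at this
    · exact (supp_res B z).bd_zero h3
  obtain ⟨t, ht⟩ := exists_pot (b1.add k1) k3
  have e1 := hB _ _ ht ((supp_res B z).add (k2.mono inter_subset_right))
  have e2 := hA _ _ (h1.add ht) (by
    rw [← add_assoc]; exact sA.add (k2.mono inter_subset_left))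
  simpa [e1] using e2

lemma exists_cob (s : V → F2) : ∃ z : V → F2, ∀ a b, adj a b → s a + s b = z (a + b + (1, 1)) := by
  classical
  refine ⟨fun e => if h : ∃ p : V × V, adj p.1 p.2 ∧ p.1 + p.2 + (1, 1) = e then
    s h.choose.1 + s h.choose.2 else 0, fun a b k => ?_⟩
  have h : ∃ p : V × V, adj p.1 p.2 ∧ p.1 + p.2 + (1, 1) = a + b + (1, 1) := ⟨(a, b), k, rfl⟩
  simp only [dif_pos h]
  rcases adj_inj h.choose_spec.1 k (add_right_cancel h.choose_spec.2) with ⟨h1, h2⟩ | ⟨h1, h2⟩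
  · rw [h1, h2]
  · rw [h1, h2, add_comm]

/-- `g` lies in the unit block with lower left corner `p` -/
def InB (p g : V) : Prop := (g.1 = p.1 ∨ g.1 = p.1 + 1) ∧ (g.2 = p.2 ∨ g.2 = p.2 + 1)

lemma dg_of_inB {p c d w : V} (k : adj c d) (j2 : InB p w) (j3 : InB p c) (j4 : InB p d)
    (n1 : w ≠ c) (n2 : w ≠ d) (j5 : ¬adj c w) : Dg c w d (c + w - d) := by
  obtain ⟨p1, p2⟩ := p
  obtain ⟨c1, c2⟩ := c
  obtain ⟨d1, d2⟩ := d
  obtain ⟨w1, w2⟩ := w
  simp only [InB] at j2 j3 j4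
  simp only [Dg, adj, ne_eq, Prod.mk_add_mk, Prod.mk_sub_mk, Prod.mk.injEq] at k n1 n2 j5 ⊢
  rcases j2 with ⟨rfl | rfl, rfl | rfl⟩ <;> rcases j3 with ⟨rfl | rfl, rfl | rfl⟩ <;>
    rcases j4 with ⟨rfl | rfl, rfl | rfl⟩ <;> omega

/-- a bounded set is surrounded by a cycle through its neighbours -/
theorem not_null {v : Set V} {N : ℤ} (hv : ∀ g ∈ v, lv g < N) {x : V} (hx : x ∈ v)
    (h1 : ∀ g ∉ v, ∀ w ∈ v, adj g w → g ∈ H)
    (h2 : ∀ c w d w', Dg c w d w' → w ∈ v → c ∉ v → d ∉ v → w' ∉ v → c ∈ H) : ¬Null H x := by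
  classical
  intro h
  let s : V → F2 := fun p => if ∃ w ∈ v, InB p w then 1 else 0
  obtain ⟨z, hz⟩ := exists_cob s
  have e := h z s ⟨hz, N + 1, fun g hg => if_neg (by
    rintro ⟨w, k1, k2⟩
    have := hv w k1
    simp only [lv, InB] at *; omega)⟩ (by
    intro c d k hne
    obtain ⟨a, b, k1, k2, k3⟩ := partner' k
    rw [k2, ← hz a b k1] at hne
    have ca : InB a c := ⟨(k3 a (Or.inl rfl)).1, (k3 a (Or.inl rfl)).2.1⟩
    have da : InB a d := ⟨(k3 a (Or.inl rfl)).2.2.1, (k3 a (Or.inl rfl)).2.2.2⟩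
    have cb : InB b c := ⟨(k3 b (Or.inr rfl)).1, (k3 b (Or.inr rfl)).2.1⟩
    have db : InB b d := ⟨(k3 b (Or.inr rfl)).2.2.1, (k3 b (Or.inr rfl)).2.2.2⟩
    have hc : c ∉ v := fun hc => hne (by
      simp only [s]; rw [if_pos ⟨c, hc, ca⟩, if_pos ⟨c, hc, cb⟩, f2_add_self])
    have hd : d ∉ v := fun hd => hne (by
      simp only [s]; rw [if_pos ⟨d, hd, da⟩, if_pos ⟨d, hd, db⟩, f2_add_self])
    have ex : ∃ p w, w ∈ v ∧ InB p w ∧ InB p c ∧ InB p d := by
      by_contra hn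
      apply hne
      simp only [s]
      rw [if_neg fun ⟨w, j1, j2⟩ => hn ⟨a, w, j1, j2, ca, da⟩,
        if_neg fun ⟨w, j1, j2⟩ => hn ⟨b, w, j1, j2, cb, db⟩, add_zero]
    obtain ⟨p, w, j1, j2, j3, j4⟩ := ex
    have n1 : w ≠ c := fun h => hc (h ▸ j1)
    have n2 : w ≠ d := fun h => hd (h ▸ j1)
    by_cases j5 : adj c w
    · exact h1 c hc w j1 j5
    have dg := dg_of_inB k j2 j3 j4 n1 n2 j5
    by_cases j6 : c + w - d ∈ v
    · exact h1 c hc _ j6 dg.2.1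
    · exact h2 c w d _ dg j1 hc hd j6)
  simp only [s] at e
  rw [if_pos ⟨x, hx, by simp [InB]⟩] at e
  exact one_ne_zero e

/-- the boundary of a co-bounded set is connected, in the form of an invariance principle -/
theorem boundary_const {U : Set V} {N : ℤ} (hU : ∀ g ∉ U, lv g < N) {T : V → V → Prop}
    (hT : ∀ p a b a' b', InB p a → InB p b → InB p a' → InB p b' → adj a b → adj a' b' →
      a ∈ U → b ∉ U → a' ∈ U → b' ∉ U → T a b → T a' b')
    {a b a' b' : V} (k : adj a b) (k' : adj a' b') (ha : Esc Uᶜ a) (ha' : Esc Uᶜ a')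
    (hb : Cn Uᶜ b b') (h : T a b) : T a' b' := by
  classical
  let c : V → F2 := fun e => if ∃ a b, adj a b ∧ a + b + (1, 1) = e ∧ a ∈ U ∧ b ∉ U ∧ T a b
    then 1 else 0
  have c1 : ∀ a b, adj a b → a ∈ U → b ∉ U → T a b → c (a + b + (1, 1)) = 1 :=
    fun a b k1 k2 k3 k4 => if_pos ⟨a, b, k1, rfl, k2, k3, k4⟩
  have c0 : ∀ a b, adj a b → ¬(a ∈ U ∧ b ∉ U ∧ T a b) → ¬(b ∈ U ∧ a ∉ U ∧ T b a) →
      c (a + b + (1, 1)) = 0 := by
    intro a b k1 k2 k3
    refine if_neg ?_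
    rintro ⟨x, y, j1, j2, j3⟩
    rcases adj_inj j1 k1 (add_right_cancel j2) with ⟨rfl, rfl⟩ | ⟨rfl, rfl⟩
    · exact k2 j3
    · exact k3 j3
  let ι : V → F2 := fun g => if g ∈ U then 1 else 0
  obtain ⟨z, hz⟩ := exists_cob ι
  have pz : Pot z (ι + 1) := ⟨fun a b k => by
    rw [← hz a b k]; simp only [Pi.add_apply, Pi.one_apply]
    linear_combination f2_add_self (1 : F2), N, fun g hg => by
    have : g ∈ U := by by_contra h; have := hU g h; omega
    simp [ι, this, f2_add_self]⟩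
  have hb0 : ∀ g, bd c g = 0 := by
    intro g
    have nb : ∀ d, adj g d → ∃ a b, adj a b ∧ g + d = a + b + (1, 1) ∧ InB (g - (1, 1)) a ∧
        InB (g - (1, 1)) b := by
      intro d hd
      obtain ⟨a, b, k1, k2, k3⟩ := partner' hd
      have a1 := k3 a (Or.inl rfl)
      have a2 := k3 b (Or.inr rfl)
      exact ⟨a, b, k1, k2, by simp only [InB, Prod.fst_sub, Prod.snd_sub]; omega,
        by simp only [InB, Prod.fst_sub, Prod.snd_sub]; omega⟩
    by_cases hex : ∃ a b, InB (g - (1, 1)) a ∧ InB (g - (1, 1)) b ∧ adj a b ∧ a ∈ U ∧ b ∉ U ∧ T a b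
    · obtain ⟨x, y, j1, j2, j3, j4, j5, j6⟩ := hex
      rw [← pz.bd_zero g]
      refine bd_congr fun d hd => ?_
      obtain ⟨a, b, k1, k2, k3, k4⟩ := nb d hd
      rw [k2, ← hz a b k1]
      by_cases ha : a ∈ U <;> by_cases hb : b ∈ U
      · rw [c0 a b k1 (by simp [hb]) (by simp [ha])]; simp [ι, ha, hb, f2_add_self]
      · rw [c1 a b k1 ha hb (hT _ _ _ _ _ j1 j2 k3 k4 j3 k1 j4 j5 ha hb j6)]; simp [ι, ha, hb]
      · rw [add_comm a b, c1 b a k1.symm hb ha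
          (hT _ _ _ _ _ j1 j2 k4 k3 j3 k1.symm j4 j5 hb ha j6)]; simp [ι, ha, hb]
      · rw [c0 a b k1 (by simp [ha]) (by simp [hb])]; simp [ι, ha, hb]
    · refine bd_zero_of fun d hd => ?_
      obtain ⟨a, b, k1, k2, k3, k4⟩ := nb d hd
      rw [k2]
      exact c0 a b k1 (fun h => hex ⟨a, b, k3, k4, k1, h⟩) fun h => hex ⟨b, a, k4, k3, k1.symm, h⟩
  have hbn : Bnd c := by
    refine ⟨N + 2, fun x y k hc => ?_⟩
    obtain ⟨a, b, k1, k2, k3⟩ := partner' k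
    by_contra hn
    have a1 := k3 a (Or.inl rfl)
    have a2 := k3 b (Or.inr rfl)
    have ha : a ∈ U := by
      by_contra h; have := hU a h; simp only [lv, mem_ofPred_eq] at *; omega
    have hb : b ∈ U := by
      by_contra h; have := hU b h; simp only [lv, mem_ofPred_eq] at *; omega
    exact hc (by rw [k2]; exact c0 a b k1 (by simp [hb]) (by simp [ha]))
  obtain ⟨f, hf⟩ := exists_pot hbn hb0
  have i1 : ∀ a ∉ Uᶜ, ∀ b ∉ Uᶜ, adj a b → f a = f b := fun a ha b hb k => f2_eq_of_add (by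
    rw [hf.1 a b k]; exact c0 a b k (by simp_all) (by simp_all))
  have i2 : f b = f b' := const_of_cn (fun a ha b hb k => f2_eq_of_add (by
    rw [hf.1 a b k]; exact c0 a b k (fun h => ha h.1) fun h => hb h.1)) hb
  have e1 := hf.1 a b k
  have e2 := hf.1 a' b' k'
  rw [zero_of_esc i1 hf.2 ha, c1 a b k (not_not.mp ha.notMem) hb.left_mem h] at e1
  rw [zero_of_esc i1 hf.2 ha', ← i2, e1] at e2
  by_contra hn
  rw [c0 a' b' k' (fun h => hn h.2.2) fun h => hb.right_mem h.1] at e2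
  exact one_ne_zero e2

end Pool.Agent.Lib.LP93
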