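import Pool.Agent.Lib.LP93.Cells
import Pool.Agent.Lib.LP93.Defs

/-! Tail bounds and almost sure limits. -/

open Set SimpleGraph MeasureTheory ProbabilityTheory Filter Topology

namespace Pool.Agent.Lib.LP93

open Pool.Agent.Lib.helper98 Pool.Agent.Lib.MP_db3ceb_pr

variable {p : ℝ}

/-- half the side of the cells -/
def NN (k : ℕ) : ℕ := k ^ 4 + 12 * k ^ 3 + 15 * k ^ 2 + 2 * k + 4

lemma par_NN {k : ℕ} (hk : 4 ≤ k) : Par (NN k) k (k ^ 4) (3 * k ^ 2) := by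
  have h2 : 16 ≤ k ^ 2 := Nat.pow_le_pow_left hk 2
  have e4 : k ^ 4 = k ^ 2 * k ^ 2 := by ring
  have e3 : k ^ 3 = k ^ 2 * k := by ring
  refine ⟨by nlinarith, ?_, by unfold NN; nlinarith⟩
  have h3 : (k ^ 2 + 1) ^ 3 ≤ 2 ^ (3 * k ^ 2) := by
    rw [mul_comm, pow_mul]
    exact Nat.pow_le_pow_left Nat.lt_two_pow_self _
  have h4 : k ≤ k ^ 2 := by nlinarith
  rw [pow_succ 2, e4]
  generalize k ^ 2 = j at *
  have h5 : j * k ≤ j * j := Nat.mul_le_mul_left _ h4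
  have h6 : 16 * (j * j) ≤ j * (j * j) := Nat.mul_le_mul_right _ h2
  have h7 : 16 * j ≤ j * j := Nat.mul_le_mul_right _ h2
  have h8 : 4 * (j * k) ≤ j * j := by nlinarith
  nlinarith

lemma params {C δ : ℝ} (hC : ∀ s : ℕ, (s : ℝ) ^ 33 * θ (1 - p) s ≤ C) (hδ : 0 < δ) :
    ∀ᶠ k : ℕ in atTop, (2 * NN k + 1) ^ 2 * θ (1 - p) (k + 1 : ℕ) ≤ δ ∧
      (1 - δ) * (2 * NN k + 2 : ℕ) ^ 2 ≤ (2 * k ^ 4 - 1 : ℕ) ^ 2 := by
  filter_upwards [eventually_ge_atTop 4, (tendsto_const_div_atTop_nhds_zero_nat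
    (5000 * C + 100)).eventually_le_const hδ] with k hk h
  have k1 : (4 : ℝ) ≤ k := by exact_mod_cast hk
  have hC0 : 0 ≤ C := le_trans (by simp) (hC 0)
  rw [div_le_iff₀ (by linarith)] at h
  have a1 : 1 ≤ k := by omega
  have a2 : k ≤ k ^ 2 := Nat.le_self_pow (by norm_num) k
  have a3 : k ^ 2 ≤ k ^ 3 := Nat.pow_le_pow_right a1 (by norm_num)
  have a4 : k ^ 3 ≤ k ^ 4 := Nat.pow_le_pow_right a1 (by norm_num)
  constructor
  · have b1 : (2 * NN k + 1) ^ 2 * k ≤ 5000 * (k + 1) ^ 33 :=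
      calc (2 * NN k + 1) ^ 2 * k ≤ (70 * k ^ 4) ^ 2 * k := by
            gcongr; unfold NN; omega
        _ = 4900 * k ^ 9 := by ring
        _ ≤ 5000 * (k + 1) ^ 33 := Nat.mul_le_mul (by norm_num)
            ((Nat.pow_le_pow_left (Nat.le_succ k) _).trans
              (Nat.pow_le_pow_right (Nat.succ_pos k) (by norm_num)))
    have b2 : (2 * (NN k : ℝ) + 1) ^ 2 * k ≤ 5000 * ((k + 1 : ℕ) : ℝ) ^ 33 := by exact_mod_cast b1
    have b3 := mul_le_mul_of_nonneg_right b2 (θ_nonneg (1 - p) (k + 1 : ℕ))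
    have b4 := hC (k + 1)
    refine le_of_mul_le_mul_right ?_ (show (0 : ℝ) < k by linarith)
    rw [mul_right_comm]
    refine b3.trans ?_
    rw [mul_assoc]
    exact (mul_le_mul_of_nonneg_left b4 (by norm_num)).trans (by linarith only [h])
  · have b1 : k * (2 * NN k + 2) ≤ k * (2 * k ^ 4 - 1) + 50 * (2 * NN k + 2) := by
      have : 2 * NN k + 2 ≤ 2 * k ^ 4 - 1 + 70 * k ^ 3 := by unfold NN; omega
      have c : k * (70 * k ^ 3) = 70 * k ^ 4 := by ring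
      have c2 : 70 * k ^ 4 ≤ 50 * (2 * NN k + 2) := by unfold NN; omega
      nlinarith
    have b2 : (k : ℝ) * (2 * NN k + 2 : ℕ) ≤ k * (2 * k ^ 4 - 1 : ℕ) + 50 * (2 * NN k + 2 : ℕ) := by
      exact_mod_cast b1
    have b3 : ((2 * k ^ 4 - 1 : ℕ) : ℝ) ≤ (2 * NN k + 2 : ℕ) := by
      exact_mod_cast (show 2 * k ^ 4 - 1 ≤ 2 * NN k + 2 by unfold NN; omega)
    have b4 : (0 : ℝ) ≤ (2 * k ^ 4 - 1 : ℕ) := Nat.cast_nonneg _
    generalize ((2 * k ^ 4 - 1 : ℕ) : ℝ) = x at *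
    generalize ((2 * NN k + 2 : ℕ) : ℝ) = m at *
    have b5 : k * (m - x) * (m + x) ≤ 50 * m * (2 * m) :=
      mul_le_mul (by linarith) (by linarith) (by linarith) (by linarith)
    have b6 : 100 * m ^ 2 ≤ δ * k * m ^ 2 := by gcongr; linarith
    refine le_of_mul_le_mul_left ?_ (show (0 : ℝ) < k by linarith)
    nlinarith

theorem upper (hp0 : 0 ≤ p) (hp1 : p ≤ 1) {C β : ℝ}
    (hC : ∀ s : ℕ, (s : ℝ) ^ 33 * θ (1 - p) s ≤ C) (hb : Tendsto (bb p) atTop (𝓝 β)) {ε : ℝ}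
    (hε : 0 < ε) : ∃ c : ℝ, 0 < c ∧ ∀ᶠ n : ℕ in atTop,
      pr p {ω | (1 - β + ε) * n ^ 2 ≤ LP ω (rect 1 n 1 n)} ≤ Real.exp (-c * n ^ 2) := by
  obtain ⟨δ, hδ, rfl⟩ : ∃ δ : ℝ, 0 < δ ∧ ε = 6 * δ := ⟨ε / 6, by positivity, by ring⟩
  have ht : Tendsto (fun k => 2 * NN k + 2) atTop atTop :=
    tendsto_atTop_mono (fun k => by simp only [NN, id]; omega) tendsto_id
  obtain ⟨k, hk, ⟨k1, k2⟩, k3⟩ := ((eventually_ge_atTop 4).and ((params hC hδ).and
    ((hb.comp ht).eventually_const_le (show β - δ < β by linarith)))).exists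
  have hpar := par_NN hk
  simp only [Function.comp] at k3
  generalize NN k = N at *
  have hE := int_X0 hp0 hp1 N k
  have hE0 : 0 ≤ ∫ ω, X0 N k ω ∂PP V p := integral_nonneg fun ω => (X0_mem _ _ ω).1
  set m := 2 * N + 2 with hm
  have m0 : (0 : ℝ) < m := by positivity
  refine ⟨δ ^ 2 / (2 * m ^ 2), by positivity, ?_⟩
  filter_upwards [eventually_ge_atTop m, (tendsto_const_div_atTop_nhds_zero_nat
    (4 * (m : ℝ))).eventually_le_const hδ] with n n1 n2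
  have a1 : n / m * m ≤ n := Nat.div_mul_le_self _ _
  have a2 : n < n / m * m + m := Nat.lt_div_mul_add (by omega)
  have a3 : 1 ≤ n / m := Nat.div_pos n1 (by omega)
  have hL := fun ω => LP_le hpar a1 ω
  have hH := hoeff (p := p) (E := fun q => Ed (rect ((ctr N q).1 - N) ((ctr N q).1 + N + 1)
      ((ctr N q).2 - N) ((ctr N q).2 + N + 1))) (X := fun q ω => X0 N k (sh (ctr N q) ω))
    (fun q => Ed_finite (rect_finite _ _ _ _)) (fun q => sh_loc N k _) (fun q ω => X0_mem _ _ _)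
    (s := Finset.range (n / m) ×ˢ Finset.range (n / m)) (fun q _ q' _ c =>
      Ed_disjoint (Set.disjoint_left.mpr fun z h1 h2 => by
        have := ctr_sep (N := N) c
        simp only [rect, mem_ofPred_eq] at h1 h2
        omega)) hδ.le fun q _ => (int_sh N k _).le
  rw [Finset.card_product, Finset.card_range] at hH
  generalize n / m = K at *
  have b1 : (K : ℝ) * m ≤ n := by exact_mod_cast a1
  have b2 : (n : ℝ) ≤ K * m + m := by exact_mod_cast a2.le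
  have b3 : (1 : ℝ) ≤ K := by exact_mod_cast a3
  have b4 : (m : ℝ) ≤ n := by exact_mod_cast n1
  have n0 : (0 : ℝ) < n := by linarith
  rw [div_le_iff₀ n0] at n2
  have b5 : (K * m : ℝ) ^ 2 ≤ n ^ 2 := by gcongr
  refine (pr_mono fun ω hω => ?_).trans (hH.trans (Real.exp_le_exp.mpr ?_))
  · have h := hL ω
    rw [← hm] at h
    simp only [mem_ofPred_eq] at hω ⊢
    by_contra! hn
    generalize ∑ q ∈ Finset.range K ×ˢ Finset.range K, X0 N k (sh (ctr N q) ω) = S at *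
    generalize ∫ ω, X0 N k ω ∂PP V p = e at *
    push_cast [Nat.cast_mul K K] at hn
    have c1 : (m : ℝ) ^ 2 * S ≤ n ^ 2 * (e + δ) :=
      calc (m : ℝ) ^ 2 * S ≤ m ^ 2 * (K * K * (e + δ)) := by gcongr
        _ = (K * m) ^ 2 * (e + δ) := by ring
        _ ≤ _ := by gcongr
    have c2 : (n : ℝ) ^ 2 * (e + δ) ≤ n ^ 2 * (1 - β + 3 * δ) :=
      mul_le_mul_of_nonneg_left (by linarith) (by positivity)
    have c3 := mul_le_mul_of_nonneg_left k2 (sq_nonneg (K : ℝ))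
    have c4 : δ * (K * m) ^ 2 ≤ δ * n ^ 2 := by gcongr
    have c5 : (n - K * m) * (n + K * m) ≤ (m : ℝ) * (2 * n) :=
      mul_le_mul (by linarith) (by linarith) (by positivity) m0.le
    have c6 : (m : ℝ) * m ≤ m * n := by gcongr
    have c7 : 4 * m * n ≤ δ * n * n := by gcongr
    have c8 : 0 < δ * n ^ 2 := by positivity
    nlinarith
  · have c1 : (n : ℝ) ≤ 2 * (K * m) := by nlinarith
    have c2 : (n : ℝ) ^ 2 ≤ (2 * (K * m)) ^ 2 := by gcongr
    have c3 : δ ^ 2 / (2 * m ^ 2) * n ^ 2 ≤ δ ^ 2 / (2 * m ^ 2) * (2 * (K * m)) ^ 2 := by gcongr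
    have c4 : δ ^ 2 / (2 * m ^ 2) * (2 * (K * m)) ^ 2 = 2 * δ ^ 2 * (K * K) := by field_simp
    push_cast
    linarith

lemma pr_AV {m m' K : ℕ} (hm : m ≤ m') {δ : ℝ} (hδ : 0 ≤ δ) :
    pr p {ω | K ^ 2 * (bb p m + δ) ≤ SD m m' K ω} ≤ Real.exp (-2 * δ ^ 2 * K ^ 2) := by
  have hH := hoeff (p := p) (X := fun q : ℕ × ℕ => Df m (1 + q.2 * m) (1 + q.1 * m'))
    (fun q => Ed_finite (rect_finite _ _ _ _)) (fun q => Df_loc _ _ _) (fun q ω => Df_mem _ _ _ _)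
    (s := Finset.range K ×ˢ Finset.range K) (by
      rintro ⟨i, j⟩ - ⟨k, l⟩ - hne
      refine Ed_disjoint (Set.disjoint_left.mpr fun z h1 h2 => ?_)
      simp only [rect, mem_ofPred_eq] at h1 h2
      rcases lt_trichotomy i k with h | rfl | h
      · have := sep h hm; omega
      · rcases lt_trichotomy j l with h | rfl | h
        · have := sep h (le_refl m); omega
        · exact hne rfl
        · have := sep h (le_refl m); omega
      · have := sep h hm; omega) hδ fun q _ => (int_Df _ _ _).le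
  rw [Finset.card_product, Finset.card_range, Nat.cast_mul, ← sq] at hH
  simpa only [SD, Finset.sum_apply] using hH

theorem lower (hp0 : 0 ≤ p) (hp1 : p ≤ 1) {C β : ℝ}
    (hC : ∀ s : ℕ, (s : ℝ) ^ 33 * θ (1 - p) s ≤ C) (hb : Tendsto (bb p) atTop (𝓝 β)) {ε : ℝ}
    (hε : 0 < ε) : ∃ D : ℝ, ∀ᶠ n : ℕ in atTop, pr p {ω | β + ε ≤ Df n 1 1 ω} ≤ D / n ^ 2 := by
  obtain ⟨δ, hδ, rfl⟩ : ∃ δ : ℝ, 0 < δ ∧ ε = 3 * δ := ⟨ε / 3, by positivity, by ring⟩
  refine ⟨2 * C + (Nat.factorial 8 : ℕ) * 2 ^ 16 / (2 * δ ^ 2) ^ 8, ?_⟩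
  filter_upwards [(tendsto_tt.comp tendsto_sqrt).eventually_ge_atTop 2,
    ((tendsto_div_tt 30).comp tendsto_sqrt).eventually_le_const hδ,
    (hb.comp tendsto_sqrt).eventually_le_const (show β < β + δ by linarith)] with n ht h1 h2
  simp only [Function.comp] at ht h1 h2
  have hn := Nat.sqrt_le' n
  have hn' := Nat.lt_succ_sqrt' n
  generalize Nat.sqrt n = m at *
  have hK := tt_le_K ht hn
  have hP := pt_bound ht hn
  have hA := pr_AV (p := p) (m := m) (m' := m + 2 * tt m + 2) (K := n / (m + 2 * tt m + 2))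
    (by omega) hδ.le
  have a0 := tt_le m
  have a1 := lt_tt m
  unfold AV at hP
  generalize tt m = t at *
  generalize n / (m + 2 * t + 2) = K at *
  have m0 : 0 < m := lt_of_lt_of_le (by positivity) a0
  have n0 : 0 < n := lt_of_lt_of_le (by positivity) hn
  have a2 : n ≤ (t + 1) ^ 8 :=
    calc n ≤ (m + 1) ^ 2 := hn'.le
      _ ≤ ((t + 1) ^ 4) ^ 2 := Nat.pow_le_pow_left a1 _
      _ = _ := by ring
  have n1 : (0 : ℝ) < n := by exact_mod_cast n0
  have K0 : (0 : ℝ) < K := by exact_mod_cast (show 0 < K by omega)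
  have s1 : pr p {ω | β + 3 * δ ≤ Df n 1 1 ω} ≤ pr p ((Good n t)ᶜ ∪
      {ω | K ^ 2 * (bb p m + δ) ≤ SD m (m + 2 * t + 2) K ω}) := pr_mono fun ω hω => by
    by_cases h : ω ∈ Good n t
    · right
      have := hP ω
      rw [indicator_of_notMem (not_not.mpr h), add_zero] at this
      simp only [mem_ofPred_eq] at hω ⊢
      rw [mul_comm, ← le_div_iff₀ (by positivity)]
      linarith
    · exact Or.inl h
  have s2 : pr p (Good n t)ᶜ ≤ 2 * C / n ^ 2 := by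
    refine (pr_bad hp0 hp1 n0 t).trans ?_
    have b1 : n ^ 4 ≤ (t + 1) ^ 33 :=
      calc n ^ 4 ≤ ((t + 1) ^ 8) ^ 4 := Nat.pow_le_pow_left a2 _
        _ = (t + 1) ^ 32 := by rw [← pow_mul]
        _ ≤ _ := Nat.pow_le_pow_right (Nat.succ_pos t) (by norm_num)
    have b2 : (n : ℝ) ^ 4 ≤ ((t + 1 : ℕ) : ℝ) ^ 33 := by exact_mod_cast b1
    have b3 := (mul_le_mul_of_nonneg_right b2 (θ_nonneg (1 - p) (t + 1 : ℕ))).trans (hC (t + 1))
    rw [le_div_iff₀ (by positivity)]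
    generalize θ (1 - p) (t + 1 : ℕ) = x at *
    calc 2 * (n : ℝ) ^ 2 * x * n ^ 2 = 2 * (n ^ 4 * x) := by ring
      _ ≤ _ := by gcongr
  have s3 : Real.exp (-2 * δ ^ 2 * K ^ 2) ≤
      (Nat.factorial 8 : ℕ) * 2 ^ 16 / (2 * δ ^ 2) ^ 8 / n ^ 2 := by
    have b1 : n ^ 2 ≤ 2 ^ 16 * K ^ 16 :=
      calc n ^ 2 ≤ ((2 * K) ^ 8) ^ 2 :=
            Nat.pow_le_pow_left (a2.trans (Nat.pow_le_pow_left (by omega) _)) _
        _ = _ := by rw [← pow_mul, mul_pow]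
    have b2 : (n : ℝ) ^ 2 ≤ 2 ^ 16 * K ^ 16 := by exact_mod_cast b1
    have b3 := Real.pow_div_factorial_le_exp (2 * δ ^ 2 * K ^ 2) (by positivity) 8
    have b4 : (0 : ℝ) < (Nat.factorial 8 : ℕ) := by positivity
    generalize ((Nat.factorial 8 : ℕ) : ℝ) = F at *
    rw [show -2 * δ ^ 2 * K ^ 2 = -(2 * δ ^ 2 * K ^ 2) by ring, Real.exp_neg]
    refine (inv_anti₀ (by positivity) b3).trans ?_
    rw [inv_div, div_div, div_le_div_iff₀ (by positivity) (by positivity), mul_pow (2 * δ ^ 2),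
      ← pow_mul (K : ℝ)]
    calc F * ((2 * δ ^ 2) ^ 8 * n ^ 2) ≤ F * ((2 * δ ^ 2) ^ 8 * (2 ^ 16 * K ^ 16)) := by gcongr
      _ = _ := by ring
  rw [add_div]
  linarith [pr_union_le p (Good n t)ᶜ {ω | K ^ 2 * (bb p m + δ) ≤ SD m (m + 2 * t + 2) K ω}]

lemma borel {A : ℕ → Set (V → Prop)} {D : ℝ} (h : ∀ᶠ n : ℕ in atTop, pr p (A n) ≤ D / n ^ 2) :
    ∀ᵐ ω ∂PP V p, ∀ᶠ n in atTop, ω ∉ A n := by
  have h1 : Summable fun n => pr p (A n) :=
    Summable.of_norm_bounded_eventually_nat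
      (g := fun n => D * (1 / (n : ℝ) ^ 2)) ((Real.summable_one_div_nat_pow.mpr one_lt_two).mul_left D)
      (h.mono fun n hn => by rwa [Real.norm_of_nonneg (pr_nonneg _ _), mul_one_div])
  refine ae_eventually_notMem ?_
  have := h1.tsum_ofReal_ne_top
  simpa only [pr, ofReal_measureReal (measure_ne_top _ _)] using this

theorem slln (hp : 1 / 2 < p) (hp1 : p ≤ 1) : ∃ κ : ℝ,
    (∀ᵐ ω ∂PP V p, Tendsto (fun n : ℕ => (LC ω (rect 1 n 1 n) : ℝ) / n ^ 2) atTop (𝓝 κ) ∧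
      Tendsto (fun n : ℕ => (LP ω (rect 1 n 1 n) : ℝ) / n ^ 2) atTop (𝓝 κ)) ∧
    ∀ ε : ℝ, 0 < ε → ∃ c : ℝ, 0 < c ∧ ∀ᶠ n : ℕ in atTop,
      pr p {ω | (κ + ε) * n ^ 2 ≤ LP ω (rect 1 n 1 n)} ≤ Real.exp (-c * n ^ 2) := by
  have hp0 : 0 ≤ p := by linarith
  obtain ⟨C, hC0, hC⟩ := poly_decay (q := 1 - p) (by linarith) (by linarith)
  have hb := conv (b := bb p) (E := 30 + 2 * C) (by positivity) (bb_mem p)
    fun n m => step hp0 hp1 hC
  generalize liminf (bb p) atTop = β at hb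
  refine ⟨1 - β, ?_, fun ε hε => upper hp0 hp1 hC hb hε⟩
  have key : ∀ j : ℕ, ∀ᵐ ω ∂PP V p, ∀ᶠ n : ℕ in atTop,
      1 - β - 1 / (j + 1) < (LC ω (rect 1 n 1 n) : ℝ) / n ^ 2 ∧
        (LP ω (rect 1 n 1 n) : ℝ) / n ^ 2 < 1 - β + 1 / (j + 1) := by
    intro j
    have hε : (0 : ℝ) < 1 / (j + 1) := Nat.one_div_pos_of_nat
    obtain ⟨c, hc, h1⟩ := upper hp0 hp1 hC hb hε
    obtain ⟨D, h2⟩ := lower hp0 hp1 hC hb hε
    have h3 := borel (D := 1 / c) (h1.mp ((eventually_gt_atTop 0).mono fun n hn h => h.trans (by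
      have n0 : (0 : ℝ) < n := by exact_mod_cast hn
      rw [neg_mul, Real.exp_neg, div_div, one_div]
      exact inv_anti₀ (by positivity) (by linarith [Real.add_one_le_exp (c * n ^ 2)]))))
    filter_upwards [h3, borel h2] with ω k1 k2
    filter_upwards [k1, k2, eventually_gt_atTop 0] with n k3 k4 hn
    have n0 : (0 : ℝ) < n := by exact_mod_cast hn
    simp only [not_le, Df, show (1 : ℤ) + n - 1 = n by ring] at k3 k4
    exact ⟨by linarith, by rwa [div_lt_iff₀ (by positivity)]⟩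
  filter_upwards [ae_all_iff.mpr key] with ω hω
  have h1 : ∀ n : ℕ, (LC ω (rect 1 n 1 n) : ℝ) / n ^ 2 ≤
      (LP ω (rect 1 n 1 n) : ℝ) / n ^ 2 + 1 / n ^ 2 := fun n => by
    rw [← add_div]
    gcongr
    exact_mod_cast LC_le_LP (rect_finite _ _ _ _)
  have h2 : Tendsto (fun n : ℕ => 1 / (n : ℝ) ^ 2) atTop (𝓝 0) := by
    simpa using (tendsto_one_div_atTop_nhds_zero_nat (𝕜 := ℝ)).pow 2
  constructor <;> refine Metric.tendsto_nhds.mpr fun ε hε => ?_ <;>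
    obtain ⟨j, hj⟩ := exists_nat_one_div_lt (half_pos hε) <;>
    filter_upwards [hω j, h2.eventually_lt_const (half_pos hε)] with n k1 k2 <;>
    rw [Real.dist_eq, abs_lt] <;> constructor <;> linarith [h1 n, k1.1, k1.2]

lemma longestPath_edges (n : ℕ) (ω : V → Prop) :
    longestPath n (edges ω) = LP ω (rect 1 n 1 n) := by
  rw [longestPath, fromEdgeSet_edges]
  rfl

lemma longestPath_congr {n : ℕ} {s t : Set (Sym2 V)}
    (h : ∀ a ∈ rect 1 n 1 n, ∀ b ∈ rect 1 n 1 n, (s(a, b) ∈ s ↔ s(a, b) ∈ t)) :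
    longestPath n s = longestPath n t := by
  have key : ∀ {s t : Set (Sym2 V)}, (∀ a ∈ rect 1 n 1 n, ∀ b ∈ rect 1 n 1 n,
      s(a, b) ∈ s → s(a, b) ∈ t) → ∀ (u v : V) (w : (fromEdgeSet s).Walk u v), w.IsPath →
      (∀ z ∈ w.support, z ∈ rect 1 n 1 n) → ∃ w' : (fromEdgeSet t).Walk u v, w'.IsPath ∧
        (∀ z ∈ w'.support, z ∈ rect 1 n 1 n) ∧ w'.length = w.length := by
    intro s t h u v w h1 h2
    have he : ∀ e ∈ w.edges, e ∈ (fromEdgeSet t).edgeSet := by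
      intro e
      induction e using Sym2.ind with
      | h a b =>
        intro hab
        have k := (fromEdgeSet_adj _).mp (w.adj_of_mem_edges hab)
        exact (fromEdgeSet_adj _).mpr ⟨h _ (h2 _ (w.fst_mem_support_of_mem_edges hab)) _
          (h2 _ (w.snd_mem_support_of_mem_edges hab)) k.1, k.2⟩
    exact ⟨w.transfer _ he, h1.transfer he, by simpa using h2, Walk.length_transfer _ _⟩
  unfold longestPath
  congr 1
  ext l
  constructor <;> rintro ⟨u, v, w, h1, h2, rfl⟩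
  · exact ⟨u, v, key (fun a ha b hb => (h a ha b hb).mp) u v w h1 h2⟩
  · exact ⟨u, v, key (fun a ha b hb => (h a ha b hb).mpr) u v w h1 h2⟩

lemma measurable_longestPath (n : ℕ) : Measurable (longestPath n) := by
  refine measurable_to_countable' fun k => ?_
  have hfin : (image2 (fun a b => s(a, b)) (rect 1 n 1 n) (rect 1 n 1 n)).Finite :=
    (rect_finite _ _ _ _).image2 _ (rect_finite _ _ _ _)
  have hd : Dep (image2 (fun a b => s(a, b)) (rect 1 n 1 n) (rect 1 n 1 n))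
      {x : Sym2 V → Prop | longestPath n {e | x e} = k} := by
    intro x y h h1
    exact (longestPath_congr fun a ha b hb => (h _ (mem_image2_of_mem ha hb)).symm).trans h1
  exact MeasurableEquiv.setOfPred.symm.measurable (hd.measurableSet hfin)

theorem main_as (p : unitInterval) (hp : 1 / 2 < (p : ℝ)) : ∃ κ : ℝ,
    TendstoInMeasure (setBernoulli lattice.edgeSet p)
      (fun (n : ℕ) ω => (longestCycle n ω : ℝ) / (n : ℝ) ^ 2) atTop (fun _ => κ) ∧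
    (∀ᵐ ω ∂setBernoulli lattice.edgeSet p,
      Tendsto (fun n : ℕ => (longestCycle n ω : ℝ) / (n : ℝ) ^ 2) atTop (𝓝 κ) ∧
      Tendsto (fun n : ℕ => (longestPath n ω : ℝ) / (n : ℝ) ^ 2) atTop (𝓝 κ)) ∧
    ∀ ε : ℝ, 0 < ε → ∃ c : ℝ, 0 < c ∧ ∀ᶠ n : ℕ in atTop,
      (setBernoulli lattice.edgeSet p).real {ω | (κ + ε) * (n : ℝ) ^ 2 ≤ longestPath n ω} ≤
        Real.exp (-c * (n : ℝ) ^ 2) := by
  obtain ⟨κ, h1, h2⟩ := slln hp p.2.2
  have m1 : ∀ n : ℕ, Measurable fun ω => (longestCycle n ω : ℝ) / (n : ℝ) ^ 2 := fun n =>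
    (Measurable.of_discrete (f := fun k : ℕ => (k : ℝ) / (n : ℝ) ^ 2)).comp
      (measurable_longestCycle n)
  have m2 : ∀ n : ℕ, Measurable fun ω => (longestPath n ω : ℝ) / (n : ℝ) ^ 2 := fun n =>
    (Measurable.of_discrete (f := fun k : ℕ => (k : ℝ) / (n : ℝ) ^ 2)).comp
      (measurable_longestPath n)
  have h3 : ∀ᵐ ω ∂setBernoulli lattice.edgeSet p,
      Tendsto (fun n : ℕ => (longestCycle n ω : ℝ) / (n : ℝ) ^ 2) atTop (𝓝 κ) ∧
      Tendsto (fun n : ℕ => (longestPath n ω : ℝ) / (n : ℝ) ^ 2) atTop (𝓝 κ) := by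
    rw [← map_edges]
    refine (ae_map_iff measurable_edges.aemeasurable
      ((measurableSet_tendsto _ m1).inter (measurableSet_tendsto _ m2))).mpr ?_
    refine h1.mono fun ω h => ?_
    simp only [← longestCycle_edges, ← longestPath_edges] at h
    exact h
  refine ⟨κ, tendstoInMeasure_of_tendsto_ae (fun n => (m1 n).aestronglyMeasurable)
    (h3.mono fun _ h => h.1), h3, fun ε hε => ?_⟩
  obtain ⟨c, hc, h4⟩ := h2 ε hε
  refine ⟨c, hc, h4.mono fun n hn => ?_⟩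
  have hm : MeasurableSet {ω | (κ + ε) * (n : ℝ) ^ 2 ≤ longestPath n ω} :=
    measurable_longestPath n (MeasurableSet.of_discrete
      (s := {k : ℕ | (κ + ε) * (n : ℝ) ^ 2 ≤ k}))
  rw [← map_edges, map_measureReal_apply measurable_edges hm]
  simpa only [preimage_ofPred_eq, longestPath_edges, pr] using hn

end Pool.Agent.Lib.LP93
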